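import Pool.Agent.Lib.MP_e47d8d_al.Frames

/-! The ascending link. -/

set_option linter.unusedSectionVars false
set_option linter.unusedVariables false

noncomputable section

namespace OutFn

open Finset

variable {H : Type*} [Fintype H] [DecidableEq H]
variable {Λ : Type*} [AddCommGroup Λ] [LinearOrder Λ] [IsOrderedAddMonoid Λ]
variable {c : Finset H → Λ} {r : H → Finset H}

lemma good_L (hr : Fr r) {A B M I : Finset H} {xx yy : H} {h0 : Λ} (hA : Sat r A)
    (hx : xx ∈ A) (hy : yy ∉ B) (hM : Sat r M) (hAM : A ⊂ M)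
    (hgood : ∀ J, Sat r J → A ⊆ J → J ⊆ B → h0 ≤ c (J ∪ M) → h0 ≤ c J)
    (hI : Sat r I) (hMI : M ⊂ I) (hIB : I ⊆ B) (hcI : h0 ≤ c I) (k : ℤ) :
    IC compat k {J | J ∈ Ival r A I ∧ h0 ≤ c J ∧ ¬M ⊆ J} := by
  obtain ⟨u, hu1, hu2⟩ := exists_of_ssubset hAM
  obtain ⟨v, hv1, hv2⟩ := exists_of_ssubset hMI
  have hAI := hAM.1.trans hMI.1
  have hNs : Sat r (A ∪ (I \ M)) := hA.union (hI.sdiff hr hM)
  have hNI : A ∪ (I \ M) ⊆ I := union_subset hAI sdiff_subset
  have hcov : ∀ J, J ⊆ I → (J ∪ (A ∪ (I \ M))) ∪ M = I := by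
    intro J hJ
    refine Subset.antisymm (union_subset (union_subset hJ hNI) hMI.1) (fun w hw => ?_)
    by_cases hwM : w ∈ M <;> simp [hw, hwM]
  have hnot : ∀ J, A ⊆ J → ¬M ⊆ J → ¬M ⊆ J ∪ (A ∪ (I \ M)) := by
    intro J hAJ hJ hh
    refine hJ (fun w hw => ?_)
    rcases mem_union.1 (hh hw) with h | h
    · exact h
    · rcases mem_union.1 h with h | h
      exacts [hAJ h, absurd hw (mem_sdiff.1 h).2]
  have key : ∀ J, Sat r J → A ⊆ J → J ⊆ I → ¬M ⊆ J →
      J ∪ (A ∪ (I \ M)) ∈ {J | J ∈ Ival r A I ∧ h0 ≤ c J ∧ ¬M ⊆ J} := by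
    intro J j1 j2 j3 j4
    have j5 := hnot J j2 j4
    have j6 : J ∪ (A ∪ (I \ M)) ⊆ I := union_subset j3 hNI
    refine ⟨⟨j1.union hNs, ⟨j2.trans subset_union_left, fun hh => hv2 (hAM.1 (hh ?_))⟩,
      ⟨j6, fun hh => j5 (hMI.1.trans hh)⟩⟩,
      hgood _ (j1.union hNs) (j2.trans subset_union_left) (j6.trans hIB) ?_, j5⟩
    · simp [hv1, hv2]
    · rw [hcov J j3]; exact hcI
  refine IC.conical (xx := xx) (yy := yy) (N := A ∪ (I \ M)) ?_ ?_ ?_ k
  · rintro J ⟨⟨_, j2, j3⟩, _⟩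
    exact ⟨j2.1 hx, fun h => hy (hIB (j3.1 h))⟩
  · have := key A hA Subset.rfl hAI hAM.2
    rwa [← union_assoc, union_self] at this
  · rintro J ⟨⟨j1, j2, j3⟩, _, j4⟩
    exact key J j1 j2.1 j3.1 j4

lemma good_IC (hc : Cut c) (hr : Fr r) {A B : Finset H} {xx yy : H} {h0 : Λ} (hA : Sat r A)
    (hB : Sat r B) (hAB : A ⊆ B) (hx : xx ∈ A) (hy : yy ∉ B) (hcA : h0 ≤ c A) (hcB : h0 ≤ c B) :
    IC compat ((nb r (B \ A) : ℤ) - 3) {J | J ∈ Ival r A B ∧ h0 ≤ c J} := by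
  by_cases hall : ∀ J ∈ Ival r A B, h0 ≤ c J
  · have e : {J | J ∈ Ival r A B ∧ h0 ≤ c J} = Ival r A B := by
      ext J; exact ⟨fun h => h.1, fun h => ⟨h, hall J h⟩⟩
    rw [e]
    exact boolean_IC hr hA hx _ B hB hAB hy rfl
  push Not at hall
  obtain ⟨I0, hI0, hbad⟩ := hall
  obtain ⟨M, hM, hmin⟩ := Set.exists_min_image {J | Sat r J ∧ A ⊆ J ∧ J ⊆ B} c (Set.toFinite _)
    ⟨I0, hI0.1, hI0.2.1.1, hI0.2.2.1⟩
  have hMbad : c M < h0 := (hmin I0 ⟨hI0.1, hI0.2.1.1, hI0.2.2.1⟩).trans_lt hbad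
  have hne : ∀ J, h0 ≤ c J → M ≠ J := fun J hJ he => absurd (he ▸ hJ) (not_le.2 hMbad)
  have hAM : A ⊂ M := Finset.ssubset_iff_subset_ne.2 ⟨hM.2.1, (hne A hcA).symm⟩
  have hgood : ∀ J, Sat r J → A ⊆ J → J ⊆ B → h0 ≤ c (J ∪ M) → h0 ≤ c J := by
    intro J j1 j2 j3 j4
    have s1 := hc.sub J M
    have s2 := hmin (J ∩ M) ⟨j1.inter hM.1, subset_inter j2 hM.2.1, inter_subset_left.trans j3⟩
    grind
  have hL := fun I (hI : Sat r I) (hMI : M ⊆ I) (hIB : I ⊆ B) (hcI : h0 ≤ c I) =>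
    good_L hr hA hx hy hM.1 hAM hgood hI (Finset.ssubset_iff_subset_ne.2 ⟨hMI, hne I hcI⟩) hIB hcI
  have e : {J | J ∈ Ival r A B ∧ h0 ≤ c J} = {J | J ∈ Ival r A B ∧ h0 ≤ c J ∧ ¬M ⊆ J} ∪
      {J | J ∈ Ival r A B ∧ h0 ≤ c J ∧ M ⊆ J} := by
    ext P; simp only [Set.mem_union, Set.mem_ofPred_eq]; tauto
  rw [e]
  refine IC.add_ranked (fun J => Jᶜ.card) (hL B hB hM.2.2 Subset.rfl hcB _) ?_
  intro v hv S hS _ hle _
  have hin : ∀ J ∈ Ival r A B, xx ∈ J ∧ yy ∉ J := fun J hJ =>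
    ⟨hJ.2.1.1 hx, fun h => hy (hJ.2.2.1 h)⟩
  have hcmp : ∀ J ∈ Ival r A B, compat J v → J ⊆ v ∨ v ⊆ J := by
    intro J hJ h
    have h1 := hin J hJ
    have h2 := hin v hv.1
    rcases h with h | h | h | h
    exacts [Or.inl h, Or.inr h, absurd h2.1 (h xx h1.1), absurd (h yy h1.2) h2.2]
  have e2 : {u | u ∈ {J | J ∈ Ival r A B ∧ h0 ≤ c J ∧ ¬M ⊆ J} ∪ S ∧ compat u v} =
      {u | u ∈ S ∧ compat u v} ∪ {J | J ∈ Ival r A v ∧ h0 ≤ c J ∧ ¬M ⊆ J} := by
    ext u
    constructor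
    · rintro ⟨hu | hu, huv⟩
      · right
        have hnv : ¬v ⊆ u := fun h => hu.2.2 (hv.2.2.trans h)
        exact ⟨⟨hu.1.1, hu.1.2.1, ⟨(hcmp u hu.1 huv).resolve_right hnv, hnv⟩⟩, hu.2⟩
      · exact Or.inl ⟨hu, huv⟩
    · rintro (hu | hu)
      · exact ⟨Or.inr hu.1, hu.2⟩
      · exact ⟨Or.inl ⟨⟨hu.1.1, hu.1.2.1, hu.1.2.2.trans hv.1.2.2⟩, hu.2⟩, Or.inl hu.1.2.2.1⟩
  rw [e2]
  refine IC.join_any compat_symm (hL v hv.1.1 hv.2.2 hv.1.2.2.1 hv.2.1 _) ?_
  intro u hu J hJ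
  have hvu : v ⊆ u := by
    rcases hcmp u (hS hu.1).1 hu.2 with h | h
    · have := eq_of_subset_of_card_le (compl_subset_compl.2 h) (hle u hu.1)
      rw [compl_injective this]
    · exact h
  exact Or.inr (Or.inl (hJ.1.2.2.1.trans hvu))

variable {ι : Type*} (c) (x y : ι → H) (h : ι → Λ)

/-- Ascending for one of the pairs in `T`. -/
def good (T : Finset ι) (P : Finset H) : Prop := ∃ i ∈ T, Sep P (x i) (y i) ∧ h i ≤ c P

/-- Blocks of separated pairs are high. -/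
def Hyp (r : H → Finset H) (T : Finset ι) : Prop :=
  ∀ i ∈ T, y i ∉ r (x i) → h i ≤ c (r (x i)) ∧ h i ≤ c (r (y i))

/-- New edges, seen from the side that misses `o`. -/
def EX (T : Finset ι) (h0 : Λ) (o a a' : H) (R : Finset H) : Prop :=
  a ∈ R ∧ a' ∉ R ∧ o ∉ R ∧ h0 ≤ c R ∧ ¬good c x y h T R

/-- Closure of a property under complements. -/
def tw (E : Finset H → Prop) (R : Finset H) : Prop := E R ∨ E Rᶜ

variable {c x y h}

omit [AddCommGroup Λ] [IsOrderedAddMonoid Λ] in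
lemma good_compl' (hs : ∀ A, c Aᶜ = c A) {T : Finset ι} {P : Finset H} :
    good c x y h T Pᶜ ↔ good c x y h T P := by
  simp only [good, sep_compl, hs]

omit [IsOrderedAddMonoid Λ] in
lemma hyp_col (hc : Cut c) (hr : Fr r) {T : Finset ι} (hT : Hyp c x y h r T) {P : Finset H}
    (hP : Sat r P) (hs : ∀ i ∈ T, Sep P (x i) (y i) → h i ≤ c P) : Hyp c x y h (col r P) T := by
  intro i hi hl
  by_cases h1 : x i ∈ P <;> by_cases h2 : y i ∈ P
  · simp only [col, h1, h2, if_true] at hl ⊢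
    exact hT i hi hl
  · simp only [col, h1, h2, if_true, if_false] at hl ⊢
    exact ⟨(hT i hi hl).1, by rw [hc.sym]; exact hs i hi (by simp [Sep, h1, h2])⟩
  · simp only [col, h1, h2, if_true, if_false] at hl ⊢
    refine ⟨by rw [hc.sym]; exact hs i hi (by simp [Sep, h1, h2]), (hT i hi (fun hh => ?_)).2⟩
    exact hl ((hP.compl hr) _ (mem_compl.2 h1) _ hh)
  · simp [col, h1, h2] at hl

lemma live_col {P : Finset H} (hP : Sat r P) {a b : H} (hs : Sep P a b) : b ∉ col r P a := by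
  by_cases h1 : a ∈ P
  · simp only [col, h1, if_true]
    exact fun hh => hs ⟨fun _ => hP a h1 b hh, fun _ => h1⟩
  · simp only [col, h1, if_false, mem_compl, not_not]
    by_contra h2
    exact hs ⟨fun h => absurd h h1, fun h => absurd h h2⟩

lemma step_IC (hr : Fr r) {p0 g E : Finset H → Prop} {a o : H} {k : ℤ}
    (hp0 : ∀ R, p0 Rᶜ ↔ p0 R) (hg : ∀ R, g Rᶜ ↔ g R) (hpg : ∀ R, p0 R → g R)
    (hEg : ∀ R, E R → g R) (hEa : ∀ R, E R → a ∈ R ∧ o ∉ R ∧ ¬p0 R)
    (hin : ∀ P R, E P → R ⊆ P → g R → p0 R ∨ E R) (h0 : IC compat k (ZZ r p0))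
    (hlink : ∀ P, Edge r P → E P → ∃ s t, k - 1 ≤ s + t + 2 ∧ IC compat s (ZZ (col r P) g) ∧
      IC compat t (ZZ (col r Pᶜ) p0)) :
    IC compat k (ZZ r (fun R => p0 R ∨ tw E R)) := by
  have e : ZZ r (fun R => p0 R ∨ tw E R) = ZZ r p0 ∪ ZZ r (tw E) := by
    ext P; simp only [ZZ, Set.mem_union, Set.mem_ofPred_eq]; tauto
  rw [e]
  let f : Finset H → ℕ := fun R => if o ∈ R then Rᶜ.card else R.card
  have hf1 : ∀ R, E R → f R = R.card := fun R hR => by simp [f, (hEa R hR).2.1]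
  have hf2 : ∀ R, E Rᶜ → f R = Rᶜ.card := fun R hR => by
    have := (hEa _ hR).2.1
    simp only [mem_compl, not_not] at this
    simp [f, this]
  refine IC.add_ranked f h0 ?_
  intro v hv S hS hvS hle hlt
  by_cases hvc : vᶜ ∈ S
  · exact IC.cone _ _ vᶜ ⟨Or.inr hvc, compat_compl_left.2 (compat_refl v)⟩
      (fun u hu => compat_compl_right.2 hu.2)
  obtain ⟨P, hP, hEP, hPS, hPS', hfP, hcP⟩ : ∃ P, Edge r P ∧ E P ∧ P ∉ S ∧ Pᶜ ∉ S ∧
      f v = P.card ∧ ∀ u, compat u v ↔ compat u P := by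
    rcases hv.2 with h | h
    · exact ⟨v, hv.1, h, hvS, hvc, hf1 v h, fun _ => Iff.rfl⟩
    · exact ⟨vᶜ, hv.1.compl hr, h, hvc, by rwa [compl_compl], hf2 v h,
        fun _ => compat_compl_right.symm⟩
  obtain ⟨s, t, hst, h1, h2⟩ := hlink P hP hEP
  have e2 : {u | u ∈ ZZ r p0 ∪ S ∧ compat u v} =
      {u | u ∈ ZZ r (fun R => p0 R ∨ R ∈ S) ∧ compat u P} := by
    ext u
    simp only [ZZ, Set.mem_union, Set.mem_ofPred_eq, hcP]
    have := fun hu : u ∈ S => (hS hu).1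
    exact ⟨fun ⟨a, b⟩ => ⟨a.elim (fun a => ⟨a.1, Or.inl a.2⟩) (fun a => ⟨this a, Or.inr a⟩), b⟩,
      fun ⟨⟨a, b⟩, c⟩ => ⟨b.imp_left (fun b => ⟨a, b⟩), c⟩⟩
  have hP0 := (hEa P hEP).2.2
  rw [e2]
  refine (link_join hr hP (a := s) (b := t) ?_ ?_ ?_ ?_).mono _ hst
  · rintro (h | h)
    exacts [hP0 h, hPS h]
  · rintro (h | h)
    exacts [hP0 ((hp0 P).1 h), hPS' h]
  · have e3 : ZZ (col r P) (fun R => p0 R ∨ R ∈ S) = ZZ (col r P) g := by
      ext R
      refine and_congr_right (fun hR => ?_)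
      obtain ⟨hR1, hR2⟩ := (edge_col hr hP).1 hR
      constructor
      · rintro (h | h)
        · exact hpg R h
        · rcases (hS h).2 with h | h
          exacts [hEg R h, (hg R).1 (hEg _ h)]
      · intro hgR
        rcases hR2 with h | h
        · refine (hin P R hEP h.1 hgR).imp_right (fun hE => hlt R ⟨hR1, Or.inl hE⟩ ?_)
          rw [hf1 R hE, hfP]; exact card_lt_card h
        · refine (hin P Rᶜ hEP h.1 ((hg R).2 hgR)).imp (hp0 R).1
            (fun hE => hlt R ⟨hR1, Or.inr hE⟩ ?_)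
          rw [hf2 R hE, hfP]; exact card_lt_card h
    rw [e3]; exact h1
  · have e3 : ZZ (col r Pᶜ) (fun R => p0 R ∨ R ∈ S) = ZZ (col r Pᶜ) p0 := by
      ext R
      refine and_congr_right (fun hR => ⟨?_, Or.inl⟩)
      obtain ⟨hR1, hR2⟩ := (edge_col hr (hP.compl hr)).1 hR
      rintro (h | h)
      · exact h
      · exfalso
        have haP := (hEa P hEP).1
        have hle' := hle R h
        rw [hfP] at hle'
        rcases (hS h).2 with hE | hE <;> rcases hR2 with h' | h'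
        · exact mem_compl.1 (h'.1 (hEa _ hE).1) haP
        · rw [hf1 R hE] at hle'
          exact absurd (card_lt_card (compl_ssubset_compl.1 h')) (not_lt.2 hle')
        · rw [hf2 R hE] at hle'
          have : P ⊂ Rᶜ := compl_ssubset_compl.1 (by rwa [compl_compl])
          exact absurd (card_lt_card this) (not_lt.2 hle')
        · exact mem_compl.1 (h'.1 (hEa _ hE).1) haP
    rw [e3]; exact h2

lemma base_IC (hc : Cut c) (hr : Fr r) {a b : H} {h0 : Λ} (hab : b ∉ r a) (ha : h0 ≤ c (r a))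
    (hb : h0 ≤ c (r b)) :
    IC compat ((nb r univ : ℤ) - 5) (ZZ r (fun P => Sep P a b ∧ h0 ≤ c P)) := by
  have hsa := sat_block hr a
  have hsb := sat_block hr b
  have hdis : ∀ z ∈ r a, z ∉ r b := fun z h1 h2 =>
    hab (by rw [← hr.eq a z h1, hr.eq b z h2]; exact hr.self b)
  have hsub : r a ⊆ (r b)ᶜ := fun z hz => mem_compl.2 (hdis z hz)
  have h1 := (good_IC hc hr hsa (hsb.compl hr) hsub (hr.self a) (yy := b) (by simp [hr.self b])
    ha (by rwa [hc.sym])).twin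
  have hn : nb r univ = nb r ((r b)ᶜ \ r a) + 2 := by
    rw [← nb_add hr hsb, nb_block hr]
    have e : (r b)ᶜ = r a ∪ ((r b)ᶜ \ r a) := (union_sdiff_of_subset hsub).symm
    conv_lhs => rw [e]
    rw [nb_union hr hsa (fun z hz => (mem_sdiff.1 hz).2), nb_block hr]
    omega
  have key : ∀ P, (P ∈ Ival r (r a) (r b)ᶜ) ↔ Edge r P ∧ a ∈ P ∧ b ∉ P := by
    intro P
    constructor
    · rintro ⟨j1, j2, j3⟩
      have k1 : a ∈ P := j2.1 (hr.self a)
      have k2 : b ∉ P := fun hh => mem_compl.1 (j3.1 hh) (hr.self b)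
      refine ⟨⟨j1, ⟨a, k1⟩, ⟨b, k2⟩, fun z => ⟨fun he => ?_, fun he => ?_⟩⟩, k1, k2⟩
      · exact j2.ne (by rw [hr.eq z a (he ▸ k1), he])
      · exact j3.ne (by rw [hr.eq z b (he ▸ mem_compl.2 k2), he, compl_compl])
    · rintro ⟨⟨j1, _, _, j4⟩, k1, k2⟩
      refine ⟨j1, Finset.ssubset_iff_subset_ne.2 ⟨j1 a k1, (j4 a).1⟩,
        Finset.ssubset_iff_subset_ne.2 ⟨fun z hz => mem_compl.2 (fun hh => k2 ?_), fun he => ?_⟩⟩
      · exact j1 z hz b (by rw [hr.eq b z hh]; exact hr.self b)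
      · exact (j4 b).2 (by rw [he, compl_compl])
  have e : ZZ r (fun P => Sep P a b ∧ h0 ≤ c P) = {J | J ∈ Ival r (r a) (r b)ᶜ ∧ h0 ≤ c J} ∪
      {P | Pᶜ ∈ {J | J ∈ Ival r (r a) (r b)ᶜ ∧ h0 ≤ c J}} := by
    ext P
    simp only [ZZ, Set.mem_union, Set.mem_ofPred_eq, key, hc.sym, mem_compl, Sep]
    have k1 : Edge r P → Edge r Pᶜ := fun h => h.compl hr
    have k2 : Edge r Pᶜ → Edge r P := fun h => by simpa using h.compl hr
    grind
  rw [e, hn]
  exact h1.mono _ (by push_cast; omega)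

section main

variable [DecidableEq ι]

omit [AddCommGroup Λ] [IsOrderedAddMonoid Λ] [Fintype H] [DecidableEq H] in
lemma good_insert {T : Finset ι} {m : ι} {P : Finset H} :
    good c x y h (insert m T) P ↔ (Sep P (x m) (y m) ∧ h m ≤ c P) ∨ good c x y h T P := by
  simp [good]

/-- The statement for frames with `n` blocks. -/
def AscAt (c : Finset H → Λ) (x y : ι → H) (h : ι → Λ) (n : ℕ) : Prop :=
  ∀ r, Fr r → nb r univ = n → ∀ T, Hyp c x y h r T → (∃ i ∈ T, y i ∉ r (x i)) →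
    IC compat ((n : ℤ) - 5) (ZZ r (good c x y h T))

lemma sub_facts (hc : Cut c) (hr : Fr r) {T : Finset ι} {m o : ι} (hmax : ∀ i ∈ T, h i ≤ h m)
    (hT : Hyp c x y h r (insert m T)) (ho : o ∈ T) (hlo : y o ∉ r (x o)) {P : Finset H}
    (hP : Edge r P) {a a' : H} (haa : ∀ Q : Finset H, Sep Q a a' ↔ Sep Q (x m) (y m))
    (hE : EX c x y h T (h m) (x o) a a' P) :
    Hyp c x y h (col r P) (insert m T) ∧ Hyp c x y h (col r Pᶜ) (insert m T) ∧
      y m ∉ col r P (x m) ∧ y o ∉ col r Pᶜ (x o) ∧ nb (col r P) univ < nb r univ ∧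
      nb (col r Pᶜ) univ < nb r univ ∧
      nb (col r P) univ + nb (col r Pᶜ) univ = nb r univ + 2 := by
  obtain ⟨e1, e2, e3, e4, e5⟩ := hE
  have hP' := hP.compl hr
  have hs : ∀ i ∈ insert m T, Sep P (x i) (y i) → h i ≤ c P := by
    intro i hi _
    rcases mem_insert.1 hi with rfl | hi
    exacts [e4, (hmax i hi).trans e4]
  have n1 := nb_col hr hP
  have n2 := nb_col hr hP'
  have n3 := nb_add hr hP.1
  have n4 := hP.two_le hr
  have n5 := hP'.two_le hr
  refine ⟨hyp_col hc hr hT hP.1 hs, hyp_col hc hr hT hP'.1 (by simpa [sep_compl, hc.sym] using hs),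
    live_col hP.1 ((haa P).1 (by simp [Sep, e1, e2])), ?_, by omega, by omega, by omega⟩
  simpa [col, e3] using hlo

omit [AddCommGroup Λ] [IsOrderedAddMonoid Λ] [Fintype H] [DecidableEq H] in
lemma ex_in {T : Finset ι} {m : ι} {o a a' : H}
    (haa : ∀ Q : Finset H, Sep Q a a' ↔ Sep Q (x m) (y m)) {P R : Finset H}
    (hE : EX c x y h T (h m) o a a' P) (hRP : R ⊆ P) (hg : good c x y h (insert m T) R) :
    good c x y h T R ∨ EX c x y h T (h m) o a a' R := by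
  by_cases h1 : good c x y h T R
  · exact Or.inl h1
  · obtain ⟨g1, g2⟩ := (good_insert.1 hg).resolve_right h1
    have g3 : a' ∉ R := fun hh => hE.2.1 (hRP hh)
    refine Or.inr ⟨?_, g3, fun hh => hE.2.2.1 (hRP hh), g2, h1⟩
    by_contra g4
    exact (haa R).2 g1 ⟨fun hh => absurd hh g4, fun hh => absurd hh g3⟩

omit [AddCommGroup Λ] [IsOrderedAddMonoid Λ] [Fintype H] [DecidableEq H] in
lemma ex_good {T : Finset ι} {m : ι} {o a a' : H}
    (haa : ∀ Q : Finset H, Sep Q a a' ↔ Sep Q (x m) (y m)) {R : Finset H}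
    (hE : EX c x y h T (h m) o a a' R) : good c x y h (insert m T) R :=
  good_insert.2 (Or.inl ⟨(haa R).1 (by simp [Sep, hE.1, hE.2.1]), hE.2.2.2.1⟩)

omit [AddCommGroup Λ] [IsOrderedAddMonoid Λ] [Fintype H] [DecidableEq H] in
lemma Hyp.of_insert {T : Finset ι} {m : ι} (hT : Hyp c x y h r (insert m T)) :
    Hyp c x y h r T := fun i hi => hT i (mem_insert_of_mem hi)

lemma half_IC (hc : Cut c) (hr : Fr r) {T : Finset ι} {m o : ι} (hmax : ∀ i ∈ T, h i ≤ h m)
    (hT : Hyp c x y h r (insert m T)) (ho : o ∈ T) (hlo : y o ∉ r (x o))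
    (ih : ∀ n < nb r univ, AscAt c x y h n)
    (h0 : IC compat ((nb r univ : ℤ) - 5) (ZZ r (good c x y h T))) :
    IC compat ((nb r univ : ℤ) - 5)
      (ZZ r (fun R => good c x y h T R ∨ tw (EX c x y h T (h m) (x o) (x m) (y m)) R)) := by
  refine step_IC hr (g := good c x y h (insert m T)) (a := x m) (o := x o)
    (fun _ => good_compl' hc.sym) (fun _ => good_compl' hc.sym)
    (fun R hR => good_insert.2 (Or.inr hR)) (fun R hR => ex_good (fun _ => Iff.rfl) hR)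
    (fun R hR => ⟨hR.1, hR.2.2.1, hR.2.2.2.2⟩)
    (fun P R hP hRP hg => ex_in (fun _ => Iff.rfl) hP hRP hg) h0 ?_
  intro P hP hE
  obtain ⟨f1, f2, f3, f4, f5, f6, f7⟩ := sub_facts hc hr hmax hT ho hlo hP (fun _ => Iff.rfl) hE
  exact ⟨_, _, by omega, ih _ f5 _ (fr_col hr hP.1) rfl _ f1 ⟨m, mem_insert_self _ _, f3⟩,
    ih _ f6 _ (fr_col hr (hP.compl hr).1) rfl _ f2.of_insert ⟨o, ho, f4⟩⟩

theorem ascAt (hc : Cut c) (n : ℕ) : AscAt c x y h n := by
  induction n using Nat.strong_induction_on with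
  | _ n ih =>
  intro r hr hn T
  subst hn
  induction T using Finset.induction_on_max_value h with
  | empty => intro _ hl; simp at hl
  | insert m T hm hmax ihT =>
    intro hT hl
    by_cases hlive : ∃ i ∈ T, y i ∉ r (x i)
    · have h0 := ihT hT.of_insert hlive
      obtain ⟨o, ho, hlo⟩ := hlive
      have hsw : ∀ Q : Finset H, Sep Q (y m) (x m) ↔ Sep Q (x m) (y m) := fun Q => by
        unfold Sep; tauto
      have h1 := half_IC hc hr hmax hT ho hlo ih h0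
      have h2 := step_IC hr (g := good c x y h (insert m T))
        (E := EX c x y h T (h m) (x o) (y m) (x m)) (a := y m) (o := x o)
        (fun R => by simp only [good_compl' hc.sym, tw, compl_compl]; rw [or_comm (b := EX c x y h T (h m) (x o) (x m) (y m) R)])
        (fun _ => good_compl' hc.sym) ?_ (fun R hR => ex_good hsw hR) ?_
        (fun P R hP hRP hg => (ex_in hsw hP hRP hg).imp_left Or.inl) h1 ?_
      · convert h2 using 2
        ext R
        constructor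
        · intro hg
          by_cases g0 : good c x y h T R
          · exact Or.inl (Or.inl g0)
          obtain ⟨g1, g2⟩ := (good_insert.1 hg).resolve_right g0
          simp only [tw, EX, good_compl' hc.sym, hc.sym, mem_compl]
          unfold Sep at g1
          clear h2 h1 h0 ih ihT hT hl hsw hg
          grind
        · rintro ((hR | hR | hR) | hR | hR)
          · exact good_insert.2 (Or.inr hR)
          · exact ex_good (fun _ => Iff.rfl) hR
          · exact (good_compl' hc.sym).1 (ex_good (fun _ => Iff.rfl) hR)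
          · exact ex_good hsw hR
          · exact (good_compl' hc.sym).1 (ex_good hsw hR)
      · rintro R (hR | hR | hR)
        · exact good_insert.2 (Or.inr hR)
        · exact ex_good (fun _ => Iff.rfl) hR
        · exact (good_compl' hc.sym).1 (ex_good (fun _ => Iff.rfl) hR)
      · intro R hR
        refine ⟨hR.1, hR.2.2.1, ?_⟩
        rintro (g | g | g)
        exacts [hR.2.2.2.2 g, hR.2.1 g.1, g.2.2.1 (mem_compl.2 hR.2.2.1)]
      · intro P hP hE
        obtain ⟨f1, f2, f3, f4, f5, f6, f7⟩ := sub_facts hc hr hmax hT ho hlo hP hsw hE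
        have hr' := fr_col hr (hP.compl hr).1
        exact ⟨_, _, by omega, ih _ f5 _ (fr_col hr hP.1) rfl _ f1 ⟨m, mem_insert_self _ _, f3⟩,
          half_IC hc hr' hmax f2 ho f4 (fun n hn => ih n (hn.trans f6))
            (ih _ f6 _ hr' rfl _ f2.of_insert ⟨o, ho, f4⟩)⟩
    · have hlm : y m ∉ r (x m) := by
        obtain ⟨i, hi, hi'⟩ := hl
        rcases mem_insert.1 hi with rfl | hi
        exacts [hi', absurd ⟨i, hi, hi'⟩ hlive]
      have h1 := hT m (mem_insert_self _ _) hlm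
      convert base_IC hc hr hlm h1.1 h1.2 using 1
      ext R
      refine and_congr_right (fun hR => ?_)
      rw [good_insert, or_iff_left]
      rintro ⟨i, hi, hs, _⟩
      refine hlive ⟨i, hi, fun hh => hs ⟨fun g => hR.1 _ g _ hh, fun g => hR.1 _ g _ ?_⟩⟩
      rw [hr.eq _ _ hh]; exact hr.self _

/-- The ascending link theorem. -/
theorem asc_IC [Fintype ι] [Nonempty ι] (hc : Cut c) (hxy : ∀ i, y i ≠ x i)
    (hx : ∀ i, c {x i} = h i) (hy : ∀ i, c {y i} = h i) :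
    IC compat ((Fintype.card H : ℤ) - 5)
      {P | Edge (fun z => {z}) P ∧ ∃ i, Sep P (x i) (y i) ∧ h i ≤ c P} := by
  have hr : Fr (fun z : H => ({z} : Finset H)) :=
    ⟨fun z => mem_singleton_self z, fun z w hw => by rw [mem_singleton.1 hw]⟩
  have := ascAt (x := x) (y := y) (h := h) hc (Fintype.card H) _ hr ?_ univ
    (fun i _ _ => ⟨(hx i).ge, (hy i).ge⟩)
    ⟨Classical.arbitrary ι, mem_univ _, by simpa using hxy _⟩
  · simpa [ZZ, good] using this
  · unfold nb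
    rw [card_image_of_injective _ singleton_injective, card_univ]

end main

end OutFn
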