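import Mathlib

/-! Ordered chains of a relation, as formal integer combinations of lists. -/

noncomputable section

namespace OutFn

open Finsupp

variable {α β : Type*}

/-- Formal integer combinations of lists. -/
abbrev LL (α : Type*) := List α →₀ ℤ

/-- Put `x` in front of every list. -/
def cns (x : α) : LL α →ₗ[ℤ] LL α := lmapDomain ℤ ℤ (List.cons x)

@[simp] lemma cns_single (x : α) (l : List α) (a : ℤ) :
    cns x (single l a) = single (x :: l) a := by
  simp [cns]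

/-- Boundary of a list. -/
def bdL : List α → LL α
  | [] => 0
  | x :: l => single l 1 - cns x (bdL l)

/-- The boundary operator. -/
def bd : LL α →ₗ[ℤ] LL α := linearCombination ℤ bdL

@[simp] lemma bd_single (l : List α) (a : ℤ) : bd (single l a) = a • bdL l := by
  simp [bd]

lemma bd_cns (x : α) (c : LL α) : bd (cns x c) = c - cns x (bd c) := by
  induction c using Finsupp.induction_linear with
  | zero => simp
  | add f g hf hg => simp only [map_add, hf, hg]; abel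
  | single l a => simp [bdL, smul_sub]

lemma bd_bdL (l : List α) : bd (bdL l) = 0 := by
  induction l with
  | nil => simp [bdL]
  | cons x l ih => simp [bdL, bd_cns, ih]

lemma bd_bd (c : LL α) : bd (bd c) = 0 := by
  induction c using Finsupp.induction_linear with
  | zero => simp
  | add f g hf hg => simp [hf, hg]
  | single l a => simp [bd_bdL]

/-- Image of chains under a map of vertices. -/
def mp (f : α → β) : LL α →ₗ[ℤ] LL β := lmapDomain ℤ ℤ (List.map f)

@[simp] lemma mp_single (f : α → β) (l : List α) (a : ℤ) :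
    mp f (single l a) = single (l.map f) a := by
  simp [mp]

lemma mp_cns (f : α → β) (x : α) (c : LL α) : mp f (cns x c) = cns (f x) (mp f c) := by
  induction c using Finsupp.induction_linear with
  | zero => simp
  | add f g hf hg => simp [hf, hg]
  | single l a => simp

lemma mp_bdL (f : α → β) (l : List α) : mp f (bdL l) = bdL (l.map f) := by
  induction l with
  | nil => simp [bdL]
  | cons x l ih => simp [bdL, mp_cns, ih]

lemma mp_bd (f : α → β) (c : LL α) : mp f (bd c) = bd (mp f c) := by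
  induction c using Finsupp.induction_linear with
  | zero => simp
  | add f g hf hg => simp [hf, hg]
  | single l a => simp [mp_bdL]

lemma mp_mp {γ : Type*} (f : α → β) (g : β → γ) (c : LL α) : mp g (mp f c) = mp (g ∘ f) c := by
  induction c using Finsupp.induction_linear with
  | zero => simp
  | add f g hf hg => simp [hf, hg]
  | single l a => simp

lemma mp_id (c : LL α) : mp id c = c := by
  induction c using Finsupp.induction_linear with
  | zero => simp
  | add f g hf hg => simp [hf, hg]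
  | single l a => simp

/-- Prism on a list. -/
def prL (f g : α → β) : List α → LL β
  | [] => 0
  | x :: l => single (f x :: g x :: l.map g) 1 - cns (f x) (prL f g l)

/-- The prism operator. -/
def pr (f g : α → β) : LL α →ₗ[ℤ] LL β := linearCombination ℤ (prL f g)

@[simp] lemma pr_single (f g : α → β) (l : List α) (a : ℤ) :
    pr f g (single l a) = a • prL f g l := by
  simp [pr]

lemma pr_cns (f g : α → β) (x : α) (c : LL α) :
    pr f g (cns x c) = cns (f x) (cns (g x) (mp g c)) - cns (f x) (pr f g c) := by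
  induction c using Finsupp.induction_linear with
  | zero => simp
  | add f g hf hg => simp only [map_add, hf, hg]; abel
  | single l a => simp [prL, smul_sub]

lemma pr_homotopy (f g : α → β) (c : LL α) :
    bd (pr f g c) + pr f g (bd c) = mp g c - mp f c := by
  have key : ∀ l : List α, bd (prL f g l) + pr f g (bdL l)
      = single (l.map g) 1 - single (l.map f) 1 := by
    intro l
    induction l with
    | nil => simp [prL, bdL]
    | cons x l ih =>
      have h1 : bd (prL f g l) = single (l.map g) 1 - single (l.map f) 1 - pr f g (bdL l) := by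
        rw [← ih]; abel
      simp only [prL, bdL, map_sub, bd_cns, pr_cns, bd_single, pr_single, one_smul, h1, mp_bdL,
        cns_single, List.map_cons]
      abel
  induction c using Finsupp.induction_linear with
  | zero => simp
  | add f g hf hg => simp only [map_add]; rw [add_add_add_comm, hf, hg]; abel
  | single l a =>
    simp only [pr_single, bd_single, map_smul, ← smul_add, key, smul_sub, mp_single, smul_single]
    simp

section Ch

/-- Lists of length `n` with entries in `W`, pairwise related. -/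
def Sx (r : α → α → Prop) (W : Set α) (n : ℕ) : Set (List α) :=
  {l | l.length = n ∧ (∀ x ∈ l, x ∈ W) ∧ l.Pairwise r}

/-- Chains. -/
def Ch (r : α → α → Prop) (W : Set α) (n : ℕ) : Submodule ℤ (LL α) :=
  Finsupp.supported ℤ ℤ (Sx r W n)

variable {r : α → α → Prop} {s : β → β → Prop}

lemma single_mem_Ch {W : Set α} {n : ℕ} {l : List α} (h : l ∈ Sx r W n) (a : ℤ) :
    single l a ∈ Ch r W n := Finsupp.single_mem_supported ℤ a h

lemma map_mem_of_Ch {M : Type*} [AddCommGroup M] [Module ℤ M] (T : LL α →ₗ[ℤ] M)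
    (K : Submodule ℤ M) {W : Set α} {n : ℕ} (h : ∀ l ∈ Sx r W n, T (single l 1) ∈ K)
    {c : LL α} (hc : c ∈ Ch r W n) : T c ∈ K := by
  have : Ch r W n ≤ K.comap T := by
    rw [Ch, Finsupp.supported_eq_span_single, Submodule.span_le]
    rintro _ ⟨l, hl, rfl⟩
    exact h l hl
  exact this hc

lemma Sx_mono {W W' : Set α} (h : W ⊆ W') (n : ℕ) : Sx r W n ⊆ Sx r W' n :=
  fun _ hl => ⟨hl.1, fun x hx => h (hl.2.1 x hx), hl.2.2⟩

lemma Ch_mono {W W' : Set α} (h : W ⊆ W') (n : ℕ) : Ch r W n ≤ Ch r W' n :=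
  Finsupp.supported_mono (Sx_mono h n)

lemma cons_mem_Sx {W : Set α} {n : ℕ} {x : α} {l : List α} :
    x :: l ∈ Sx r W (n + 1) ↔ x ∈ W ∧ l ∈ Sx r {y | y ∈ W ∧ r x y} n := by
  simp only [Sx, Set.mem_ofPred_eq, List.length_cons, List.mem_cons, List.pairwise_cons]
  constructor
  · rintro ⟨h1, h2, h3, h4⟩
    exact ⟨h2 x (Or.inl rfl), by omega, fun y hy => ⟨h2 y (Or.inr hy), h3 y hy⟩, h4⟩
  · rintro ⟨h1, h2, h3, h4⟩
    refine ⟨by omega, ?_, fun y hy => (h3 y hy).2, h4⟩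
    rintro y (rfl | hy)
    exacts [h1, (h3 y hy).1]

lemma cns_mem_Ch {W : Set α} {n : ℕ} {x : α} (hx : x ∈ W) {c : LL α}
    (hc : c ∈ Ch r {y | y ∈ W ∧ r x y} n) : cns x c ∈ Ch r W (n + 1) := by
  refine map_mem_of_Ch (cns x) _ (fun l hl => ?_) hc
  rw [cns_single]
  exact single_mem_Ch (cons_mem_Sx.2 ⟨hx, hl⟩) 1

lemma Sx_zero {W : Set α} {l : List α} : l ∈ Sx r W 0 ↔ l = [] := by
  constructor
  · exact fun h => List.length_eq_zero_iff.1 h.1
  · rintro rfl; simp [Sx]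

lemma Sx_succ {W : Set α} {n : ℕ} {l : List α} (h : l ∈ Sx r W (n + 1)) :
    ∃ x t, l = x :: t := by
  cases l with
  | nil => exact absurd h.1 (by simp)
  | cons x t => exact ⟨x, t, rfl⟩

lemma bd_eq_zero_of_Ch_zero {W : Set α} {c : LL α} (hc : c ∈ Ch r W 0) : bd c = 0 := by
  have := map_mem_of_Ch (r := r) bd ⊥ (W := W) (n := 0) (fun l hl => by
    rw [Sx_zero.1 hl]; simp [bdL]) hc
  simpa using this

lemma bdL_mem_Ch : ∀ {n : ℕ} {W : Set α} {l : List α}, l ∈ Sx r W (n + 1) → bdL l ∈ Ch r W n := by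
  intro n
  induction n with
  | zero =>
    intro W l hl
    obtain ⟨x, t, rfl⟩ := Sx_succ hl
    obtain rfl := Sx_zero.1 (cons_mem_Sx.1 hl).2
    simpa [bdL] using single_mem_Ch (Sx_zero.2 rfl) 1
  | succ n ih =>
    intro W l hl
    obtain ⟨x, t, rfl⟩ := Sx_succ hl
    obtain ⟨hx, ht⟩ := cons_mem_Sx.1 hl
    exact sub_mem (single_mem_Ch (Sx_mono (fun y hy => hy.1) _ ht) 1) (cns_mem_Ch hx (ih ht))

lemma bd_mem_Ch {n : ℕ} {W : Set α} {c : LL α} (hc : c ∈ Ch r W (n + 1)) : bd c ∈ Ch r W n :=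
  map_mem_of_Ch bd _ (fun l hl => by simpa using bdL_mem_Ch hl) hc

lemma map_mem_Sx {f : α → β} {W : Set α} {W' : Set β} (hW : ∀ x ∈ W, f x ∈ W')
    (hm : ∀ x ∈ W, ∀ y ∈ W, r x y → s (f x) (f y)) {n : ℕ} {l : List α} (hl : l ∈ Sx r W n) :
    l.map f ∈ Sx s W' n := by
  refine ⟨by simpa using hl.1, ?_, ?_⟩
  · intro y hy
    obtain ⟨x, hx, rfl⟩ := List.mem_map.1 hy
    exact hW x (hl.2.1 x hx)
  · rw [List.pairwise_map]
    exact hl.2.2.imp_of_mem (fun ha hb h => hm _ (hl.2.1 _ ha) _ (hl.2.1 _ hb) h)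

lemma mp_mem_Ch {f : α → β} {W : Set α} {W' : Set β} (hW : ∀ x ∈ W, f x ∈ W')
    (hm : ∀ x ∈ W, ∀ y ∈ W, r x y → s (f x) (f y)) {n : ℕ} {c : LL α} (hc : c ∈ Ch r W n) :
    mp f c ∈ Ch s W' n :=
  map_mem_of_Ch (mp f) _ (fun l hl => by simpa using single_mem_Ch (map_mem_Sx hW hm hl) 1) hc

lemma prL_mem_Ch (hs : ∀ a b c, s a b → s b c → s a c) {f g : α → β} :
    ∀ {n : ℕ} {W : Set α} {W' : Set β}, (∀ x ∈ W, f x ∈ W') → (∀ x ∈ W, g x ∈ W') →
    (∀ x ∈ W, ∀ y ∈ W, r x y → s (f x) (f y)) → (∀ x ∈ W, ∀ y ∈ W, r x y → s (g x) (g y)) →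
    (∀ x ∈ W, s (f x) (g x)) → ∀ {l : List α}, l ∈ Sx r W n → prL f g l ∈ Ch s W' (n + 1) := by
  intro n
  induction n with
  | zero =>
    intro W W' _ _ _ _ _ l hl
    rw [Sx_zero.1 hl]; exact zero_mem _
  | succ n ih =>
    intro W W' hf hg mf mg hfg l hl
    obtain ⟨x, t, rfl⟩ := Sx_succ hl
    obtain ⟨hx, ht⟩ := cons_mem_Sx.1 hl
    refine sub_mem (single_mem_Ch ?_ 1) (cns_mem_Ch (hf x hx) ?_)
    · refine cons_mem_Sx.2 ⟨hf x hx, ?_⟩
      have := map_mem_Sx (r := r) (s := s) (f := g) (W := {y | y ∈ W ∧ s (f x) (g y)})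
        (W' := {y | y ∈ W' ∧ s (f x) y}) (fun y hy => ⟨hg y hy.1, hy.2⟩)
        (fun a ha b hb => mg a ha.1 b hb.1) (n := n + 1) (l := x :: t) ?_
      · simpa using this
      · refine ⟨hl.1, ?_, hl.2.2⟩
        intro y hy
        rcases List.mem_cons.1 hy with rfl | hy
        · exact ⟨hx, hfg _ hx⟩
        · have := ht.2.1 y hy
          exact ⟨this.1, hs _ _ _ (hfg x hx) (mg _ hx _ this.1 this.2)⟩
    · refine ih (W := {y | y ∈ W ∧ r x y}) (W' := {y | y ∈ W' ∧ s (f x) y}) (fun y hy => ⟨hf y hy.1, mf _ hx _ hy.1 hy.2⟩)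
        (fun y hy => ⟨hg y hy.1, hs _ _ _ (hfg x hx) (mg _ hx _ hy.1 hy.2)⟩)
        (fun a ha b hb => mf a ha.1 b hb.1) (fun a ha b hb => mg a ha.1 b hb.1)
        (fun a ha => hfg a ha.1) ht

/-- Cycles of length `n` in `W` bound. -/
def Acyc (r : α → α → Prop) (W : Set α) (n : ℕ) : Prop :=
  ∀ z ∈ Ch r W n, bd z = 0 → ∃ y ∈ Ch r W (n + 1), bd y = z

lemma acyc_cone {W : Set α} {v : α} (hv : v ∈ W) (h : ∀ x ∈ W, r v x) (n : ℕ) : Acyc r W n := by
  intro z hz h0
  have hs : W ⊆ {y | y ∈ W ∧ r v y} := fun x hx => ⟨hx, h x hx⟩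
  refine ⟨cns v z, cns_mem_Ch hv (Ch_mono hs n hz), ?_⟩
  rw [bd_cns, h0]; simp

lemma acyc_zero {W : Set α} (h : W.Nonempty) : Acyc r W 0 := by
  obtain ⟨v, hv⟩ := h
  intro z hz h0
  refine ⟨cns v z, cns_mem_Ch hv ?_, ?_⟩
  · have hs : Sx r W 0 ⊆ Sx r {y | y ∈ W ∧ r v y} 0 := fun l hl => Sx_zero.2 (Sx_zero.1 hl)
    exact Finsupp.supported_mono hs hz
  · rw [bd_cns, h0]; simp

lemma acyc_empty (n : ℕ) : Acyc r (∅ : Set α) (n + 1) := by
  intro z hz _
  have : z = 0 := by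
    have h := map_mem_of_Ch (r := r) LinearMap.id ⊥ (W := (∅ : Set α)) (n := n + 1)
      (fun l hl => by
        obtain ⟨x, t, rfl⟩ := Sx_succ hl
        exact absurd (cons_mem_Sx.1 hl).1 (by simp)) hz
    simpa using h
  exact ⟨0, zero_mem _, by simp [this]⟩

/-- Transfer of acyclicity along a pair of monotone maps. -/
lemma acyc_transfer (hr : ∀ a b c, r a b → r b c → r a c) {W : Set α} {W' : Set β}
    (a : α → β) (b : β → α) (ha : ∀ x ∈ W, a x ∈ W') (hb : ∀ y ∈ W', b y ∈ W)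
    (ma : ∀ x ∈ W, ∀ y ∈ W, r x y → s (a x) (a y))
    (mb : ∀ x ∈ W', ∀ y ∈ W', s x y → r (b x) (b y))
    (hab : (∀ x ∈ W, r (b (a x)) x) ∨ (∀ x ∈ W, r x (b (a x)))) {n : ℕ} (h : Acyc s W' n) :
    Acyc r W n := by
  intro z hz h0
  obtain ⟨y, hy, hy0⟩ := h (mp a z) (mp_mem_Ch ha ma hz) (by rw [← mp_bd, h0, map_zero])
  have hby : mp b y ∈ Ch r W (n + 1) := mp_mem_Ch hb mb hy
  have e1 : bd (mp b y) = mp (b ∘ a) z := by rw [← mp_bd, hy0, mp_mp]
  have hba : ∀ x ∈ W, (b ∘ a) x ∈ W := fun x hx => hb _ (ha x hx)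
  have mba : ∀ x ∈ W, ∀ y ∈ W, r x y → r ((b ∘ a) x) ((b ∘ a) y) :=
    fun x hx y hy h => mb _ (ha x hx) _ (ha y hy) (ma x hx y hy h)
  rcases hab with hab | hab
  · have hp : pr (b ∘ a) id z ∈ Ch r W (n + 1) :=
      map_mem_of_Ch (pr (b ∘ a) id) _ (fun l hl => by
        simpa using prL_mem_Ch (g := id) hr hba (fun x hx => hx) mba (fun x _ y _ h => h) hab hl) hz
    refine ⟨mp b y + pr (b ∘ a) id z, add_mem hby hp, ?_⟩
    have := pr_homotopy (b ∘ a) id z
    rw [h0, map_zero, add_zero, mp_id] at this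
    rw [map_add, e1, this]; abel
  · have hp : pr id (b ∘ a) z ∈ Ch r W (n + 1) :=
      map_mem_of_Ch (pr id (b ∘ a)) _ (fun l hl => by
        simpa using prL_mem_Ch (f := id) hr (fun x hx => hx) hba (fun x _ y _ h => h) mba hab hl) hz
    refine ⟨mp b y - pr id (b ∘ a) z, sub_mem hby hp, ?_⟩
    have := pr_homotopy id (b ∘ a) z
    rw [h0, map_zero, add_zero, mp_id] at this
    rw [map_sub, e1, this]; abel

/-- Relative cycles of length `n + 1` of the pair are relative boundaries. -/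
def RelA (r : α → α → Prop) (X' X : Set α) (n : ℕ) : Prop :=
  ∀ c ∈ Ch r X' (n + 1), bd c ∈ Ch r X n → ∃ b ∈ Ch r X' (n + 2), c - bd b ∈ Ch r X (n + 1)

lemma relA_refl (X : Set α) (n : ℕ) : RelA r X X n :=
  fun c hc _ => ⟨0, zero_mem _, by simpa using hc⟩

lemma RelA.trans {X'' X' X : Set α} {n : ℕ} (h1 : RelA r X'' X' n) (h2 : RelA r X' X n)
    (s1 : X' ⊆ X'') (s2 : X ⊆ X') : RelA r X'' X n := by
  intro c hc hb
  obtain ⟨b, hb1, hb2⟩ := h1 c hc (Ch_mono s2 n hb)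
  obtain ⟨b', hb3, hb4⟩ := h2 _ hb2 (by rw [map_sub, bd_bd, sub_zero]; exact hb)
  refine ⟨b + b', add_mem hb1 (Ch_mono s1 _ hb3), ?_⟩
  rw [map_add, ← sub_sub]; exact hb4

lemma RelA.acyc {X' X : Set α} {n : ℕ} (h : RelA r X' X n) (hs : X ⊆ X')
    (hX : Acyc r X (n + 1)) : Acyc r X' (n + 1) := by
  intro z hz h0
  obtain ⟨b, hb1, hb2⟩ := h z hz (by rw [h0]; exact zero_mem _)
  obtain ⟨y, hy1, hy2⟩ := hX _ hb2 (by rw [map_sub, bd_bd, h0, sub_zero])
  refine ⟨b + y, add_mem hb1 (Ch_mono hs _ hy1), ?_⟩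
  rw [map_add, hy2]; abel

lemma Ch_inter {A B : Set α} {n : ℕ} {c : LL α} (ha : c ∈ Ch r A n) (hb : c ∈ Ch r B n) :
    c ∈ Ch r (A ∩ B) n := by
  intro l hl
  have h1 := ha hl
  have h2 := hb hl
  exact ⟨h1.1, fun x hx => ⟨h1.2.1 x hx, h2.2.1 x hx⟩, h1.2.2⟩

/-- Mayer-Vietoris step. -/
lemma relA_union {W A B : Set α} {n : ℕ} (hB : B ⊆ W)
    (hcov : Sx r W (n + 1) ⊆ Sx r A (n + 1) ∪ Sx r B (n + 1))
    (h1 : Acyc r B (n + 1)) (h2 : Acyc r (A ∩ B) n) : RelA r W A n := by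
  intro c hc hb
  have : c ∈ Ch r A (n + 1) ⊔ Ch r B (n + 1) := by
    rw [Ch, Ch, ← Finsupp.supported_union]
    exact Finsupp.supported_mono hcov hc
  obtain ⟨a, ha, b, hb', rfl⟩ := Submodule.mem_sup.1 this
  have h3 : bd b ∈ Ch r A n := by
    have := sub_mem hb (bd_mem_Ch ha)
    simpa using this
  obtain ⟨u, hu1, hu2⟩ := h2 _ (Ch_inter h3 (bd_mem_Ch hb')) (bd_bd b)
  obtain ⟨t, ht1, ht2⟩ := h1 (b - u) (sub_mem hb' (Ch_mono Set.inter_subset_right _ hu1))
    (by rw [map_sub, hu2, sub_self])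
  refine ⟨t, Ch_mono hB _ ht1, ?_⟩
  rw [ht2]
  have : a + b - (b - u) = a + u := by abel
  rw [this]
  exact add_mem ha (Ch_mono Set.inter_subset_left _ hu1)

/-- Connectedness gives acyclicity for lists of length one. -/
lemma acyc_one {W : Set α} {v : α}
    (h : ∀ x ∈ W, ∃ y ∈ Ch r W 2, bd y = single [x] 1 - single [v] 1) : Acyc r W 1 := by
  intro z hz h0
  let K : Submodule ℤ (LL α) := (Ch r W 2).map bd
  have := map_mem_of_Ch (r := r) (LinearMap.id - (cns v) ∘ₗ bd) K (W := W) (n := 1)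
    (fun l hl => by
      obtain ⟨x, t, rfl⟩ := Sx_succ hl
      obtain ⟨hx, ht⟩ := cons_mem_Sx.1 hl
      obtain rfl := Sx_zero.1 ht
      obtain ⟨y, hy1, hy2⟩ := h x hx
      exact ⟨y, hy1, by simp [hy2, bdL]⟩) hz
  obtain ⟨y, hy1, hy2⟩ := this
  exact ⟨y, hy1, by simpa [h0] using hy2⟩

end Ch

end OutFn
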