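import Pool.Agent.Lib.MP_e47d8d_al.Resol

/-! Freeness of cohomology with group ring coefficients from a filtration at infinity. -/

set_option linter.unusedSectionVars false
set_option linter.unusedVariables false

noncomputable section

namespace OutFn

open CategoryTheory Finsupp

lemma free_of_res {k G : Type} [CommRing k] [Group G] (A : Rep k G)
    (P : ProjectiveResolution (Rep.trivial k G k)) (n : ℕ)
    (h : Module.Free k ((P.complex.linearYonedaObj k A).sc' n (n + 1) (n + 2)).homology) :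
    Module.Free k (groupCohomology A (n + 1)) :=
  Module.Free.of_equiv ((groupCohomologyIso A (n + 1) P) ≪≫
    (P.complex.linearYonedaObj k A).homologyIsoSc' n (n + 1) (n + 2) (by simp)
      (by simp)).toLinearEquiv.symm

variable {G V : Type} [Group G] [MulAction G V] {r : V → V → Prop} (hi : Inv G r)

/-- The finitely supported cochain attached to an equivariant cochain. -/
def ev {n : ℕ} (f : XR hi n ⟶ Rep.leftRegular ℤ G) : LL V →ₗ[ℤ] ℤ :=
  (Finsupp.lapply 1) ∘ₗ (MonoidAlgebra.coeffLinearEquiv ℤ).toLinearMap ∘ₗ f.hom.toLinearMap ∘ₗ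
    rs r (n + 1)

lemma ev_apply {n : ℕ} (f : XR hi n ⟶ Rep.leftRegular ℤ G) (c : LL V) :
    ev hi f c = (f.hom (rs r (n + 1) c)).coeff 1 := rfl

lemma ev_add {n : ℕ} (f g : XR hi n ⟶ Rep.leftRegular ℤ G) (c : LL V) :
    ev hi (f + g) c = ev hi f c + ev hi g c := rfl

lemma ev_sub {n : ℕ} (f g : XR hi n ⟶ Rep.leftRegular ℤ G) (c : LL V) :
    ev hi (f - g) c = ev hi f c - ev hi g c := rfl

lemma ev_d {n : ℕ} (θ : XR hi n ⟶ Rep.leftRegular ℤ G) {c : LL V}
    (h : c ∈ Ch r Set.univ (n + 2)) : ev hi (dR hi n ≫ θ) c = ev hi θ (bd c) := by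
  rw [ev_apply, ev_apply, ← dR_rs hi h]; rfl

variable (hd : V → G) (hhd : ∀ (g : G) v, hd (g • v) = g * hd v)
include hhd

lemma coeff_eq {n : ℕ} (f : XR hi n ⟶ Rep.leftRegular ℤ G) {l : List V}
    (hl : l ∈ Sx r Set.univ (n + 1)) (g : G) :
    (f.hom (rs r (n + 1) (single l 1))).coeff g = ev hi f (single (l.map (g⁻¹ • ·)) 1) := by
  rw [rs_single_eq hi hd hhd hl g, ev_apply]
  refine (congrArg (fun x : MonoidAlgebra ℤ G => x.coeff g) (Rep.hom_comm_apply f g _)).trans ?_
  simp [Representation.coeff_ofMulAction]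

lemma ev_inj {n : ℕ} {f : XR hi n ⟶ Rep.leftRegular ℤ G}
    (h : ∀ l ∈ Sx r Set.univ (n + 1), ev hi f (single l 1) = 0) : f = 0 := by
  refine hom_ext' hi fun l hl => ?_
  ext g
  rw [coeff_eq hi hd hhd f hl, h _ (smul_mem_Sx hi _ hl)]
  rfl

lemma exists_ev {n : ℕ} (θ : LL V →ₗ[ℤ] ℤ)
    (hθ : {l | l ∈ Sx r Set.univ (n + 1) ∧ θ (single l 1) ≠ 0}.Finite) :
    ∃ f : XR hi n ⟶ Rep.leftRegular ℤ G, ∀ c ∈ Ch r Set.univ (n + 1), ev hi f c = θ c := by
  classical
  have fin : ∀ l ∈ Sx r Set.univ (n + 1),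
      (Function.support fun g : G => θ (single (l.map (g⁻¹ • ·)) 1)).Finite := by
    intro l hl
    refine (hθ.preimage (f := fun g : G => l.map (g⁻¹ • ·)) ?_).subset
      fun g hg => ⟨smul_mem_Sx hi _ hl, hg⟩
    intro a _ b _ hab
    have := congrArg (hdL hd) hab
    simpa [hdL_smul hd hhd _ hl] using this
  obtain ⟨f, hf⟩ := exists_hom hi hd hhd n (Rep.leftRegular ℤ G) fun l =>
    if h : l ∈ Sx r Set.univ (n + 1) then .ofCoeff (Finsupp.ofSupportFinite _ (fin l h)) else 0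
  refine ⟨f, fun c hc => ?_⟩
  have := map_mem_of_Ch (ev hi f - θ) ⊥ (fun l hl => by
    rw [Submodule.mem_bot, LinearMap.sub_apply, ev_apply, hf l hl, sub_eq_zero,
      dif_pos (smul_mem_Sx hi _ hl)]
    simp [Representation.coeff_ofMulAction, Finsupp.ofSupportFinite_coe, Function.comp_def]) hc
  simpa [sub_eq_zero] using this

lemma ev_finite (hfa : ∀ v, {w | r v w}.Finite) (hfd : {v | hd v = 1}.Finite) {n : ℕ}
    (f : XR hi n ⟶ Rep.leftRegular ℤ G) :
    {l | l ∈ Sx r Set.univ (n + 1) ∧ ev hi f (single l 1) ≠ 0}.Finite := by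
  refine ((finite_simplices hfa hfd n).biUnion fun l _ =>
    (f.hom (rs r (n + 1) (single l 1))).coeff.support.finite_toSet.image
      fun g => l.map (g⁻¹ • ·)).subset ?_
  rintro l ⟨h1, h2⟩
  have h3 := smul_mem_Sx hi (hdL hd l)⁻¹ h1
  refine Set.mem_biUnion (x := l.map ((hdL hd l)⁻¹ • ·)) ⟨h3, ?_⟩ ⟨(hdL hd l)⁻¹, ?_, ?_⟩
  · obtain ⟨x, t, rfl⟩ := Sx_succ h1
    exact ⟨_, by simp [hhd, hdL], rfl⟩
  · rw [Finset.mem_coe, Finsupp.mem_support_iff, coeff_eq hi hd hhd f h3]
    simpa [Function.comp_def] using h2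
  · simp [Function.comp_def]

theorem free_cohomology (hi : Inv G r) (hac : ∀ n, Acyc r Set.univ n)
    (hfa : ∀ v, {w | r v w}.Finite)
    (hfd : {v | hd v = 1}.Finite) (X : ℕ → Set V) (hX0 : X 0 = Set.univ)
    (hXa : ∀ i j, i ≤ j → X j ⊆ X i) (hXc : ∀ j, (X j)ᶜ.Finite)
    (hXu : ∀ j v w, v ∈ X j → r v w → w ∈ X j) (hXo : ∀ v, ∃ j, v ∉ X j) (n : ℕ)
    (hrel : ∀ i j, i ≤ j → RelA r (X i) (X j) n) :
    Module.Free ℤ (groupCohomology (Rep.leftRegular ℤ G) (n + 1)) := by
  classical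
  have bad : ∀ j n, {l | l ∈ Sx r Set.univ (n + 1) ∧ l ∉ Sx r (X j) (n + 1)}.Finite := by
    intro j n
    refine (finite_simplices hfa (hXc j) n).subset ?_
    rintro l ⟨h1, h2⟩
    obtain ⟨x, t, rfl⟩ := Sx_succ h1
    refine ⟨h1, x, fun hx => h2 (cons_mem_Sx.2 ⟨hx, Sx_mono (fun y hy => ?_) _
      (cons_mem_Sx.1 h1).2⟩), rfl⟩
    exact ⟨hXu j x y hx hy.2, hy.2⟩
  have van : ∀ n (f : XR hi n ⟶ Rep.leftRegular ℤ G), ∃ j, ∀ c ∈ Ch r (X j) (n + 1),
      ev hi f c = 0 := by
    intro n f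
    choose J hJ using hXo
    obtain ⟨j, hj⟩ := ((ev_finite hi hd hhd hfa hfd f).image
      fun l => (l.head?.map J).getD 0).bddAbove
    refine ⟨j, fun c hc => map_mem_of_Ch (ev hi f) ⊥ (fun l hl => ?_) hc⟩
    by_contra hne
    obtain ⟨x, t, rfl⟩ := Sx_succ hl
    exact hJ x (hXa _ _ (hj ⟨_, ⟨Sx_mono (Set.subset_univ _) _ hl, hne⟩, rfl⟩)
      (cons_mem_Sx.1 hl).1)
  let K := (CR hi).linearYonedaObj ℤ (Rep.leftRegular ℤ G)
  have hf : ∀ θ : XR hi n ⟶ Rep.leftRegular ℤ G,
      (K.sc' n (n + 1) (n + 2)).f.hom θ = dR hi n ≫ θ := by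
    intro θ
    have e1 : (CR hi).d (n + 1) n = dR hi n := ChainComplex.of_d (XR hi) (dR hi) n
    rw [← e1]; rfl
  have : Module.Free ℤ (K.sc' n (n + 1) (n + 2)).homology := by
    refine free_homology _ (fun j =>
      { carrier := {φ : XR hi (n + 1) ⟶ Rep.leftRegular ℤ G | ∀ c ∈ Ch r (X j) (n + 2),
          ev hi φ c = 0}
        add_mem' := fun {a b} ha hb c hc => (ev_add hi a b c).trans (by rw [ha c hc, hb c hc]; rfl)
        zero_mem' := fun c hc => rfl
        smul_mem' := fun m a ha c hc => (show _ = m * ev hi a c from rfl).trans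
          (by rw [ha c hc, mul_zero]) }) ?_ ?_ (van _) ?_ ?_
    · exact fun i j h φ hφ c hc => hφ c (Ch_mono (hXa i j h) _ hc)
    · refine (Submodule.eq_bot_iff _).2 fun φ hφ => ev_inj hi hd hhd fun l hl => hφ _ ?_
      rw [hX0]; exact single_mem_Ch hl 1
    · intro j
      have := (bad j (n + 1)).to_subtype
      refine Submodule.fg_of_fg_map_of_fg_inf_ker
        (P := {l | l ∈ Sx r Set.univ (n + 2) ∧ l ∉ Sx r (X j) (n + 2)} → ℤ)
        { toFun := fun φ l => ev hi φ (single l.1 1)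
          map_add' := fun _ _ => rfl
          map_smul' := fun _ _ => rfl } (IsNoetherian.noetherian _) ?_
      convert Submodule.fg_bot
      refine (Submodule.eq_bot_iff _).2 fun φ hφ => ev_inj hi hd hhd fun l hl => ?_
      by_cases hh : l ∈ Sx r (X j) (n + 2)
      · exact hφ.1 _ (single_mem_Ch hh 1)
      · exact congrFun hφ.2 ⟨l, hl, hh⟩
    · intro i m φ θ hm h
      rw [hf] at h
      replace h : ∀ c ∈ Ch r (X i) (n + 2), m * ev hi φ c = ev hi θ (bd c) := by
        intro c hc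
        rw [← ev_d hi θ (Ch_mono (Set.subset_univ _) _ hc), ← sub_eq_zero]
        exact h c hc
      obtain ⟨j0, hj0⟩ := van n θ
      have hij : i ≤ max i j0 := le_max_left _ _
      have hj : ∀ c ∈ Ch r (X (max i j0)) (n + 1), ev hi θ c = 0 :=
        fun c hc => hj0 c (Ch_mono (hXa _ _ (le_max_right _ _)) _ hc)
      generalize max i j0 = j at hij hj
      let A : Submodule ℤ (Ch r Set.univ (n + 1)) :=
        (Ch r (X i) (n + 1) ⊓ (Ch r (X j) n).comap bd).comap (Ch r Set.univ (n + 1)).subtype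
      have hA : ∀ c ∈ Ch r (X j) (n + 1), rs r (n + 1) c ∈ A := by
        intro c hc
        refine Submodule.mem_comap.2 ?_
        rw [Submodule.subtype_apply, coe_rs (Ch_mono (Set.subset_univ _) _ hc)]
        exact ⟨Ch_mono (hXa i j hij) _ hc, bd_mem_Ch hc⟩
      have pure : ∀ (W : Set V) k (m : ℤ) c, m ≠ 0 → m • c ∈ Ch r W k → c ∈ Ch r W k := by
        intro W k m c hm hc l hl
        refine hc ?_
        simpa [hm] using hl
      refine (exists_div A ?_ ?_ (ev hi θ ∘ₗ (Ch r Set.univ (n + 1)).subtype) hm ?_).elim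
        fun θ' h' => ?_
      rotate_right
      · obtain ⟨f, hf'⟩ := exists_ev hi hd hhd (n := n) (θ' ∘ₗ rs r (n + 1))
          ((bad j n).subset fun l hl => ⟨hl.1, fun hh => hl.2 (by
            have a1 := h' _ (hA _ (single_mem_Ch hh 1))
            rw [LinearMap.comp_apply, Submodule.subtype_apply, coe_rs (single_mem_Ch hl.1 1),
              hj _ (single_mem_Ch hh 1)] at a1
            exact (mul_eq_zero.1 a1.symm).resolve_left hm)⟩)
        refine ⟨f, fun c hc => ?_⟩
        have hc' := Ch_mono (Set.subset_univ _) _ hc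
        rw [hf]
        refine (ev_sub hi φ _ c).trans ?_
        rw [ev_d hi f hc', hf' _ (bd_mem_Ch hc'), sub_eq_zero]
        refine mul_left_cancel₀ hm ?_
        rw [h c hc, LinearMap.comp_apply, ← h']
        · rw [LinearMap.comp_apply, Submodule.subtype_apply, coe_rs (bd_mem_Ch hc')]
        · refine Submodule.mem_comap.2 ?_
          rw [Submodule.subtype_apply, coe_rs (bd_mem_Ch hc')]
          exact ⟨bd_mem_Ch hc, by simp [bd_bd]⟩
      · refine ⟨((bad j n).image fun l => A.mkQ (rs r (n + 1) (single l 1))).toFinset, ?_⟩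
        rw [Set.Finite.coe_toFinset, Submodule.map_top, Submodule.range_mkQ, eq_top_iff]
        intro x _
        obtain ⟨x, rfl⟩ := A.mkQ_surjective x
        rw [← rs_coe x]
        refine map_mem_of_Ch (A.mkQ ∘ₗ rs r (n + 1)) _ (fun l hl => ?_) x.2
        by_cases hh : l ∈ Sx r (X j) (n + 1)
        · rw [LinearMap.comp_apply, Submodule.mkQ_apply,
            (Submodule.Quotient.mk_eq_zero _).2 (hA _ (single_mem_Ch hh 1))]
          exact zero_mem _
        · exact Submodule.subset_span ⟨l, ⟨hl, hh⟩, rfl⟩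
      · intro m x hm hx
        exact ⟨pure _ _ m _ hm hx.1, pure _ _ m _ hm (by rw [← map_smul]; exact hx.2)⟩
      · intro a ha
        obtain ⟨b, b1, b2⟩ := hrel i j hij a.1 ha.1 ha.2
        have := hj _ b2
        rw [map_sub, ← h b b1, sub_eq_zero] at this
        exact ⟨_, this⟩
  exact free_of_res _ (resR hi hd hhd hac) n this

end OutFn
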