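import Pool.Agent.Lib.MP_e47d8d_al.IC

/-! Compatible partitions and the descending link. -/

noncomputable section

namespace OutFn

open Finset

variable {H : Type*} [Fintype H] [DecidableEq H]

/-- Two subsets define compatible two-block partitions. -/
def compat (P Q : Finset H) : Prop :=
  (∀ z ∈ P, z ∈ Q) ∨ (∀ z ∈ Q, z ∈ P) ∨ (∀ z ∈ P, z ∉ Q) ∨ (∀ z, z ∉ P → z ∈ Q)

omit [Fintype H] [DecidableEq H] in
lemma compat_refl (P : Finset H) : compat P P := Or.inl fun _ h => h

omit [Fintype H] [DecidableEq H] in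
lemma compat_symm (P Q : Finset H) (h : compat P Q) : compat Q P := by
  unfold compat at *; grind

lemma compat_compl_left {P Q : Finset H} : compat Pᶜ Q ↔ compat P Q := by
  unfold compat; grind [mem_compl]

lemma compat_compl_right {P Q : Finset H} : compat P Qᶜ ↔ compat P Q := by
  unfold compat; grind [mem_compl]

/-- `P` separates `a` from `b`. -/
def Sep (P : Finset H) (a b : H) : Prop := ¬(a ∈ P ↔ b ∈ P)

lemma sep_compl {P : Finset H} {a b : H} : Sep Pᶜ a b ↔ Sep P a b := by
  unfold Sep; grind [mem_compl]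

variable {Λ : Type*} [AddCommGroup Λ] [LinearOrder Λ] [IsOrderedAddMonoid Λ]

/-- Symmetric submodular set functions. -/
structure Cut (c : Finset H → Λ) : Prop where
  sub : ∀ A B, c (A ∩ B) + c (A ∪ B) ≤ c A + c B
  sym : ∀ A, c Aᶜ = c A

variable {ι : Type*} (c : Finset H → Λ) (x y : ι → H) (h : ι → Λ)

/-- Reductive subsets. -/
def Red (P : Finset H) : Prop := ∃ i, Sep P (x i) (y i) ∧ c P < h i

variable {c x y h}

omit [Fintype H] [DecidableEq H] in
lemma exists_orient {P : Finset H} {a b : H} (hs : Sep P a b) :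
    ∃ m m', m ∈ P ∧ m' ∉ P ∧ ∀ Q : Finset H, Sep Q a b ↔ Sep Q m m' := by
  by_cases ha : a ∈ P
  · exact ⟨a, b, ha, by unfold Sep at hs; grind, fun _ => Iff.rfl⟩
  · exact ⟨b, a, by unfold Sep at hs; grind, ha, fun Q => by unfold Sep; grind⟩

omit [IsOrderedAddMonoid Λ] in
lemma red_compl (hc : Cut c) {P : Finset H} : Red c x y h Pᶜ ↔ Red c x y h P := by
  simp only [Red, sep_compl, hc.sym]

lemma desc_key (hc : Cut c) {M : Finset H} {i0 : ι} {m m' : H} (hm : m ∈ M) (hm' : m' ∉ M)
    (hmm : ∀ Q : Finset H, Sep Q (x i0) (y i0) ↔ Sep Q m m')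
    (hmax : ∀ P i, Sep P (x i) (y i) → h i - c P ≤ h i0 - c M) {A : Finset H} (hA : m ∈ A)
    (hr : Red c x y h A) : Red c x y h (A ∪ M) ∨ Red c x y h (Aᶜ ∩ M) := by
  obtain ⟨j, hj, hlt⟩ := hr
  obtain ⟨a, a', ha, ha', haa⟩ := exists_orient hj
  have s1 := hc.sub A M
  have s2 := hc.sub Aᶜ M
  rw [hc.sym A] at s2
  by_cases h1 : a' ∈ M
  · by_cases h2 : m' ∈ A
    · right
      have := hmax (Aᶜ ∪ M) i0 ((hmm _).2 (by unfold Sep; grind [mem_compl]))
      exact ⟨j, (haa _).2 (by unfold Sep; grind [mem_compl]), by grind⟩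
    · left
      refine ⟨i0, (hmm _).2 (by unfold Sep; grind), ?_⟩
      by_cases h3 : a ∈ M
      · have := hmax (A ∩ M) j ((haa _).2 (by unfold Sep; grind))
        grind
      · have := hmax M j ((haa _).2 (by unfold Sep; grind))
        have := hmax (A ∩ M) i0 ((hmm _).2 (by unfold Sep; grind))
        grind
  · left
    have := hmax (A ∩ M) i0 ((hmm _).2 (by unfold Sep; grind))
    exact ⟨j, (haa _).2 (by unfold Sep; grind), by grind⟩

theorem desc_IC [Finite ι] (hc : Cut c) (hne : ∃ P, Red c x y h P) (k : ℤ) :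
    IC compat k {P | Red c x y h P} := by
  classical
  obtain ⟨P0, j0, hj0, hlt0⟩ := hne
  obtain ⟨⟨M, i0⟩, hM, hmax⟩ := Set.Finite.exists_maximalFor
    (fun p : Finset H × ι => h p.2 - c p.1) {p | Sep p.1 (x p.2) (y p.2)} (Set.toFinite _)
    ⟨(P0, j0), hj0⟩
  have hmax' : ∀ P i, Sep P (x i) (y i) → h i - c P ≤ h i0 - c M := by
    intro P i hP
    by_contra hcon
    have h1 := le_of_lt (not_le.1 hcon)
    exact hcon (hmax (j := (P, i)) hP h1)
  have hMr : Red c x y h M := ⟨i0, hM, by have := hmax' P0 j0 hj0; grind⟩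
  obtain ⟨m, m', hm, hm', hmm⟩ := exists_orient hM
  have e : {P | Red c x y h P} =
      {P | Red c x y h P ∧ compat P M} ∪ {P | Red c x y h P ∧ ¬compat P M} := by
    ext P; simp only [Set.mem_union, Set.mem_ofPred_eq]; tauto
  rw [e]
  let side : Finset H → Finset H := fun P => if m ∈ P then P else Pᶜ
  have side_mem : ∀ P, m ∈ side P := by
    intro P; simp only [side]; split_ifs with h <;> simp [h]
  have side_compat : ∀ P Q, compat (side P) Q ↔ compat P Q := by
    intro P Q; simp only [side]; split_ifs <;> simp [compat_compl_left]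
  have side_red : ∀ P, Red c x y h (side P) ↔ Red c x y h P := by
    intro P; simp only [side]; split_ifs <;> simp [red_compl hc]
  refine IC.add_ranked (fun P => (side P).card) (IC.cone _ _ M ⟨hMr, compat_refl _⟩
    (fun u hu => hu.2)) ?_
  intro v hv S hS _ hle _
  set A := side v with hAdef
  have hAM : ¬compat A M := by rw [side_compat]; exact hv.2
  have hmA : m ∈ A := side_mem v
  have main : ∀ u, u ∈ {P | Red c x y h P ∧ compat P M} ∪ S → compat u v →
      compat u (A ∪ M) ∧ compat u (Aᶜ ∩ M) := by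
    intro u hu huv
    have h1 : compat (side u) A := by
      rw [side_compat]; exact compat_symm _ _ ((side_compat _ _).2 (compat_symm _ _ huv))
    have hmB := side_mem u
    rw [← side_compat u, ← side_compat u]
    rcases hu with hu | hu
    · have h2 : compat (side u) M := (side_compat _ _).2 hu.2
      unfold compat at *
      simp only [mem_union, mem_inter, mem_compl]
      grind
    · have h3 : ¬(A ⊂ side u) := fun hh => absurd (card_lt_card hh) (not_lt.2 (hle u hu))
      have h4 : (∀ z ∈ A, z ∈ side u) → ∀ z ∈ side u, z ∈ A := by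
        intro h5
        by_contra h6
        exact h3 ⟨h5, h6⟩
      unfold compat at *
      simp only [mem_union, mem_inter, mem_compl]
      grind
  have hvA : ∀ Q, compat A Q → compat Q v := fun Q hQ =>
    compat_symm _ _ ((side_compat _ _).1 hQ)
  rcases desc_key hc hm hm' hmm hmax' hmA ((side_red v).2 hv.1) with hr | hr
  · refine IC.cone _ _ (A ∪ M) ⟨Or.inl ⟨hr, ?_⟩, hvA _ ?_⟩ (fun u hu => (main u hu.1 hu.2).1)
    · unfold compat; simp only [mem_union]; grind
    · unfold compat; simp only [mem_union]; grind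
  · refine IC.cone _ _ (Aᶜ ∩ M) ⟨Or.inl ⟨hr, ?_⟩, hvA _ ?_⟩ (fun u hu => (main u hu.1 hu.2).2)
    · unfold compat; simp only [mem_inter, mem_compl]; grind
    · unfold compat; simp only [mem_inter, mem_compl]; grind

end OutFn
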