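import Pool.Agent.Lib.MP_e47d8d_al.Words

/-! Properties of the crossing numbers; conjugating a family of words to be short. -/

set_option linter.unusedSectionVars false
set_option linter.unusedVariables false

noncomputable section

namespace OutFn

open FreeGroup hiding map_mul map_one map_inv

variable {ι : Type*} [DecidableEq ι]

lemma lin_nonneg (P : Finset (ι × Bool)) (l : List (ι × Bool)) : ∀ a, 0 ≤ lin P a l := by
  induction l with
  | nil => simp [lin]
  | cons y l ih => intro a; have := ih (bar y); simp only [lin, dl]; split_ifs <;> omega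

lemma ell_nonneg (P : Finset (ι × Bool)) (w : FreeGroup ι) : 0 ≤ ell P w := by
  unfold ell
  cases core w with
  | nil => simp [cyc]
  | cons y l => exact lin_nonneg _ _ _

lemma lin_sub (A B : Finset (ι × Bool)) (l : List (ι × Bool)) :
    ∀ a, lin (A ∩ B) a l + lin (A ∪ B) a l ≤ lin A a l + lin B a l := by
  induction l with
  | nil => simp [lin]
  | cons y l ih =>
    intro a
    have := ih (bar y)
    have h : dl (A ∩ B) a y + dl (A ∪ B) a y ≤ dl A a y + dl B a y := by
      simp only [dl, Finset.mem_inter, Finset.mem_union]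
      by_cases h1 : a ∈ A <;> by_cases h2 : a ∈ B <;> by_cases h3 : y ∈ A <;>
        by_cases h4 : y ∈ B <;> simp [h1, h2, h3, h4]
    simp only [lin]; omega

lemma ell_sub (A B : Finset (ι × Bool)) (w : FreeGroup ι) :
    ell (A ∩ B) w + ell (A ∪ B) w ≤ ell A w + ell B w := by
  unfold ell
  cases core w with
  | nil => simp [cyc]
  | cons y l => exact lin_sub _ _ _ _

lemma lin_compl [Fintype ι] (A : Finset (ι × Bool)) (l : List (ι × Bool)) :
    ∀ a, lin Aᶜ a l = lin A a l := by
  induction l with
  | nil => simp [lin]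
  | cons y l ih => intro a; simp [lin, ih, dl, not_iff_not]

lemma ell_compl [Fintype ι] (A : Finset (ι × Bool)) (w : FreeGroup ι) : ell Aᶜ w = ell A w := by
  unfold ell
  cases core w with
  | nil => simp [cyc]
  | cons y l => exact lin_compl _ _ _

lemma getLast_eq (l : List (ι × Bool)) :
    ∀ y, (y :: l).getLast? = some (bar (lb (bar y) l)) := by
  induction l with
  | nil => simp [lb]
  | cons z l ih => intro y; rw [List.getLast?_cons_cons, ih, lb]

lemma isCyc_cons {y : ι × Bool} {l : List (ι × Bool)} :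
    IsCyclicallyReduced (y :: l) ↔ IsReduced (y :: l) ∧ y ≠ lb (bar y) l := by
  simp [IsCyclicallyReduced, getLast_eq, rel_iff]

lemma lin_single (x : ι × Bool) (l : List (ι × Bool)) : ∀ a, IsReduced l → l.head? ≠ some a →
    lin {x} a l + (if lb a l = x then 1 else 0)
      = (if a = x then 1 else 0) + l.count x + l.count (bar x) := by
  induction l with
  | nil => simp [lin, lb]
  | cons y l ih =>
    intro a h1 h2
    rw [isReduced_cons] at h1
    have := ih (bar y) h1.2 h1.1
    have h3 : y ≠ a := by simpa using h2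
    have h4 : dl {x} a y = (if a = x then 1 else 0) + (if y = x then 1 else 0) := by
      simp only [dl, Finset.mem_singleton]
      by_cases e1 : a = x <;> by_cases e2 : y = x <;> simp_all
    simp only [lin, lb, List.count_cons, beq_iff_eq, h4, bar_eq_iff (y := y)] at this ⊢
    push_cast
    split_ifs at this ⊢ <;> omega

lemma ell_single (x : ι × Bool) (w : FreeGroup ι) :
    ell {x} w = (core w).count x + (core w).count (bar x) := by
  unfold ell
  have h := core_red w
  generalize core w = c at h
  cases c with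
  | nil => simp [cyc]
  | cons y l =>
    rw [isCyc_cons] at h
    have := lin_single x (y :: l) (lb (bar y) l) h.1 (by simpa using h.2)
    rw [lb] at this
    rw [cyc]; omega

lemma ell_single_bar (x : ι × Bool) (w : FreeGroup ι) : ell {bar x} w = ell {x} w := by
  simp [ell_single, add_comm]

/-- Cyclically reduced length. -/
def clen (w : FreeGroup ι) : ℕ := (core w).length

lemma sum_count [Fintype ι] (l : List (ι × Bool)) :
    ∑ i, ((l.count (i, true) : ℤ) + l.count (bar (i, true))) = l.length := by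
  induction l with
  | nil => simp
  | cons y l ih =>
    obtain ⟨j, b⟩ := y
    simp only [List.count_cons, List.length_cons]
    push_cast
    rw [← ih]
    have : ∑ i, ((if (j, b) == (i, true) then (1 : ℤ) else 0) +
        (if (j, b) == bar (i, true) then (1 : ℤ) else 0)) = 1 := by
      cases b <;> simp [bar]
    rw [eq_comm]
    conv_lhs => rw [← this, ← Finset.sum_add_distrib]
    refine Finset.sum_congr rfl (fun i _ => by ring)

lemma sum_ell_single [Fintype ι] (w : FreeGroup ι) : ∑ i, ell {(i, true)} w = clen w := by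
  simp only [ell_single, sum_count, clen]

lemma clen_conj [Fintype ι] (u w : FreeGroup ι) : clen (u * w * u⁻¹) = clen w := by
  have := sum_ell_single (u * w * u⁻¹)
  simp only [ell_conj, sum_ell_single] at this
  exact_mod_cast this.symm

lemma core_mk {c : List (ι × Bool)} (hc : IsCyclicallyReduced c) : core (mk c) = c := by
  rw [core, toWord_mk_of hc.isReduced]
  induction c using List.bidirectionalRec with
  | nil => simp
  | singleton a => simp
  | cons_append a l b _ =>
    rw [reduceCyclically.cons_append, if_neg]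
    · rfl
    · have := (isCyclicallyReduced_cons_append_iff.1 hc).2
      rintro ⟨h1, h2⟩
      rw [← this h1] at h2
      simp at h2

lemma ell_gen (P : Finset (ι × Bool)) (y : ι × Bool) : ell P (gen y) = dl P (bar y) y := by
  rw [gen, ell_mk P IsCyclicallyReduced.singleton]; simp [cyc, lin, lb]

lemma clen_gen (y : ι × Bool) : clen (gen y) = 1 := by
  rw [clen, gen, core_mk IsCyclicallyReduced.singleton]; rfl

lemma dl_comm (P : Finset (ι × Bool)) (a b : ι × Bool) : dl P a b = dl P b a := by
  simp only [dl, iff_comm]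

lemma four_point {P Q : Finset (ι × Bool)} (h : ∀ w, ell P w = ell Q w) {a b c d : ι × Bool}
    (ha : a ∈ P) (hb : b ∈ P) (hc : c ∉ P) (hd : d ∉ P) (hab : a ≠ b) (hcd : c ≠ d) :
    ¬(a ∈ Q ↔ d ∈ Q) := by
  have n1 : a ≠ c := fun e => hc (e ▸ ha)
  have n2 : a ≠ d := fun e => hd (e ▸ ha)
  have n3 : b ≠ c := fun e => hc (e ▸ hb)
  have n4 : b ≠ d := fun e => hd (e ▸ hb)
  have c1 : IsCyclicallyReduced [bar a, b, bar d, c] := by
    simp [isCyc_cons, isReduced_cons, lb, bar_inj, hab.symm, hcd, n1, n4.symm]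
  have c2 : IsCyclicallyReduced [bar a, d, bar b, c] := by
    simp [isCyc_cons, isReduced_cons, lb, bar_inj, n2.symm, n3.symm, n1, n4]
  have h1 := h (mk [bar a, b, bar d, c])
  rw [ell_mk _ c1, ell_mk _ c1] at h1
  have h2 := h (mk [bar a, d, bar b, c])
  rw [ell_mk _ c2, ell_mk _ c2] at h2
  simp only [cyc, lin, lb, bar_bar] at h1 h2
  rw [dl_comm P (bar d), dl_comm Q (bar d)] at h2
  have e1 : dl P a b = 0 := by simp [dl, ha, hb]
  have e2 : dl P d c = 0 := by simp [dl, hc, hd]
  have e3 : dl P a d = 1 := by simp [dl, ha, hd]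
  have e4 : dl P b c = 1 := by simp [dl, hb, hc]
  have e5 : ∀ u v, 0 ≤ dl Q u v ∧ dl Q u v ≤ 1 := fun u v => by
    simp only [dl]; split_ifs <;> simp
  have := e5 a b
  have := e5 d c
  have := e5 b c
  intro hh
  have e6 : dl Q a d = 0 := by simp [dl, hh]
  omega

lemma ell_distinct [Fintype ι] {P Q : Finset (ι × Bool)} (h : ∀ w, ell P w = ell Q w)
    (h1 : ∀ a, ∃ b ∈ P, b ≠ a) (h2 : ∀ a, ∃ b ∉ P, b ≠ a) (a0 : ι × Bool) : Q = P ∨ Q = Pᶜ := by
  have key : ∀ a ∈ P, ∀ d ∉ P, ¬(a ∈ Q ↔ d ∈ Q) := by
    intro a ha d hd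
    obtain ⟨b, hb, hba⟩ := h1 a
    obtain ⟨c, hc, hcd⟩ := h2 d
    exact four_point h ha hb hc hd hba.symm hcd
  obtain ⟨a, ha, _⟩ := h1 a0
  obtain ⟨d, hd, _⟩ := h2 a0
  have := key a ha d hd
  by_cases haQ : a ∈ Q
  · left
    ext z
    by_cases hz : z ∈ P
    · have := key z hz d hd; tauto
    · have := key a ha z hz; tauto
  · right
    ext z
    rw [Finset.mem_compl]
    by_cases hz : z ∈ P
    · have := key z hz d hd; tauto
    · have := key a ha z hz; tauto

section parity

/-- Indicator modulo two. -/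
def chi (P : Finset (ι × Bool)) (y : ι × Bool) : ZMod 2 := if y ∈ P then 1 else 0

lemma dl_cast (P : Finset (ι × Bool)) (a b : ι × Bool) :
    ((dl P a b : ℤ) : ZMod 2) = chi P a + chi P b := by
  simp only [dl, chi]
  by_cases h1 : a ∈ P <;> by_cases h2 : b ∈ P <;> simp [h1, h2]
  rfl

lemma lin_cast (P : Finset (ι × Bool)) (l : List (ι × Bool)) : ∀ a,
    ((lin P a l : ℤ) : ZMod 2) + chi P (lb a l)
      = chi P a + (l.map fun y => chi P y + chi P (bar y)).sum := by
  induction l with
  | nil => simp [lin, lb]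
  | cons y l ih =>
    intro a
    simp only [lin, lb, List.map_cons, List.sum_cons]
    push_cast
    rw [add_assoc, ih, dl_cast]; ring

/-- The parity homomorphism of a partition. -/
def parH (P : Finset (ι × Bool)) : FreeGroup ι →* Multiplicative (ZMod 2) :=
  lift fun i => Multiplicative.ofAdd (chi P (i, true) + chi P (i, false))

lemma parH_gen (P : Finset (ι × Bool)) (y : ι × Bool) :
    parH P (gen y) = Multiplicative.ofAdd (chi P y + chi P (bar y)) := by
  obtain ⟨i, b⟩ := y
  cases b
  · have : gen (i, false) = (of i)⁻¹ := gen_bar (i, true)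
    rw [this, map_inv, parH, lift_apply_of, ← ofAdd_neg, ZMod.neg_eq_self_mod_two, add_comm]
    rfl
  · rw [gen_true, parH, lift_apply_of]; rfl

lemma parH_mk (P : Finset (ι × Bool)) (l : List (ι × Bool)) :
    parH P (mk l) = Multiplicative.ofAdd (l.map fun y => chi P y + chi P (bar y)).sum := by
  induction l with
  | nil => exact map_one _
  | cons y l ih => rw [mk_cons, map_mul, ih, parH_gen]; simp

lemma ell_cast (P : Finset (ι × Bool)) (w : FreeGroup ι) :
    ((ell P w : ℤ) : ZMod 2) = (parH P w).toAdd := by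
  obtain ⟨u, hu⟩ := core_conj w
  have : parH P w = parH P (mk (core w)) := by
    conv_lhs => rw [hu]
    simp
  rw [this, parH_mk, ell]
  cases core w with
  | nil => simp [cyc]
  | cons y l =>
    have := lin_cast P (y :: l) (lb (bar y) l)
    rw [lb, add_comm] at this
    exact add_left_cancel this

lemma hom_expand [Fintype ι] (f : FreeGroup ι →* Multiplicative (ZMod 2)) (w : FreeGroup ι) :
    (f w).toAdd = ∑ i, (f (of i)).toAdd * (parH {(i, true)} w).toAdd := by
  induction w using FreeGroup.induction_on with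
  | C1 => simp
  | of x =>
    have : ∀ i, (parH {(i, true)} (of x)).toAdd = if x = i then 1 else 0 := by
      intro i; simp [parH, chi]
    simp [this]
  | inv_of x ih => simp [ih]
  | mul a b ha hb => simp [ha, hb, mul_add, Finset.sum_add_distrib]

lemma exists_perm [Fintype ι] (ψ : MulAut (FreeGroup ι)) :
    ∃ π : Equiv.Perm ι, ∀ i, ((ell {(π i, true)} (ψ (of i)) : ℤ) : ZMod 2) ≠ 0 := by
  let M : MulAut (FreeGroup ι) → Matrix ι ι (ZMod 2) :=
    fun φ => Matrix.of fun j i => (parH {(j, true)} (φ (of i))).toAdd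
  have h : M ψ * M ψ⁻¹ = 1 := by
    ext j k
    have := hom_expand ((parH {(j, true)}).comp ψ.toMonoidHom) (ψ⁻¹ (of k))
    simp only [Matrix.mul_apply, M, Matrix.of_apply, Matrix.one_apply]
    refine Eq.trans this.symm ?_
    simp [parH, chi, eq_comm]
  have hd : (M ψ).det ≠ 0 := by
    intro h0
    have := congrArg Matrix.det h
    rw [Matrix.det_mul, h0, zero_mul, Matrix.det_one] at this
    exact zero_ne_one this
  rw [Matrix.det_apply] at hd
  obtain ⟨π, _, hπ⟩ := Finset.exists_ne_zero_of_sum_ne_zero hd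
  refine ⟨π, fun i => ?_⟩
  have : ∏ i, M ψ (π i) i ≠ 0 := fun h0 => hπ (by rw [h0, smul_zero])
  rw [ell_cast]
  exact Finset.prod_ne_zero_iff.1 this i (Finset.mem_univ _)

end parity

section conj

/-- The reduced word of `w` starts with `a` and ends with its inverse. -/
def Wr (a : ι × Bool) (w : FreeGroup ι) : Prop := ∃ m, w.toWord = a :: (m ++ [bar a])

lemma clen_le (w : FreeGroup ι) : clen w ≤ norm w := by
  have := congrArg List.length (reduceCyclically.conj_conjugator_reduceCyclically w.toWord)
  simp only [List.length_append] at this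
  unfold clen core FreeGroup.norm; omega

lemma exists_wr {w : FreeGroup ι} (h : clen w < norm w) : ∃ a, Wr a w := by
  have := reduceCyclically.conj_conjugator_reduceCyclically w.toWord
  cases hc : reduceCyclically.conjugator w.toWord with
  | nil =>
    rw [hc] at this
    have := congrArg List.length this
    simp only [List.length_append, List.length_nil, invRev_length] at this
    unfold clen core FreeGroup.norm at h; omega
  | cons a u =>
    refine ⟨a, u ++ reduceCyclically w.toWord ++ invRev u, ?_⟩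
    conv_lhs => rw [← this, hc, invRev_cons, invRev_single]
    simp

lemma norm_gen (a : ι × Bool) : norm (gen a) = 1 := rfl

lemma Wr.norm {a : ι × Bool} {w : FreeGroup ι} (h : Wr a w) :
    norm (gen (bar a) * w * gen a) + 2 = norm w := by
  obtain ⟨m, hm⟩ := h
  have hr : IsReduced (a :: (m ++ [bar a])) := hm ▸ isReduced_toWord
  have hr' : IsReduced m := List.IsChain.left_of_append (isReduced_cons.1 hr).2
  have e : w = gen a * mk m * gen (bar a) := by
    rw [← mk_toWord (x := w), hm, mk_cons, ← mul_mk, mul_assoc]; rfl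
  have e2 : gen (bar a) * w * gen a = mk m := by rw [e, gen_bar]; group
  rw [e2, FreeGroup.norm, FreeGroup.norm, hm, toWord_mk_of hr']
  simp

lemma norm_conj_le (a : ι × Bool) (w : FreeGroup ι) :
    norm (gen (bar a) * w * gen a) ≤ norm w + 2 := by
  have h1 := norm_mul_le (gen (bar a) * w) (gen a)
  have h2 := norm_mul_le (gen (bar a)) w
  rw [norm_gen] at h1 h2; omega

lemma Wr.clen_mul {a : ι × Bool} {v w : FreeGroup ι} (h : Wr a v) {y : ι × Bool}
    {l : List (ι × Bool)} (hw : w.toWord = y :: l) (h1 : y ≠ a)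
    (h2 : (y :: l).getLast? ≠ some (bar a)) : clen (v * w) = v.norm + w.norm := by
  obtain ⟨m, hm⟩ := h
  have hr : IsReduced (a :: (m ++ [bar a])) := hm ▸ isReduced_toWord
  have hr' : IsReduced (y :: l) := hw ▸ isReduced_toWord
  have hc : IsCyclicallyReduced (a :: (m ++ [bar a]) ++ y :: l) := by
    refine ⟨List.isChain_append.2 ⟨hr, hr', ?_⟩, ?_⟩
    · intro s hs t ht
      rw [← List.cons_append, List.getLast?_concat] at hs
      simp only [Option.mem_def, Option.some.injEq, List.head?_cons] at hs ht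
      rw [rel_iff, ← hs, ← ht, bar_bar]; exact h1
    · intro s hs t ht
      rw [List.getLast?_append, getLast_eq] at hs
      simp only [Option.mem_def, Option.some.injEq, List.cons_append, List.head?_cons,
        Option.some_or] at hs ht
      rw [rel_iff, ← hs, ← ht, bar_bar]
      intro h3
      exact h2 (by rw [getLast_eq, ← h3])
  have : v * w = mk (a :: (m ++ [bar a]) ++ y :: l) := by
    rw [← mul_mk, ← hm, ← hw, mk_toWord, mk_toWord]
  rw [this, clen, core_mk hc, FreeGroup.norm, FreeGroup.norm, hm, hw, List.length_append]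

lemma Wr.clen_mul_wr {a b : ι × Bool} {v w : FreeGroup ι} (h : Wr a v) (h' : Wr b w)
    (hab : b ≠ a) : clen (v * w) = v.norm + w.norm := by
  obtain ⟨m, hm⟩ := h'
  refine h.clen_mul hm hab ?_
  rw [← List.cons_append, List.getLast?_concat]
  simpa [bar_inj] using hab

lemma conj_min [Fintype ι] {κ : Type*} [Fintype κ] (a : κ → FreeGroup ι) :
    ∃ (u : FreeGroup ι) (K : ℕ), (∀ i, norm (u * a i * u⁻¹) ≤ clen (a i) + K) ∧
      (K = 0 ∨ ∃ i x j, norm (u * a i * u⁻¹) = clen (a i) + K ∧ Wr x (u * a i * u⁻¹) ∧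
        clen (a j) + K ≤ norm (gen (bar x) * (u * a j * u⁻¹) * gen x)) := by
  classical
  have hex : ∃ K : ℕ, ∃ u : FreeGroup ι, ∀ i, norm (u * a i * u⁻¹) ≤ clen (a i) + K := by
    refine ⟨∑ i, norm (a i), 1, fun i => ?_⟩
    have := Finset.single_le_sum (f := fun i => norm (a i)) (fun _ _ => Nat.zero_le _)
      (Finset.mem_univ i)
    simp only [one_mul, inv_one, mul_one]; omega
  obtain ⟨u, hu⟩ := Nat.find_spec hex
  refine ⟨u, Nat.find hex, hu, ?_⟩
  rcases Nat.eq_zero_or_pos (Nat.find hex) with h | h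
  · exact Or.inl h
  right
  have hmin := Nat.find_min hex (m := Nat.find hex - 1) (by omega)
  push Not at hmin
  obtain ⟨i, hi⟩ := hmin u
  have := hu i
  obtain ⟨x, hx⟩ := exists_wr (w := u * a i * u⁻¹) (by rw [clen_conj]; omega)
  obtain ⟨j, hj⟩ := hmin (gen (bar x) * u)
  refine ⟨i, x, j, by omega, hx, ?_⟩
  have e : gen (bar x) * (u * a j * u⁻¹) * gen x
      = gen (bar x) * u * a j * (gen (bar x) * u)⁻¹ := by rw [gen_bar]; group
  rw [e]; omega

lemma conj_mul_clen [Fintype ι] (u v w : FreeGroup ι) :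
    clen (u * v * u⁻¹ * (u * w * u⁻¹)) = clen (v * w) := by
  rw [← clen_conj u (v * w)]; congr 1; group

lemma conj_short [Fintype ι] {κ : Type*} [Fintype κ] (a : κ → FreeGroup ι) {B : ℕ}
    (h1 : ∀ i, clen (a i) ≤ B) (h2 : ∀ i j, clen (a i * a j) ≤ B) :
    ∃ u : FreeGroup ι, ∀ i, norm (u * a i * u⁻¹) ≤ 2 * B + 2 := by
  obtain ⟨u, K, hK, h⟩ := conj_min a
  refine ⟨u, fun k => ?_⟩
  suffices K ≤ B + 2 by have := hK k; have := h1 k; omega
  rcases h with h | ⟨i, x, j, e1, e2, e3⟩
  · omega
  by_contra hcon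
  have e4 := norm_conj_le x (u * a j * u⁻¹)
  obtain ⟨z, hz⟩ := exists_wr (w := u * a j * u⁻¹) (by rw [clen_conj]; omega)
  have hzx : z ≠ x := by
    rintro rfl
    have := hz.norm
    have := hK j
    omega
  have := e2.clen_mul_wr hz hzx
  rw [conj_mul_clen] at this
  have := h2 i j
  omega

lemma eq_gen_of_norm {w : FreeGroup ι} (h : norm w = 1) : ∃ c, w = gen c := by
  obtain ⟨c, hc⟩ := List.length_eq_one_iff.1 h
  exact ⟨c, by rw [← mk_toWord (x := w), hc]; rfl⟩

lemma conj_letters [Fintype ι] {κ : Type*} [Fintype κ] (a : κ → FreeGroup ι)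
    (h1 : ∀ i, clen (a i) = 1) (h2 : ∀ i j, clen (a i * a j) ≤ 2) :
    ∃ u : FreeGroup ι, ∀ i, ∃ c, u * a i * u⁻¹ = gen c := by
  obtain ⟨u, K, hK, h⟩ := conj_min a
  have hle : ∀ k, 1 ≤ norm (u * a k * u⁻¹) := fun k => by
    have := clen_le (u * a k * u⁻¹)
    rwa [clen_conj, h1] at this
  suffices K = 0 by
    refine ⟨u, fun k => eq_gen_of_norm ?_⟩
    have := hK k; have := h1 k; have := hle k; omega
  rcases h with h | ⟨i, x, j, e1, e2, e3⟩
  · exact h
  by_contra hcon
  have f1 := h1 i
  have f2 := h1 j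
  have f3 := h2 i j
  have f4 := hle j
  rw [← conj_mul_clen u] at f3
  by_cases hn : norm (u * a j * u⁻¹) = 1
  · obtain ⟨c, hc⟩ := eq_gen_of_norm hn
    rw [hc] at e3 f3
    by_cases g1 : c = x
    · rw [g1, gen_bar, inv_mul_cancel, one_mul, norm_gen] at e3; omega
    by_cases g2 : c = bar x
    · rw [g2, mul_assoc, gen_bar, inv_mul_cancel, mul_one, ← gen_bar, norm_gen] at e3; omega
    have := e2.clen_mul (toWord_gen c) g1 (by simpa using g2)
    rw [norm_gen] at this; omega
  · obtain ⟨z, hz⟩ := exists_wr (w := u * a j * u⁻¹) (by rw [clen_conj]; omega)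
    have hzx : z ≠ x := by
      rintro rfl
      have := hz.norm
      have := hK j
      omega
    have := e2.clen_mul_wr hz hzx
    omega

lemma finite_aut [Fintype ι] (B : ℕ) :
    {θ : MulAut (FreeGroup ι) | ∀ i, norm (θ (of i)) ≤ B}.Finite := by
  have h1 : {w : FreeGroup ι | norm w ≤ B}.Finite :=
    (List.finite_length_le (ι × Bool) B).preimage toWord_injective.injOn
  have h2 := Set.Finite.pi' (fun _ : ι => h1)
  refine Set.Finite.preimage (f := fun θ : MulAut (FreeGroup ι) => fun i => θ (of i)) ?_ h2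
  intro θ _ θ' _ h
  apply MulEquiv.toMonoidHom_injective
  ext i
  exact congrFun h i

end conj

end OutFn
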