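import Pool.Agent.Lib.MP_e47d8d_al.Desc

/-! Partitions into blocks and intervals of saturated sets. -/

noncomputable section

namespace OutFn

open Finset

variable {H : Type*} [Fintype H] [DecidableEq H]

/-- `r z` is the block of `z`. -/
structure Fr (r : H → Finset H) : Prop where
  self : ∀ z, z ∈ r z
  eq : ∀ z w, w ∈ r z → r w = r z

/-- Unions of blocks. -/
def Sat (r : H → Finset H) (P : Finset H) : Prop := ∀ z ∈ P, ∀ w ∈ r z, w ∈ P

/-- Unions of blocks with at least two blocks on each side. -/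
def Edge (r : H → Finset H) (P : Finset H) : Prop :=
  Sat r P ∧ (∃ z, z ∈ P) ∧ (∃ z, z ∉ P) ∧ ∀ z, r z ≠ P ∧ r z ≠ Pᶜ

/-- Number of blocks met by `P`. -/
def nb (r : H → Finset H) (P : Finset H) : ℕ := (P.image r).card

/-- Collapse the complement of `P` to one block. -/
def col (r : H → Finset H) (P : Finset H) : H → Finset H := fun z => if z ∈ P then r z else Pᶜ

variable {r : H → Finset H}

lemma Sat.compl (hr : Fr r) {P : Finset H} (h : Sat r P) : Sat r Pᶜ := by
  intro z hz w hw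
  rw [mem_compl] at *
  intro hwP
  exact hz (h w hwP z (by rw [hr.eq z w hw]; exact hr.self z))

omit [Fintype H] [DecidableEq H] in
lemma sat_block (hr : Fr r) (z : H) : Sat r (r z) := by
  intro w hw u hu
  rwa [hr.eq z w hw] at hu

lemma fr_col (hr : Fr r) {P : Finset H} (h : Sat r P) : Fr (col r P) := by
  constructor
  · intro z; unfold col; split_ifs with hz
    exacts [hr.self z, mem_compl.2 hz]
  · intro z w hw; unfold col at *
    by_cases hz : z ∈ P
    · rw [if_pos hz] at hw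
      rw [if_pos hz, if_pos (h z hz w hw), hr.eq z w hw]
    · rw [if_neg hz] at hw
      rw [if_neg hz, if_neg (mem_compl.1 hw)]

lemma Edge.compl (hr : Fr r) {P : Finset H} (h : Edge r P) : Edge r Pᶜ := by
  obtain ⟨h1, ⟨a, ha⟩, ⟨b, hb⟩, h4⟩ := h
  refine ⟨h1.compl hr, ⟨b, mem_compl.2 hb⟩, ⟨a, by simpa using ha⟩, fun z => ⟨(h4 z).2, ?_⟩⟩
  rw [compl_compl]; exact (h4 z).1

lemma edge_col (hr : Fr r) {P : Finset H} (hP : Edge r P) {R : Finset H} :
    Edge (col r P) R ↔ Edge r R ∧ (R ⊂ P ∨ Rᶜ ⊂ P) := by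
  obtain ⟨p1, ⟨a, ha⟩, ⟨b, hb⟩, p4⟩ := hP
  have p1' := p1.compl hr
  constructor
  · rintro ⟨h1, ⟨c, hc⟩, ⟨d, hd⟩, h4⟩
    have hb4 := h4 b
    simp only [col, if_neg hb] at hb4
    have hsat : Sat r R := by
      intro z hz w hw
      by_cases hzP : z ∈ P
      · exact h1 z hz w (by simpa [col, hzP] using hw)
      · exact h1 z hz w (by simpa [col, hzP] using mem_compl.1 (p1' z (mem_compl.2 hzP) w hw))
    have hor : R ⊂ P ∨ Rᶜ ⊂ P := by
      by_cases hRP : R ⊆ P
      · left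
        refine ⟨hRP, fun hh => hb4.2 ?_⟩
        rw [Subset.antisymm hRP hh]
      · right
        obtain ⟨z, hz, hzP⟩ := not_subset.1 hRP
        have hsub : Rᶜ ⊆ P := by
          intro w hw
          by_contra hwP
          exact mem_compl.1 hw (h1 z hz w (by simpa [col, hzP] using hwP))
        refine ⟨hsub, fun hh => hb4.1 ?_⟩
        rw [← Subset.antisymm hsub hh, compl_compl]
    refine ⟨⟨hsat, ⟨c, hc⟩, ⟨d, hd⟩, fun z => ?_⟩, hor⟩
    by_cases hzP : z ∈ P
    · simpa [col, hzP] using h4 z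
    · have hz1 := hr.self z
      have hz2 : ∀ w ∈ r z, w ∉ P := fun w hw => mem_compl.1 (p1' z (mem_compl.2 hzP) w hw)
      constructor
      · rintro rfl
        rcases hor with h | h
        · exact hzP (h.1 hz1)
        · refine h.2 (fun w hw => mem_compl.2 (fun hw' => hz2 w hw' hw))
      · intro he
        rcases hor with h | h
        · refine h.2 (fun w hw => ?_)
          by_contra hw'
          exact hz2 w (he ▸ mem_compl.2 hw') hw
        · exact hzP (h.1 (he ▸ hz1))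
  · rintro ⟨⟨h1, hc, hd, h4⟩, hor⟩
    refine ⟨?_, hc, hd, fun z => ?_⟩
    · intro z hz w hw
      by_cases hzP : z ∈ P
      · exact h1 z hz w (by simpa [col, hzP] using hw)
      · rcases hor with h | h
        · exact absurd (h.1 hz) hzP
        · by_contra hwR
          simp only [col, if_neg hzP, mem_compl] at hw
          exact hw (h.1 (mem_compl.2 hwR))
    · by_cases hzP : z ∈ P
      · simpa [col, hzP] using h4 z
      · simp only [col, if_neg hzP]
        constructor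
        · rintro rfl
          rcases hor with h | h
          · exact hb (h.1 (mem_compl.2 hb))
          · rw [compl_compl] at h; exact h.2 Subset.rfl
        · intro he
          obtain rfl := compl_injective he
          rcases hor with h | h
          · exact h.2 Subset.rfl
          · exact hb (h.1 (mem_compl.2 hb))

omit [Fintype H] in
lemma nb_union (hr : Fr r) {P Q : Finset H} (hP : Sat r P) (hd : ∀ z ∈ Q, z ∉ P) :
    nb r (P ∪ Q) = nb r P + nb r Q := by
  unfold nb
  rw [image_union, card_union_of_disjoint]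
  rw [disjoint_left]
  intro b hb1 hb2
  obtain ⟨z, hz, rfl⟩ := mem_image.1 hb1
  obtain ⟨w, hw, he⟩ := mem_image.1 hb2
  exact hd w hw (hP z hz w (he ▸ hr.self w))

omit [Fintype H] in
lemma nb_block (hr : Fr r) (z : H) : nb r (r z) = 1 := by
  unfold nb
  rw [card_eq_one]
  refine ⟨r z, ?_⟩
  ext b
  simp only [mem_image, mem_singleton]
  exact ⟨fun ⟨w, hw, he⟩ => he ▸ hr.eq z w hw, fun he => ⟨z, hr.self z, he.symm⟩⟩

lemma nb_add (hr : Fr r) {P : Finset H} (hP : Sat r P) : nb r P + nb r Pᶜ = nb r univ := by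
  rw [← nb_union hr hP (fun z hz => mem_compl.1 hz), union_compl]

lemma nb_col (hr : Fr r) {P : Finset H} (hP : Edge r P) : nb (col r P) univ = nb r P + 1 := by
  obtain ⟨p1, _, ⟨b, hb⟩, _⟩ := hP
  have hc := fr_col hr p1
  have hs : Sat (col r P) P := by
    intro z hz w hw
    exact p1 z hz w (by simpa [col, hz] using hw)
  rw [← nb_add hc hs]
  have e1 : nb (col r P) P = nb r P := by
    unfold nb
    rw [image_congr (g := r)]
    intro z hz
    simp [col, mem_coe.1 hz]
  have e2 : Pᶜ = col r P b := by simp [col, hb]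
  rw [e1, e2, nb_block hc]

lemma Edge.two_le (hr : Fr r) {P : Finset H} (hP : Edge r P) : 2 ≤ nb r P := by
  obtain ⟨p1, ⟨a, ha⟩, _, p4⟩ := hP
  have : ¬(P ⊆ r a) := fun h => (p4 a).1 (Subset.antisymm (fun w hw => p1 a ha w hw) h)
  obtain ⟨w, hw, hw'⟩ := not_subset.1 this
  unfold nb
  rw [Nat.succ_le_iff, one_lt_card]
  exact ⟨r a, mem_image_of_mem _ ha, r w, mem_image_of_mem _ hw,
    fun he => hw' (he ▸ hr.self w)⟩

/-- Edges of a frame with a property. -/
def ZZ (r : H → Finset H) (p : Finset H → Prop) : Set (Finset H) := {R | Edge r R ∧ p R}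

lemma link_join (hr : Fr r) {P : Finset H} (hP : Edge r P) {p : Finset H → Prop} (h1 : ¬p P)
    (h2 : ¬p Pᶜ) {a b : ℤ} (ha : IC compat a (ZZ (col r P) p))
    (hb : IC compat b (ZZ (col r Pᶜ) p)) :
    IC compat (a + b + 2) {R | R ∈ ZZ r p ∧ compat R P} := by
  have hP' := hP.compl hr
  have e : {R | R ∈ ZZ r p ∧ compat R P} = ZZ (col r P) p ∪ ZZ (col r Pᶜ) p := by
    ext R
    simp only [ZZ, Set.mem_ofPred_eq, Set.mem_union, edge_col hr hP, edge_col hr hP']
    constructor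
    · rintro ⟨⟨e1, e2⟩, e3⟩
      have n1 : R ≠ P := fun h => h1 (h ▸ e2)
      have n2 : R ≠ Pᶜ := fun h => h2 (h ▸ e2)
      rcases e3 with h | h | h | h
      · exact Or.inl ⟨⟨e1, Or.inl (Finset.ssubset_iff_subset_ne.2 ⟨h, n1⟩)⟩, e2⟩
      · refine Or.inr ⟨⟨e1, Or.inr (Finset.ssubset_iff_subset_ne.2 ⟨compl_subset_compl.2 h,
          fun he => n1 (compl_injective he)⟩)⟩, e2⟩
      · exact Or.inr ⟨⟨e1, Or.inl (Finset.ssubset_iff_subset_ne.2
          ⟨fun z hz => mem_compl.2 (h z hz), n2⟩)⟩, e2⟩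
      · exact Or.inl ⟨⟨e1, Or.inr (Finset.ssubset_iff_subset_ne.2
          ⟨fun z hz => h z (mem_compl.1 hz), fun he => n2 (by rw [← he, compl_compl])⟩)⟩, e2⟩
    · rintro (⟨⟨e1, h | h⟩, e2⟩ | ⟨⟨e1, h | h⟩, e2⟩) <;> refine ⟨⟨e1, e2⟩, ?_⟩ <;>
        have h' := subset_iff.1 h.1 <;> (try simp only [mem_compl] at h') <;> unfold compat <;>
        clear h <;> grind
  rw [e]
  refine IC.join compat_symm ha hb ?_
  intro A hA B hB
  have h3 := ((edge_col hr hP).1 hA.1).2
  have h4 := ((edge_col hr hP').1 hB.1).2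
  rcases h3 with h3 | h3 <;> rcases h4 with h4 | h4 <;> have h5 := subset_iff.1 h3.1 <;>
    have h6 := subset_iff.1 h4.1 <;> simp only [mem_compl] at h5 h6 <;> unfold compat <;>
    clear h3 h4 <;> grind

lemma IC.twin {k : ℤ} {W : Set (Finset H)} (h : IC compat k W) :
    IC compat k (W ∪ {P | Pᶜ ∈ W}) := by
  refine IC.add_ranked (fun _ => 0) h ?_
  intro v hv S _ _ _ _
  exact IC.cone _ _ vᶜ ⟨Or.inl hv, compat_compl_left.2 (compat_refl v)⟩
    (fun u hu => compat_compl_right.2 hu.2)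

lemma IC.conical {W : Set (Finset H)} {xx yy : H} (hW : ∀ J ∈ W, xx ∈ J ∧ yy ∉ J) {N : Finset H}
    (hN : N ∈ W) (hJ : ∀ J ∈ W, J ∪ N ∈ W) (k : ℤ) : IC compat k W := by
  have e : W = {J | J ∈ W ∧ compat J N} ∪ {J | J ∈ W ∧ ¬compat J N} := by
    ext P; simp only [Set.mem_union, Set.mem_ofPred_eq]; tauto
  rw [e]
  refine IC.add_ranked card (IC.cone _ _ N ⟨hN, compat_refl _⟩ (fun u hu => hu.2)) ?_
  intro v hv S hS _ hle _
  refine IC.cone _ _ (v ∪ N) ⟨Or.inl ⟨hJ v hv.1, ?_⟩, ?_⟩ ?_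
  · unfold compat; grind
  · unfold compat; grind
  · rintro u ⟨hu | hu, huv⟩
    · have := hW u hu.1
      have := hW v hv.1
      have := hW N hN
      have h1 := hu.2
      have h2 := hv.2
      unfold compat at *; grind
    · have := hW u (hS hu).1
      have := hW v hv.1
      have h3 : (∀ z ∈ v, z ∈ u) → ∀ z ∈ u, z ∈ v := fun h5 z hz =>
        (eq_of_subset_of_card_le h5 (hle u hu)) ▸ hz
      unfold compat at *; grind

/-- Open interval of saturated sets. -/
def Ival (r : H → Finset H) (A B : Finset H) : Set (Finset H) := {I | Sat r I ∧ A ⊂ I ∧ I ⊂ B}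

omit [Fintype H] in
lemma Sat.union {P Q : Finset H} (hP : Sat r P) (hQ : Sat r Q) : Sat r (P ∪ Q) := by
  intro u hu w hw
  rw [mem_union] at *
  exact hu.imp (fun h => hP u h w hw) (fun h => hQ u h w hw)

omit [Fintype H] in
lemma Sat.inter {P Q : Finset H} (hP : Sat r P) (hQ : Sat r Q) : Sat r (P ∩ Q) := by
  intro u hu w hw
  rw [mem_inter] at *
  exact ⟨hP u hu.1 w hw, hQ u hu.2 w hw⟩

lemma Sat.sdiff (hr : Fr r) {P Q : Finset H} (hP : Sat r P) (hQ : Sat r Q) : Sat r (P \ Q) := by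
  rw [sdiff_eq_inter_compl]; exact hP.inter (hQ.compl hr)

lemma boolean_step (hr : Fr r) {A B a : Finset H} (hA : Sat r A) (hB : Sat r B) (hsa : Sat r a)
    {xx yy z z' : H} (hx : xx ∈ A) (hy : yy ∉ B) (hAB : ∀ w ∈ A, w ∈ B) (hza : z ∈ a)
    (haB : ∀ w ∈ a, w ∈ B) (haA : ∀ w ∈ a, w ∉ A) (h1 : z' ∈ B) (h2 : z' ∉ A) (h3 : z' ∉ a)
    (hat : ∀ J, Sat r J → ∀ w ∈ a, w ∈ J → ∀ u ∈ a, u ∈ J) {k : ℤ}
    (ih : IC compat (k - 1) (Ival r A (B \ a))) : IC compat k (Ival r A B) := by
  have hB' : Sat r (B \ a) := hB.sdiff hr hsa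
  have hzA := haA z hza
  have hzB := haB z hza
  have hmem : B \ a ∈ Ival r A B := by
    refine ⟨hB', ⟨fun w hw => mem_sdiff.2 ⟨hAB w hw, fun h => haA w h hw⟩, fun h => ?_⟩,
      ⟨sdiff_subset, fun h => ?_⟩⟩
    · exact h2 (h (mem_sdiff.2 ⟨h1, h3⟩))
    · exact (mem_sdiff.1 (h hzB)).2 hza
  have e : Ival r A B = insert (B \ a) (Ival r A B \ {B \ a}) := by
    rw [Set.insert_sdiff_singleton, Set.insert_eq_of_mem hmem]
  rw [e]
  refine IC.add' _ (IC.conical (xx := xx) (yy := yy) (N := A ∪ a) ?_ ?_ ?_ _) ?_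
  · rintro J ⟨⟨_, j2, j3⟩, _⟩
    exact ⟨j2.1 hx, fun h => hy (j3.1 h)⟩
  · refine ⟨⟨hA.union hsa, ⟨subset_union_left, fun h => hzA (h (mem_union_right _ hza))⟩,
      ⟨union_subset hAB haB, fun h => ?_⟩⟩, fun he => ?_⟩
    · rcases mem_union.1 (h h1) with h | h
      exacts [h2 h, h3 h]
    · have : z ∈ B \ a := (Set.mem_singleton_iff.1 he) ▸ mem_union_right _ hza
      simp [hza] at this
  · rintro J ⟨⟨j1, j2, j3⟩, j4⟩
    refine ⟨⟨j1.union (hA.union hsa), ⟨j2.1.trans subset_union_left, fun hh => ?_⟩,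
      ⟨union_subset j3.1 (union_subset hAB haB), fun hh => ?_⟩⟩, fun he => ?_⟩
    · exact hzA (hh (mem_union_right _ (mem_union_right _ hza)))
    · by_cases hzJ : ∃ w ∈ a, w ∈ J
      · obtain ⟨w, hw, hwJ⟩ := hzJ
        refine j3.2 (fun u hu => ?_)
        rcases mem_union.1 (hh hu) with h | h
        · exact h
        · rcases mem_union.1 h with h | h
          exacts [j2.1 h, hat J j1 w hw hwJ u h]
      · refine j4 (Set.mem_singleton_iff.2 (Subset.antisymm (fun u hu => ?_) (fun u hu => ?_)))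
        · exact mem_sdiff.2 ⟨j3.1 hu, fun h => hzJ ⟨u, h, hu⟩⟩
        · rcases mem_union.1 (hh (mem_sdiff.1 hu).1) with h | h
          · exact h
          · rcases mem_union.1 h with h | h
            exacts [j2.1 h, absurd h (mem_sdiff.1 hu).2]
    · have : z ∈ B \ a := (Set.mem_singleton_iff.1 he) ▸
        mem_union_right _ (mem_union_right _ hza)
      simp [hza] at this
  · have e2 : {u | u ∈ Ival r A B \ {B \ a} ∧ compat u (B \ a)} = Ival r A (B \ a) := by
      ext u
      constructor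
      · rintro ⟨⟨⟨j1, j2, j3⟩, j4⟩, j7⟩
        refine ⟨j1, j2, Finset.ssubset_iff_subset_ne.2 ⟨?_, j4⟩⟩
        by_cases hzJ : ∃ w ∈ a, w ∈ u
        · obtain ⟨w, hw, hwJ⟩ := hzJ
          have hau := hat u j1 w hw hwJ
          rcases j7 with h | h | h | h
          · exact h
          · refine absurd (fun v hv => ?_) j3.2
            by_cases hva : v ∈ a
            exacts [hau v hva, h v (mem_sdiff.2 ⟨hv, hva⟩)]
          · exact absurd (hmem.2.1.1 hx) (h xx (j2.1 hx))
          · exact absurd (mem_sdiff.1 (h yy (fun hh => hy (j3.1 hh)))).1 hy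
        · exact fun v hv => mem_sdiff.2 ⟨j3.1 hv, fun h => hzJ ⟨v, h, hv⟩⟩
      · rintro ⟨j1, j2, j3⟩
        exact ⟨⟨⟨j1, j2, j3.trans hmem.2.2⟩, j3.ne⟩, Or.inl j3.1⟩
    rw [e2]; exact ih

lemma boolean_IC (hr : Fr r) {A : Finset H} (hA : Sat r A) {xx yy : H} (hx : xx ∈ A) :
    ∀ (n : ℕ) (B : Finset H), Sat r B → A ⊆ B → yy ∉ B → nb r (B \ A) = n →
      IC compat (n - 3) (Ival r A B) := by
  intro n
  induction n with
  | zero => intro B _ _ _ _; exact IC.triv _ _ (by simp)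
  | succ n ih =>
    intro B hB hAB hy hn
    rcases Nat.eq_zero_or_pos n with rfl | hpos
    · exact IC.triv _ _ (by simp)
    obtain ⟨_, h1, _, h2, hne⟩ := one_lt_card.1 (show 1 < nb r (B \ A) by omega)
    obtain ⟨z, hz, rfl⟩ := mem_image.1 h1
    obtain ⟨z', hz', rfl⟩ := mem_image.1 h2
    rw [mem_sdiff] at hz hz'
    have hza := hr.self z
    have haB : ∀ w ∈ r z, w ∈ B := hB z hz.1
    have haA : ∀ w ∈ r z, w ∉ A := fun w hw hwA =>
      hz.2 (hA w hwA z (by rw [hr.eq z w hw]; exact hza))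
    have hsa := sat_block hr z
    refine boolean_step hr hA hB hsa hx hy hAB hza haB haA hz'.1 hz'.2
      (fun h => hne (hr.eq z z' h).symm)
      (fun J hJ w hw hwJ u hu => hJ w hwJ u (by rwa [hr.eq z w hw])) ?_
    have hn' : nb r ((B \ r z) \ A) = n := by
      have e3 : B \ A = r z ∪ ((B \ r z) \ A) := by
        ext u
        simp only [mem_sdiff, mem_union]
        have := haB u
        have := haA u
        tauto
      rw [e3, nb_union hr hsa (fun u hu => (mem_sdiff.1 (mem_sdiff.1 hu).1).2), nb_block hr] at hn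
      omega
    exact (ih _ (hB.sdiff hr hsa) (fun w hw => mem_sdiff.2 ⟨hAB hw, fun h => haA w h hw⟩)
      (fun h => hy (mem_sdiff.1 h).1) hn').mono _ (by push_cast; omega)

end OutFn
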