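import Mathlib

/-! A union of pure finitely generated subgroups is free. -/

noncomputable section

namespace OutFn

open Submodule

variable {R D : Type*} [CommRing R] [IsDomain R] [IsPrincipalIdealRing R] [AddCommGroup D]
  [Module R D]

lemma exists_compl_of_pure (A B : Submodule R D) (hAB : A ≤ B) (hfg : (B.map A.mkQ).FG)
    (hp : ∀ (m : R) x, m ≠ 0 → m • x ∈ A → x ∈ A) :
    ∃ t : Set D, LinearIndepOn R id t ∧ Disjoint A (span R t) ∧ A ⊔ span R t = B := by
  have : Module.IsTorsionFree R (D ⧸ A) := by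
    refine Module.IsTorsionFree.of_smul_eq_zero (fun m x h => ?_)
    obtain ⟨x, rfl⟩ := A.mkQ_surjective x
    by_cases hm : m = 0
    · exact Or.inl hm
    · right
      rw [← map_smul, mkQ_apply, Quotient.mk_eq_zero] at h
      exact (Quotient.mk_eq_zero _).2 (hp m x hm h)
  have : Module.Finite R (B.map A.mkQ) := Module.Finite.iff_fg.2 hfg
  let b := Module.Free.chooseBasis R (B.map A.mkQ)
  choose v hv1 hv2 using fun i => (mem_map.1 (b i).2)
  have hli : LinearIndependent R (A.mkQ ∘ v) := by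
    have := b.linearIndependent.map' (B.map A.mkQ).subtype (ker_subtype _)
    have e : A.mkQ ∘ v = (B.map A.mkQ).subtype ∘ b := funext hv2
    rw [e]; exact this
  refine ⟨Set.range v, (LinearIndependent.of_comp _ hli).linearIndepOn_id, ?_, ?_⟩
  · have := range_ker_disjoint hli
    rw [ker_mkQ] at this
    exact this.symm
  · have h1 : span R (Set.range v) ≤ B := span_le.2 (by rintro _ ⟨i, rfl⟩; exact hv1 i)
    refine le_antisymm (sup_le hAB h1) (fun x hx => ?_)
    have h2 : (span R (Set.range v)).map A.mkQ = B.map A.mkQ := by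
      rw [map_span, ← Set.range_comp]
      have := congrArg (Submodule.map (B.map A.mkQ).subtype) b.span_eq
      rw [map_span, ← Set.range_comp, Submodule.map_top, range_subtype] at this
      have e : A.mkQ ∘ v = (B.map A.mkQ).subtype ∘ b := funext hv2
      rw [e]; exact this
    obtain ⟨y, hy1, hy2⟩ := mem_map.1 (h2 ▸ mem_map_of_mem (f := A.mkQ) hx)
    have h3 : x - y ∈ A := by
      rw [← Quotient.mk_eq_zero, ← mkQ_apply, map_sub, hy2, sub_self]
    exact mem_sup.2 ⟨x - y, h3, y, hy1, by simp⟩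

theorem free_of_filtration (F : ℕ → Submodule R D) (hm : Monotone F) (h0 : F 0 = ⊥)
    (hall : ∀ x, ∃ j, x ∈ F j) (hfg : ∀ j, (F j).FG)
    (hp : ∀ j (m : R) x, m ≠ 0 → m • x ∈ F j → x ∈ F j) : Module.Free R D := by
  choose t t1 t2 t3 using fun j =>
    exists_compl_of_pure (F j) (F (j + 1)) (hm (Nat.le_succ j)) ((hfg _).map _) (hp j)
  let s : ℕ → Set D := fun j => Nat.rec ∅ (fun j s => s ∪ t j) j
  have hs : ∀ j, LinearIndepOn R id (s j) ∧ span R (s j) = F j := by
    intro j
    induction j with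
    | zero => exact ⟨linearIndepOn_empty _ _, by rw [h0]; exact span_empty⟩
    | succ j ih =>
      refine ⟨ih.1.id_union (t1 j) (by rw [ih.2]; exact t2 j), ?_⟩
      change span R (s j ∪ t j) = _
      rw [span_union, ih.2, t3]
  have hmono : Monotone s := monotone_nat_of_le_succ fun j => Set.subset_union_left
  have hli : LinearIndepOn R id (⋃ j, s j) :=
    linearIndepOn_iUnion_of_directed hmono.directed_le fun j => (hs j).1
  refine Module.Free.of_basis (Module.Basis.mk hli (fun x _ => ?_))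
  obtain ⟨j, hj⟩ := hall x
  rw [← (hs j).2] at hj
  refine span_mono ?_ hj
  intro y hy
  exact ⟨⟨y, Set.mem_iUnion.2 ⟨j, hy⟩⟩, rfl⟩

lemma exists_div (A : Submodule R D) (hfg : ((⊤ : Submodule R D).map A.mkQ).FG)
    (hp : ∀ (m : R) x, m ≠ 0 → m • x ∈ A → x ∈ A) (θ : D →ₗ[R] R) {m : R} (hm : m ≠ 0)
    (h : ∀ a ∈ A, m ∣ θ a) : ∃ θ' : D →ₗ[R] R, ∀ a ∈ A, θ a = m * θ' a := by
  obtain ⟨t, _, t2, t3⟩ := exists_compl_of_pure A ⊤ le_top hfg hp
  have hc : IsCompl A (span R t) := ⟨t2, codisjoint_iff.2 t3⟩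
  let θ0 : A →ₗ[R] (R ∙ m) := (θ ∘ₗ A.subtype).codRestrict _ (fun a => by
    obtain ⟨c, hc⟩ := h a a.2
    exact mem_span_singleton.2 ⟨c, by simp [hc, mul_comm]⟩)
  refine ⟨LinearMap.ofIsCompl hc ((LinearEquiv.coord R R m hm).toLinearMap ∘ₗ θ0) 0,
    fun a ha => ?_⟩
  rw [LinearMap.ofIsCompl_apply_left hc ⟨a, ha⟩, mul_comm]
  exact (LinearEquiv.coord_apply_smul R R m hm (θ0 ⟨a, ha⟩)).symm

end OutFn
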