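import Pool.Agent.Lib.MP_e47d8d_al.Chains

/-! A combinatorial calculus for connectivity of clique complexes. -/

noncomputable section

namespace OutFn

variable {α : Type*}

/-- Inductive `k`-connectivity of the clique complex on a vertex set. -/
inductive IC (adj : α → α → Prop) : ℤ → Set α → Prop
  | triv (k : ℤ) (W : Set α) : k ≤ -2 → IC adj k W
  | cone (k : ℤ) (W : Set α) (v : α) : v ∈ W → (∀ u ∈ W, adj u v) → IC adj k W
  | add (k : ℤ) (W : Set α) (v : α) : v ∉ W → IC adj k W →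
      IC adj (k - 1) {u | u ∈ W ∧ adj u v} → IC adj k (insert v W)

variable {adj : α → α → Prop}

lemma IC.add' {k : ℤ} {W : Set α} (v : α) (h1 : IC adj k W)
    (h2 : IC adj (k - 1) {u | u ∈ W ∧ adj u v}) : IC adj k (insert v W) := by
  by_cases hv : v ∈ W
  · rwa [Set.insert_eq_of_mem hv]
  · exact IC.add k W v hv h1 h2

lemma IC.mono {k : ℤ} {W : Set α} (h : IC adj k W) : ∀ k' ≤ k, IC adj k' W := by
  induction h with
  | triv k W hk => exact fun k' h => IC.triv _ _ (h.trans hk)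
  | cone k W v hv h => exact fun k' _ => IC.cone _ _ v hv h
  | add k W v hv _ _ ih1 ih2 =>
    exact fun k' h => IC.add _ _ v hv (ih1 k' h) (ih2 _ (by omega))

lemma IC.join_any [Finite α] (hs : ∀ a b, adj a b → adj b a) {b : ℤ} {B : Set α}
    (hB : IC adj b B) {A : Set α} (hAB : ∀ x ∈ A, ∀ y ∈ B, adj x y) : IC adj b (A ∪ B) := by
  have key : ∀ A0 : Set α, A0.Finite → ∀ A ⊆ A0, (∀ x ∈ A, ∀ y ∈ B, adj x y) →
      IC adj b (A ∪ B) := by
    intro A0 hA0
    induction A0, hA0 using Set.Finite.induction_on with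
    | empty => intro A hA _; rw [Set.subset_empty_iff.1 hA, Set.empty_union]; exact hB
    | @insert v A0 _ _ ih =>
      intro A hA hAB
      by_cases hv : v ∈ A
      · have e : A ∪ B = insert v ((A \ {v}) ∪ B) := by
          ext u; by_cases hu : u = v <;> simp [hu, hv]
        rw [e]
        have hsub : A \ {v} ⊆ A0 := fun u hu => (hA hu.1).resolve_left hu.2
        refine IC.add' v (ih _ hsub (fun x hx => hAB x hx.1)) ?_
        have e2 : {u | u ∈ (A \ {v}) ∪ B ∧ adj u v} = {u | u ∈ A \ {v} ∧ adj u v} ∪ B := by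
          ext u
          constructor
          · rintro ⟨h1 | h1, h2⟩
            exacts [Or.inl ⟨h1, h2⟩, Or.inr h1]
          · rintro (h | h)
            exacts [⟨Or.inl h.1, h.2⟩, ⟨Or.inr h, hs _ _ (hAB v hv u h)⟩]
        rw [e2]
        exact (ih _ (fun u hu => hsub hu.1) (fun x hx => hAB x hx.1.1)).mono _ (by omega)
      · exact ih A (fun u hu => (hA hu).resolve_left (fun h => hv (h ▸ hu))) hAB
  exact key A (Set.toFinite A) A subset_rfl hAB

lemma IC.join [Finite α] (hs : ∀ a b, adj a b → adj b a) {a b : ℤ} {A B : Set α}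
    (hA : IC adj a A) (hB : IC adj b B) (hAB : ∀ x ∈ A, ∀ y ∈ B, adj x y) :
    IC adj (a + b + 2) (A ∪ B) := by
  induction hA with
  | triv k W hk => exact (hB.join_any hs hAB).mono _ (by omega)
  | cone k W v hv h =>
    refine IC.cone _ _ v (Or.inl hv) ?_
    rintro u (hu | hu)
    exacts [h u hu, hs _ _ (hAB v hv u hu)]
  | add k W v hv _ _ ih1 ih2 =>
    rw [Set.insert_union]
    refine IC.add' v (ih1 (fun x hx => hAB x (Or.inr hx))) ?_
    have e2 : {u | u ∈ W ∪ B ∧ adj u v} = {u | u ∈ W ∧ adj u v} ∪ B := by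
      ext u
      constructor
      · rintro ⟨h1 | h1, h2⟩
        exacts [Or.inl ⟨h1, h2⟩, Or.inr h1]
      · rintro (h | h)
        exacts [⟨Or.inl h.1, h.2⟩, ⟨Or.inr h, hs _ _ (hAB v (Or.inl rfl) u h)⟩]
    rw [e2]
    exact (ih2 (fun x hx => hAB x (Or.inr hx.1))).mono _ (by omega)

lemma IC.add_ranked [Finite α] (f : α → ℕ) {W0 E : Set α} {k : ℤ} (h0 : IC adj k W0)
    (h : ∀ v ∈ E, ∀ S ⊆ E, v ∉ S → (∀ u ∈ S, f u ≤ f v) → (∀ u ∈ E, f u < f v → u ∈ S) →
      IC adj (k - 1) {u | u ∈ W0 ∪ S ∧ adj u v}) : IC adj k (W0 ∪ E) := by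
  classical
  have key : ∀ S : Finset α, (S : Set α) ⊆ E → (∀ u ∈ E, ∀ t ∈ S, f u < f t → u ∈ S) →
      IC adj k (W0 ∪ S) := by
    intro S
    induction S using Finset.induction_on_max_value f with
    | empty => intro _ _; simpa using h0
    | insert a S ha hmax ih =>
      intro hsub hdown
      have hs' : (S : Set α) ⊆ E := fun u hu => hsub (by simp [Finset.mem_coe.1 hu])
      have hd' : ∀ u ∈ E, ∀ t ∈ S, f u < f t → u ∈ S := by
        intro u hu t ht hlt
        rcases Finset.mem_insert.1 (hdown u hu t (by simp [ht]) hlt) with rfl | h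
        · exact absurd (hmax t ht) (by omega)
        · exact h
      rw [Finset.coe_insert, Set.union_insert]
      refine IC.add' a (ih hs' hd') (h a (hsub (by simp)) S hs' ha hmax ?_)
      intro u hu hlt
      rcases Finset.mem_insert.1 (hdown u hu a (by simp) hlt) with rfl | h
      · omega
      · exact h
  have := key (Set.toFinite E).toFinset (by simp) (fun u hu _ _ _ => by simpa using hu)
  simpa using this

lemma pairwise_total {β : Type*} {r : β → β → Prop} {l : List β} (h : l.Pairwise r) {a b : β}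
    (ha : a ∈ l) (hb : b ∈ l) : a = b ∨ r a b ∨ r b a := by
  induction l with
  | nil => simp at ha
  | cons x l ih =>
    rw [List.pairwise_cons] at h
    rcases List.mem_cons.1 ha with rfl | ha' <;> rcases List.mem_cons.1 hb with rfl | hb'
    exacts [Or.inl rfl, Or.inr (Or.inl (h.1 _ hb')), Or.inr (Or.inr (h.1 _ ha')), ih h.2 ha' hb']

/-- Nonempty cliques. -/
def Cl (adj : α → α → Prop) (W : Set α) : Set (Set α) :=
  {σ | σ.Nonempty ∧ σ ⊆ W ∧ ∀ a ∈ σ, ∀ b ∈ σ, adj a b}

lemma acyc_cl_cone (hs : ∀ a b, adj a b → adj b a) {W : Set α} {v : α} (hv : v ∈ W)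
    (h : ∀ u ∈ W, adj u v) (n : ℕ) : Acyc (· ⊆ ·) (Cl adj W) n := by
  refine acyc_transfer (r := fun a b : Set α => a ⊆ b) (s := fun a b : Set α => a ⊆ b)
    (fun a b c => Set.Subset.trans)
    (W' := {σ | σ ∈ Cl adj W ∧ v ∈ σ}) (insert v) id ?_ (fun y hy => hy.1)
    (fun x _ y _ hxy => Set.insert_subset_insert hxy) (fun x _ y _ hxy => hxy)
    (Or.inr (fun x _ => Set.subset_insert v x)) ?_
  · rintro σ ⟨_, h2, h3⟩
    refine ⟨⟨⟨v, Or.inl rfl⟩, Set.insert_subset hv h2, ?_⟩, Or.inl rfl⟩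
    rintro a (rfl | ha) b (rfl | hb)
    exacts [h _ hv, hs _ _ (h _ (h2 hb)), h _ (h2 ha), h3 a ha b hb]
  · have h1 : ({v} : Set α) ∈ Cl adj W := by
      refine ⟨⟨v, rfl⟩, by simpa using hv, ?_⟩
      rintro a rfl b rfl; exact h _ hv
    have h2 : ({v} : Set α) ∈ {σ | σ ∈ Cl adj W ∧ v ∈ σ} := ⟨h1, rfl⟩
    refine acyc_cone h2 ?_ n
    intro x hx; simpa using hx.2

lemma IC.sound (hs : ∀ a b, adj a b → adj b a) (hr : ∀ a, adj a a) {k : ℤ} {W : Set α}
    (h : IC adj k W) : ∀ n : ℕ, (n : ℤ) ≤ k + 1 → Acyc (· ⊆ ·) (Cl adj W) n := by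
  induction h with
  | triv k W hk => intro n hn; omega
  | cone k W v hv h => exact fun n _ => acyc_cl_cone hs hv h n
  | add k W v hv _ _ ih1 ih2 =>
    intro n hn
    cases n with
    | zero =>
      refine acyc_zero ⟨{v}, ⟨v, rfl⟩, by simp, ?_⟩
      rintro a rfl b rfl; exact hr _
    | succ n =>
      have hA : Cl adj W ⊆ Cl adj (insert v W) :=
        fun σ hσ => ⟨hσ.1, hσ.2.1.trans (Set.subset_insert _ _), hσ.2.2⟩
      refine RelA.acyc ?_ hA (ih1 _ hn)
      refine relA_union (B := Cl adj (insert v {u | u ∈ W ∧ adj u v})) ?_ ?_ ?_ ?_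
      · exact fun σ hσ => ⟨hσ.1, hσ.2.1.trans (Set.insert_subset_insert (fun u hu => hu.1)), hσ.2.2⟩
      · intro l hl
        by_cases hex : ∃ σ ∈ l, v ∈ σ
        · right
          obtain ⟨σ, hσ, hvσ⟩ := hex
          refine ⟨hl.1, fun τ hτ => ?_, hl.2.2⟩
          have hcomp : τ ⊆ σ ∨ σ ⊆ τ := by
            rcases pairwise_total hl.2.2 hτ hσ with h | h | h
            exacts [Or.inl h.subset, Or.inl h, Or.inr h]
          have hτ' := hl.2.1 τ hτ
          have hσ' := hl.2.1 σ hσ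
          refine ⟨hτ'.1, fun u hu => ?_, hτ'.2.2⟩
          rcases hτ'.2.1 hu with rfl | huW
          · exact Or.inl rfl
          · refine Or.inr ⟨huW, ?_⟩
            rcases hcomp with hc | hc
            exacts [hσ'.2.2 u (hc hu) v hvσ, hτ'.2.2 u hu v (hc hvσ)]
        · left
          refine ⟨hl.1, fun τ hτ => ?_, hl.2.2⟩
          have hτ' := hl.2.1 τ hτ
          refine ⟨hτ'.1, fun u hu => ?_, hτ'.2.2⟩
          rcases hτ'.2.1 hu with rfl | huW
          · exact absurd ⟨τ, hτ, hu⟩ hex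
          · exact huW
      · refine acyc_cl_cone hs (Or.inl rfl) ?_ _
        rintro u (rfl | hu)
        exacts [hr _, hu.2]
      · have e : Cl adj W ∩ Cl adj (insert v {u | u ∈ W ∧ adj u v})
            = Cl adj {u | u ∈ W ∧ adj u v} := by
          ext σ
          constructor
          · rintro ⟨h1, h2⟩
            refine ⟨h1.1, fun u hu => ?_, h1.2.2⟩
            rcases h2.2.1 hu with rfl | h
            · exact absurd (h1.2.1 hu) hv
            · exact h
          · intro h
            exact ⟨⟨h.1, fun u hu => (h.2.1 hu).1, h.2.2⟩,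
              ⟨h.1, h.2.1.trans (Set.subset_insert _ _), h.2.2⟩⟩
        rw [e]
        exact ih2 n (by push_cast at hn; omega)

end OutFn
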