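import Pool.Agent.Lib.MP_e47d8d_al.Spine

/-! Morse theory on the spine. -/

set_option linter.unusedSectionVars false
set_option linter.unusedVariables false

noncomputable section

namespace OutFn

open FreeGroup hiding map_mul map_one map_inv

lemma set_ind_min {G Λ : Type*} [LinearOrder Λ] (f : G → Λ) {p : Set G → Prop} (h0 : p ∅)
    (step : ∀ a S, a ∉ S → (∀ x ∈ S, f a ≤ f x) → p S → p (insert a S)) {S : Set G}
    (hS : S.Finite) : p S := by
  classical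
  have : ∀ T : Finset G, p T := by
    intro T
    induction T using Finset.induction_on_min_value f with
    | empty => simpa using h0
    | insert a T ha hmin ih => rw [Finset.coe_insert]; exact step a T ha hmin ih
  simpa using this hS.toFinset

lemma lt_of_exch {Λ : Type*} [AddCommGroup Λ] [LinearOrder Λ] [IsOrderedAddMonoid Λ]
    {a b c d : Λ} (h : a + b = c + d) (h' : b < d) : c < a := by grind

variable {ι : Type*} [DecidableEq ι] [Fintype ι]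

/-- Star of a rose. -/
def St (g : Out (FreeGroup ι)) : Set (Vert ι) := {v | Bs g ⊆ SS v}

/-- Union of stars. -/
def XX (Γ : Set (Out (FreeGroup ι))) : Set (Vert ι) := {v | ∃ g ∈ Γ, Bs g ⊆ SS v}

lemma XX_mono {Γ Γ' : Set (Out (FreeGroup ι))} (h : Γ ⊆ Γ') : XX Γ ⊆ XX Γ' :=
  fun _ ⟨g, h1, h2⟩ => ⟨g, h h1, h2⟩

lemma mem_St_self (v : Vert ι) : v ∈ St v.g := Set.subset_union_right

/-- Both sides have at least two letters. -/
def Intr (P : Finset (ι × Bool)) : Prop := (∀ a, ∃ b ∈ P, b ≠ a) ∧ (∀ a, ∃ b, b ∉ P ∧ b ≠ a)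

lemma intr_of_ne {P : Finset (ι × Bool)} (h1 : ∃ z, z ∈ P) (h2 : ∃ z, z ∉ P)
    (h : ∀ z, {z} ≠ P ∧ {z} ≠ Pᶜ) : Intr P := by
  obtain ⟨a, ha⟩ := h1
  obtain ⟨b, hb⟩ := h2
  constructor
  · intro z
    by_contra hcon
    push Not at hcon
    refine (h z).1 (Finset.eq_singleton_iff_unique_mem.2 ⟨hcon a ha ▸ ha, hcon⟩).symm
  · intro z
    by_contra hcon
    push Not at hcon
    refine (h z).2 (Finset.eq_singleton_iff_unique_mem.2
      ⟨Finset.mem_compl.2 (hcon b hb ▸ hb), fun x hx => hcon x (Finset.mem_compl.1 hx)⟩).symm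

lemma intr_of_cc {g : Out (FreeGroup ι)} {P : Finset (ι × Bool)} {i : ι}
    (hs : Sep P (i, true) (i, false)) (h : cc g P ≠ cc g {(i, true)}) :
    (∃ z, z ∈ P) ∧ (∃ z, z ∉ P) ∧ ∀ z, {z} ≠ P ∧ {z} ≠ Pᶜ := by
  obtain ⟨e, e1, e2, _⟩ := sep_orient hs
  refine ⟨⟨e, e1⟩, ⟨_, e2⟩, fun z => ⟨?_, fun hz => ?_⟩⟩
  · rintro rfl
    exact h (by rw [cc, kap_fst, sep_single hs, cc])
  · have := sep_compl.2 hs
    rw [← hz] at this
    exact h (by rw [cc, ← kap_compl, ← hz, kap_fst, sep_single this, cc])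

lemma Intr.kap_ne {P : Finset (ι × Bool)} (h : Intr P) (g : Out (FreeGroup ι)) (y : ι × Bool) :
    kap g P ≠ kap g {y} := by
  intro he
  rcases ell_distinct (ell_eq_of_kap he) h.1 h.2 y with h1 | h1
  · obtain ⟨b, b1, b2⟩ := h.1 y
    exact b2 (Finset.mem_singleton.1 (h1 ▸ b1))
  · obtain ⟨b, b1, b2⟩ := h.2 y
    exact b2 (Finset.mem_singleton.1 (h1 ▸ Finset.mem_compl.2 b1))

lemma Intr.mem_SS [Nonempty ι] {P : Finset (ι × Bool)} (h : Intr P) {v : Vert ι}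
    (hv : kap v.g P ∈ SS v) : P ∈ v.F ∨ Pᶜ ∈ v.F := by
  rcases hv with ⟨Q, q1, q2⟩ | ⟨y, hy⟩
  · rcases ell_distinct (ell_eq_of_kap q2.symm) h.1 h.2 (Classical.arbitrary _) with rfl | rfl
    exacts [Or.inl q1, Or.inr q1]
  · exact absurd hy.symm (h.kap_ne _ y)

lemma vle_trans (a b c : Vert ι) : vle a b → vle b c → vle a c := Set.Subset.trans

lemma acyc_link [Nonempty ι] (g : Out (FreeGroup ι)) {Z : Set (Finset (ι × Bool))}
    (hZ : ∀ P ∈ Z, Intr P) {k : ℤ} (h : IC compat k Z) {n : ℕ} (hn : (n : ℤ) ≤ k + 1) :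
    Acyc vle {v | v ∈ St g ∧ ∃ P ∈ Z, kap g P ∈ SS v} n := by
  classical
  let b : Set (Finset (ι × Bool)) → Vert ι := fun σ =>
    if h : ∀ P ∈ σ, ∀ Q ∈ σ, compat P Q then ⟨g, σ, h⟩ else rose g
  have hb : ∀ σ ∈ Cl compat Z, SS (b σ) = kap g '' σ ∪ Bs g := by
    intro σ hσ
    simp only [b, dif_pos hσ.2.2, SS]
  have ha : ∀ v ∈ {v | v ∈ St g ∧ ∃ P ∈ Z, kap g P ∈ SS v},
      {P | P ∈ Z ∧ kap g P ∈ SS v} ∈ Cl compat Z := by
    rintro v ⟨h1, P, h2, h3⟩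
    refine ⟨⟨P, h2, h3⟩, fun Q hQ => hQ.1, fun A hA B hB => ?_⟩
    obtain ⟨v', rfl, e⟩ := exists_blowup g v h1
    rw [← e] at hA hB
    rcases (hZ A hA.1).mem_SS hA.2 with a | a <;> rcases (hZ B hB.1).mem_SS hB.2 with b | b <;>
      simpa [compat_compl_left, compat_compl_right] using v'.cpt _ a _ b
  refine acyc_transfer (s := fun a b : Set (Finset (ι × Bool)) => a ⊆ b) vle_trans
    (W' := Cl compat Z) (fun v => {P | P ∈ Z ∧ kap g P ∈ SS v}) b ha ?_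
    (fun x _ y _ hxy P hP => ⟨hP.1, hxy hP.2⟩) ?_ (Or.inl ?_)
    (h.sound compat_symm compat_refl n hn)
  · intro σ hσ
    obtain ⟨P, hP⟩ := hσ.1
    exact ⟨by rw [St, Set.mem_ofPred_eq, hb σ hσ]; exact Set.subset_union_right,
      P, hσ.2.1 hP, by rw [hb σ hσ]; exact Or.inl ⟨P, hP, rfl⟩⟩
  · intro x hx y hy hxy
    rw [vle, hb x hx, hb y hy]
    exact Set.union_subset_union_left _ (Set.image_mono hxy)
  · intro v hv
    rw [vle, hb _ (ha v hv)]
    refine Set.union_subset ?_ hv.1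
    rintro _ ⟨P, hP, rfl⟩
    exact hP.2

lemma rel_step (g : Out (FreeGroup ι)) (Γ : Set (Out (FreeGroup ι))) {n : ℕ}
    (h : Acyc vle (XX Γ ∩ St g) n) : RelA vle (XX (insert g Γ)) (XX Γ) n := by
  refine relA_union (B := St g) (fun v hv => ⟨g, Or.inl rfl, hv⟩) ?_
    (acyc_cone (v := rose g) (by simp [St, SS_rose]) (fun x hx => by rwa [vle, SS_rose]) _) h
  intro l hl
  obtain ⟨x, t, rfl⟩ := Sx_succ hl
  obtain ⟨⟨g', h1 | h1, h2⟩, ht⟩ := cons_mem_Sx.1 hl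
  · right
    subst h1
    refine cons_mem_Sx.2 ⟨h2, Sx_mono (fun y hy => ?_) _ ht⟩
    exact ⟨Set.Subset.trans h2 hy.2, hy.2⟩
  · left
    refine cons_mem_Sx.2 ⟨⟨g', h1, h2⟩, Sx_mono (fun y hy => ?_) _ ht⟩
    exact ⟨⟨g', h1, Set.Subset.trans h2 hy.2⟩, hy.2⟩

lemma XX_insert_of_eq {g g' : Out (FreeGroup ι)} {Γ : Set (Out (FreeGroup ι))} (h1 : g' ∈ Γ)
    (h2 : Bs g' = Bs g) : XX (insert g Γ) = XX Γ := by
  refine Set.Subset.antisymm ?_ (XX_mono (Set.subset_insert _ _))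
  rintro v ⟨a, rfl | ha, hv⟩
  exacts [⟨g', h1, h2 ▸ hv⟩, ⟨a, ha, hv⟩]

lemma swap_mem {g : Out (FreeGroup ι)} {v : Vert ι} (hv : v ∈ St g) {P : Finset (ι × Bool)}
    (hP : kap g P ∈ SS v) {i : ι} (hs : Sep P (i, true) (i, false)) :
    ∃ g', Bs g' ⊆ SS v ∧ mu g' + cc g {(i, true)} = mu g + cc g P := by
  obtain ⟨e, e1, e2, rfl⟩ := sep_orient hs
  exact ⟨_, (Bs_wh e1 e2 g).trans (Set.insert_subset hP hv), mu_wh e1 e2 g⟩

lemma asc_step [Nonempty ι] (g : Out (FreeGroup ι)) (Γ : Set (Out (FreeGroup ι)))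
    (h1 : ∀ g' ∈ Γ, mu g ≤ mu g') (h2 : ∀ g', mu g < mu g' → g' ∈ Γ) {n : ℕ}
    (hn : n + 4 ≤ 2 * Fintype.card ι) : RelA vle (XX (insert g Γ)) (XX Γ) n := by
  by_cases hex : ∃ g' ∈ Γ, Bs g' = Bs g
  · obtain ⟨g', a, b⟩ := hex
    rw [XX_insert_of_eq a b]; exact relA_refl _ _
  refine rel_step g Γ ?_
  have hI := asc_IC (x := fun i : ι => (i, true)) (y := fun i => (i, false))
    (h := fun i => cc g {(i, true)}) (cut_cc g) (by simp) (fun _ => rfl)
    (fun i => by rw [cc, kap_fst, cc])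
  have hZ : ∀ P ∈ {P | Edge (fun z => {z}) P ∧ ∃ i, Sep P (i, true) (i, false) ∧
      cc g {(i, true)} ≤ cc g P}, Intr P := fun P hP => intr_of_ne hP.1.2.1 hP.1.2.2.1 hP.1.2.2.2
  convert acyc_link g hZ hI (n := n) (by simp only [Fintype.card_prod, Fintype.card_bool]; omega)
    using 1
  ext v
  constructor
  · rintro ⟨⟨g', a1, a2⟩, hv⟩
    refine ⟨hv, ?_⟩
    obtain ⟨v', rfl, e⟩ := exists_blowup g v hv
    rw [← e] at a2 ⊢
    obtain ⟨Q, q1, i, q2, q3⟩ := exchange_up a2 (fun h => hex ⟨g', a1, h⟩) (h1 g' a1)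
    exact ⟨Q, ⟨⟨by simp [Sat], intr_of_cc q2 q3.ne'⟩, i, q2, q3.le⟩, Or.inl ⟨Q, q1, rfl⟩⟩
  · rintro ⟨hv, P, hP, h3⟩
    obtain ⟨_, i, q2, q3⟩ := id hP
    obtain ⟨g', a1, a2⟩ := swap_mem hv h3 q2
    have : cc g {(i, true)} < cc g P :=
      lt_of_le_of_ne q3 (fun h => (hZ P hP).kap_ne g _ (val_inj h).symm)
    exact ⟨⟨g', h2 g' (lt_of_exch a2 this), a1⟩, hv⟩

lemma desc_step [Nonempty ι] (g : Out (FreeGroup ι)) (Γ : Set (Out (FreeGroup ι)))
    (h1 : ∀ g' ∈ Γ, mu g' ≤ mu g) (h2 : ∀ g', mu g' < mu g → g' ∈ Γ) (n : ℕ) :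
    RelA vle (XX (insert g Γ)) (XX Γ) (n + 1) := by
  by_cases hex : ∃ g' ∈ Γ, Bs g' = Bs g
  · obtain ⟨g', a, b⟩ := hex
    rw [XX_insert_of_eq a b]; exact relA_refl _ _
  refine rel_step g Γ ?_
  let Z := {P | Red (cc g) (fun i : ι => (i, true)) (fun i => (i, false))
    (fun i => cc g {(i, true)}) P}
  have hZ : ∀ P ∈ Z, Intr P := by
    rintro P ⟨i, q2, q3⟩
    obtain ⟨a, b, c⟩ := intr_of_cc q2 q3.ne
    exact intr_of_ne a b c
  have e : XX Γ ∩ St g = {v | v ∈ St g ∧ ∃ P ∈ Z, kap g P ∈ SS v} := by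
    ext v
    constructor
    · rintro ⟨⟨g', a1, a2⟩, hv⟩
      refine ⟨hv, ?_⟩
      obtain ⟨v', rfl, e⟩ := exists_blowup g v hv
      rw [← e] at a2 ⊢
      obtain ⟨Q, q1, i, q2, q3⟩ := exchange_down a2 (fun h => hex ⟨g', a1, h⟩) (h1 g' a1)
      exact ⟨Q, ⟨i, q2, q3⟩, Or.inl ⟨Q, q1, rfl⟩⟩
    · rintro ⟨hv, P, ⟨i, q2, q3⟩, h3⟩
      obtain ⟨g', a1, a2⟩ := swap_mem hv h3 q2
      exact ⟨⟨g', h2 g' (lt_of_exch a2.symm q3), a1⟩, hv⟩
  rw [e]
  by_cases hne : ∃ P, P ∈ Z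
  · exact acyc_link g hZ (desc_IC (cut_cc g) hne n) (by simp)
  · convert acyc_empty (r := vle (ι := ι)) n
    ext v
    simp only [Set.mem_ofPred_eq, Set.mem_empty_iff_false, iff_false]
    exact fun ⟨_, P, hP, _⟩ => hne ⟨P, hP⟩

/-- The filtration by neighbourhoods of infinity. -/
def Xn (ι : Type*) [DecidableEq ι] [Fintype ι] (j : ℕ) : Set (Vert ι) := XX {g | (j : ℤ) ≤ mu0 g}

lemma Xn_zero : Xn ι 0 = Set.univ :=
  Set.eq_univ_of_forall fun v => ⟨v.g, mu0_nonneg _, mem_St_self v⟩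

lemma Xn_anti {i j : ℕ} (h : i ≤ j) : Xn ι j ⊆ Xn ι i :=
  XX_mono fun g hg => le_trans (by exact_mod_cast h : (i : ℤ) ≤ j) hg

theorem rel_Xn [Nonempty ι] {i j n : ℕ} (hij : i ≤ j) (hn : n + 4 ≤ 2 * Fintype.card ι) :
    RelA vle (Xn ι i) (Xn ι j) n := by
  have key : ∀ S : Set (Out (FreeGroup ι)), S.Finite → (∀ g ∈ S, mu0 g < j) →
      (∀ g ∈ S, ∀ g', mu g < mu g' → mu0 g' < j → g' ∈ S) →
      RelA vle (XX ({g | (j : ℤ) ≤ mu0 g} ∪ S)) (Xn ι j) n := by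
    intro S hS
    refine set_ind_min mu (p := fun S => (∀ g ∈ S, mu0 g < j) →
      (∀ g ∈ S, ∀ g', mu g < mu g' → mu0 g' < j → g' ∈ S) →
      RelA vle (XX ({g | (j : ℤ) ≤ mu0 g} ∪ S)) (Xn ι j) n) ?_ ?_ hS
    · intro _ _; rw [Set.union_empty]; exact relA_refl _ _
    · intro a S ha hmin ih s1 s2
      have t2 : ∀ g ∈ insert a S, ∀ g', mu g < mu g' → mu a < mu g' → mu0 g' < j → g' ∈ S := by
        intro g hg g' b1 b2 b3
        rcases s2 g hg g' b1 b3 with rfl | h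
        exacts [absurd b2 (lt_irrefl _), h]
      rw [Set.union_insert]
      refine (asc_step a _ ?_ ?_ hn).trans (ih (fun g hg => s1 g (Or.inr hg))
        (fun g hg g' b1 => t2 g (Or.inr hg) g' b1 ((hmin g hg).trans_lt b1)))
        (XX_mono (Set.subset_insert _ _)) (XX_mono Set.subset_union_left)
      · rintro g' (h | h)
        exacts [(mu_lt ((s1 a (Or.inl rfl)).trans_le h)).le, hmin g' h]
      · intro g' h
        by_cases b : mu0 g' < j
        exacts [Or.inr (t2 a (Or.inl rfl) g' h h b), Or.inl (not_lt.1 b)]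
  have hf : {g : Out (FreeGroup ι) | (i : ℤ) ≤ mu0 g ∧ mu0 g < j}.Finite :=
    (mu0_proper j).subset fun g hg => hg.2.le
  have := key _ hf (fun g hg => hg.2) (fun g hg g' b1 b2 => ⟨hg.1.trans (mu0_le b1.le), b2⟩)
  have e : {g : Out (FreeGroup ι) | (j : ℤ) ≤ mu0 g} ∪ {g | (i : ℤ) ≤ mu0 g ∧ mu0 g < j}
      = {g | (i : ℤ) ≤ mu0 g} := by
    ext g
    simp only [Set.mem_ofPred_eq, Set.mem_union]
    omega
  rwa [e] at this

lemma acyc_high [Nonempty ι] (n : ℕ) : Acyc vle (Set.univ : Set (Vert ι)) (n + 2) := by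
  classical
  have key : ∀ S : Set (Out (FreeGroup ι)), S.Finite → (∀ g ∈ S, ∀ g', mu g' < mu g → g' ∈ S) →
      Acyc vle (XX S) (n + 2) := by
    intro S hS
    refine set_ind_min (fun g => OrderDual.toDual (mu g))
      (p := fun S => (∀ g ∈ S, ∀ g', mu g' < mu g → g' ∈ S) → Acyc vle (XX S) (n + 2)) ?_ ?_ hS
    · intro _; simpa [XX] using acyc_empty (n + 1)
    · intro a S ha hmax ih s2
      replace hmax : ∀ x ∈ S, mu x ≤ mu a := hmax
      have t2 : ∀ g ∈ insert a S, ∀ g', mu g' < mu g → mu g' < mu a → g' ∈ S := by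
        intro g hg g' b1 b2
        rcases s2 g hg g' b1 with rfl | h
        exacts [absurd b2 (lt_irrefl _), h]
      exact (desc_step a _ hmax (fun g' h => t2 a (Or.inl rfl) g' h h) n).acyc
        (XX_mono (Set.subset_insert _ _))
        (ih fun g hg g' b1 => t2 g (Or.inr hg) g' b1 (b1.trans_le (hmax g hg)))
  intro z hz h0
  obtain ⟨B, hB⟩ : ∃ B : ℤ, ∀ l ∈ z.support, ∀ v ∈ l, mu0 v.g ≤ B := by
    obtain ⟨B, hB⟩ := ((z.support.biUnion List.toFinset).image fun v => mu0 v.g).bddAbove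
    refine ⟨B, fun l hl v hv => hB ?_⟩
    simp only [Finset.coe_image, Set.mem_image, Finset.mem_coe, Finset.mem_biUnion,
      List.mem_toFinset]
    exact ⟨v, ⟨l, hl, hv⟩, rfl⟩
  have hf := mu0_proper (ι := ι) B
  obtain ⟨y, y1, y2⟩ := key _ hf (fun g hg g' b => (mu0_le b.le).trans hg) z
    (fun l hl => ⟨(hz hl).1, fun v hv => ⟨v.g, hB l hl v hv, mem_St_self v⟩, (hz hl).2.2⟩) h0
  exact ⟨y, Ch_mono (Set.subset_univ _) _ y1, y2⟩

/-- Two vertices are homologous. -/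
def Conn (x y : Vert ι) : Prop :=
  ∃ c ∈ Ch vle (Set.univ : Set (Vert ι)) 2, bd c = Finsupp.single [x] 1 - Finsupp.single [y] 1

lemma Conn.symm {x y : Vert ι} (h : Conn x y) : Conn y x := by
  obtain ⟨c, h1, h2⟩ := h
  exact ⟨-c, neg_mem h1, by rw [map_neg, h2, neg_sub]⟩

lemma Conn.trans {x y z : Vert ι} (h : Conn x y) (h' : Conn y z) : Conn x z := by
  obtain ⟨c, h1, h2⟩ := h
  obtain ⟨d, h3, h4⟩ := h'
  exact ⟨c + d, add_mem h1 h3, by rw [map_add, h2, h4]; abel⟩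

lemma conn_of_le {x y : Vert ι} (h : vle x y) : Conn y x :=
  ⟨Finsupp.single [x, y] 1, single_mem_Ch ⟨rfl, by simp, by simpa using h⟩ 1, by simp [bdL]⟩

lemma acyc_low : Acyc vle (Set.univ : Set (Vert ι)) 1 := by
  refine acyc_one (v := rose 1) (fun x _ => ?_)
  refine (conn_of_le (x := rose x.g) (by rw [vle, SS_rose]; exact mem_St_self x)).trans ?_
  obtain ⟨φ, hφ⟩ := omk_surj x.g
  rw [← hφ]
  refine nielsen_ind (C := fun φ => Conn (rose (omk φ)) (rose 1)) ?_ ?_ φ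
  · intro θ h
    obtain ⟨v', a1, _, a3⟩ := relabel_of_letters h (rose 1)
    refine conn_of_le ?_
    rw [vle, SS_rose, SS_rose]
    simp only [rose, one_mul] at a1 a3
    rw [← a1, a3]
  · intro φ e a h hC
    rw [Ne, fst_eq_iff, not_or] at h
    let v : Vert ι := ⟨omk φ, {{e, a}}, by simp [compat_refl]⟩
    have b1 : vle (rose (omk φ)) v := by rw [vle, SS_rose]; exact mem_St_self v
    have b2 : vle (rose (omk (φ * wh {e, a} e))) v := by
      rw [vle, SS_rose, omk_mul]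
      refine (Bs_wh (by simp) (by simp [bar_ne, Ne.symm h.2]) _).trans ?_
      exact Set.insert_subset (Or.inl ⟨_, rfl, rfl⟩) (mem_St_self v)
    exact (conn_of_le b1).symm.trans ((conn_of_le b2).trans hC)

theorem acyc_all [Nonempty ι] : ∀ n, Acyc vle (Set.univ : Set (Vert ι)) n
  | 0 => acyc_zero ⟨rose 1, trivial⟩
  | 1 => acyc_low
  | n + 2 => acyc_high n

lemma finite_vert {Γ : Set (Out (FreeGroup ι))} (h : Γ.Finite) : {v : Vert ι | v.g ∈ Γ}.Finite := by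
  refine Set.Finite.preimage (f := fun v : Vert ι => (v.g, v.F)) ?_
    (h.prod (Set.toFinite Set.univ)) |>.subset (fun v hv => ⟨hv, trivial⟩)
  intro a _ b _ hab
  exact Vert.ext (congrArg Prod.fst hab) (congrArg Prod.snd hab)

lemma finite_compl_Xn (j : ℕ) : (Xn ι j)ᶜ.Finite :=
  (finite_vert (mu0_proper j)).subset fun v hv =>
    show mu0 v.g ≤ j from le_of_not_ge fun h => hv ⟨v.g, h, mem_St_self v⟩

lemma star_away (g : Out (FreeGroup ι)) : ∃ j, St g ⊆ (Xn ι j)ᶜ := by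
  obtain ⟨B, hB⟩ := (Set.finite_range fun Q => val0 (kap g Q)).bddAbove
  refine ⟨(Fintype.card ι * B + 1).toNat, ?_⟩
  rintro v hv ⟨g', a1, a2⟩
  obtain ⟨v', rfl, e⟩ := exists_blowup g v hv
  rw [← e] at a2
  have : mu0 g' ≤ Fintype.card ι * B := by
    rw [mu0, len, map_sum]
    refine (Finset.sum_le_card_nsmul _ _ B fun i _ => ?_).trans (by simp)
    rcases a2 ⟨(i, true), rfl⟩ with ⟨Q, _, q⟩ | ⟨y, q⟩
    exacts [hB ⟨Q, congrArg val0 q⟩, hB ⟨{y}, congrArg val0 q⟩]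
  simp only [Set.mem_ofPred_eq] at a1
  omega

lemma finite_St (g : Out (FreeGroup ι)) : (St g).Finite := by
  obtain ⟨j, hj⟩ := star_away g
  exact (finite_compl_Xn j).subset hj

lemma finite_above (v : Vert ι) : {w | vle v w}.Finite :=
  (finite_St v.g).subset fun w hw => Set.Subset.trans (mem_St_self v) hw

instance : MulAction (Out (FreeGroup ι)) (Vert ι) where
  smul k v := ⟨k * v.g, v.F, v.cpt⟩
  one_smul v := Vert.ext (one_mul _) rfl
  mul_smul a b v := Vert.ext (mul_assoc _ _ _) rfl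

lemma smul_g (k : Out (FreeGroup ι)) (v : Vert ι) : (k • v).g = k * v.g := rfl

lemma vle_smul (k : Out (FreeGroup ι)) (v w : Vert ι) (h : vle v w) : vle (k • v) (k • w) := by
  obtain ⟨ψ, rfl⟩ := omk_surj k
  have : ∀ v : Vert ι, SS (omk ψ • v) = (fun f => f ∘ ⇑(ψ⁻¹)) '' SS v := by
    intro v
    rw [SS, SS, Set.image_union, Set.image_image, Bs, Bs, ← Set.range_comp, smul_g]
    congr 1
    · exact Set.image_congr fun Q _ => kap_left _ _ _
    · exact congrArg Set.range (funext fun y => kap_left _ _ _)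
  rw [vle, this, this]
  exact Set.image_mono h

end OutFn
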