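import Pool.Agent.Lib.MP_e47d8d_al.Ell

/-! Whitehead moves and signed permutations. -/

set_option linter.unusedSectionVars false
set_option linter.unusedVariables false

noncomputable section

namespace OutFn

open FreeGroup hiding map_mul map_one map_inv

variable {ι : Type*} [DecidableEq ι]

/-- `t` on `P`, trivial elsewhere. -/
def tt (P : Finset (ι × Bool)) (t : FreeGroup ι) (y : ι × Bool) : FreeGroup ι :=
  if y ∈ P then t else 1

/-- Whitehead endomorphism. -/
def whH (P : Finset (ι × Bool)) (e : ι × Bool) (t : FreeGroup ι) : FreeGroup ι →* FreeGroup ι :=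
  lift fun i => if i = e.1 then of i else (tt P t (i, true))⁻¹ * of i * tt P t (i, false)

lemma whH_gen (P : Finset (ι × Bool)) (e : ι × Bool) (t : FreeGroup ι) (y : ι × Bool) :
    whH P e t (gen y) = if y.1 = e.1 then gen y else (tt P t y)⁻¹ * gen y * tt P t (bar y) := by
  obtain ⟨i, b⟩ := y
  cases b
  · have : gen (i, false) = (of i)⁻¹ := gen_bar (i, true)
    rw [this, map_inv, whH, lift_apply_of]
    split_ifs <;> simp [bar, mul_assoc]
  · rw [gen_true, whH, lift_apply_of]; rfl

lemma whH_comp (P : Finset (ι × Bool)) (e : ι × Bool) {t : FreeGroup ι}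
    (ht : whH P e t⁻¹ t = t) : (whH P e t⁻¹).comp (whH P e t) = MonoidHom.id _ := by
  ext i
  simp only [MonoidHom.comp_apply, MonoidHom.id_apply, ← gen_true, whH_gen]
  split_ifs with h
  · rw [whH_gen, if_pos h]
  · simp only [map_mul, map_inv, whH_gen, if_neg h, tt]
    split_ifs <;> simp [ht, mul_assoc]

/-- Whitehead automorphism. -/
def wh (P : Finset (ι × Bool)) (e : ι × Bool) : MulAut (FreeGroup ι) :=
  MonoidHom.toMulEquiv (whH P e (gen e)) (whH P e (gen e)⁻¹)
    (whH_comp P e (by simp [whH_gen]))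
    (by simpa using whH_comp P e (t := (gen e)⁻¹) (by simp [whH_gen]))

lemma wh_gen (P : Finset (ι × Bool)) (e y : ι × Bool) : wh P e (gen y) =
    if y.1 = e.1 then gen y else (tt P (gen e) y)⁻¹ * gen y * tt P (gen e) (bar y) :=
  whH_gen P e (gen e) y

lemma fst_eq_iff {y e : ι × Bool} : y.1 = e.1 ↔ y = e ∨ y = bar e := by
  obtain ⟨a, s⟩ := y
  obtain ⟨b, t⟩ := e
  cases s <;> cases t <;> simp [bar]

lemma fl_dich (e : ι × Bool) (g : FreeGroup ι) :
    (fl g = some (bar e) ∧ fl (gen e * g) ≠ some e) ∨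
      (fl g ≠ some (bar e) ∧ fl (gen e * g) = some e) := by
  by_cases h : fl g = some (bar e)
  exacts [Or.inl ⟨h, fl_gen_mul' h⟩, Or.inr ⟨h, fl_gen_mul h⟩]

/-- Regions for the ping-pong argument. -/
def whR (P : Finset (ι × Bool)) (e y : ι × Bool) (g : FreeGroup ι) : Prop :=
  (y = e ∧ ∃ z ∈ P, fl g = some z) ∨ (y = bar e ∧ ¬∃ z ∈ P, fl (gen e * g) = some z) ∨
    (y ≠ e ∧ y ∈ P ∧ fl (gen e * g) = some y) ∨ (y ≠ bar e ∧ y ∉ P ∧ fl g = some y)

lemma wh_pingpong {P : Finset (ι × Bool)} {e : ι × Bool} (h1 : e ∈ P) (h2 : bar e ∉ P)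
    (g : FreeGroup ι) (y : ι × Bool) (h : fl g = some y) : whR P e y (wh P e g) := by
  refine pingpong (wh P e).toMonoidHom (whR P e) ?_ ?_ ?_ g y h
  · intro y z g hy hz
    have := fl_dich e g
    unfold whR at hy hz
    generalize fl g = o1 at *
    generalize fl (gen e * g) = o2 at *
    grind
  · intro y hy
    have := fl_gen e
    simp only [whR, mul_one, fl_one, this] at hy
    grind
  · intro y g hR
    simp only [MulEquiv.toMonoidHom_eq_coe, MonoidHom.coe_coe, wh_gen]
    by_cases e1 : y = e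
    · subst e1
      rw [if_pos rfl]
      left
      refine ⟨rfl, ?_⟩
      by_contra hh
      exact hR (Or.inr (Or.inl ⟨rfl, hh⟩))
    by_cases e2 : y = bar e
    · subst e2
      rw [if_pos (fst_eq_iff.2 (Or.inr rfl))]
      right; left
      refine ⟨rfl, fun hh => hR (Or.inl ⟨bar_bar e, ?_⟩)⟩
      rwa [gen_bar, mul_inv_cancel_left] at hh
    rw [if_neg (by rw [fst_eq_iff]; tauto)]
    have k : fl (gen y * (tt P (gen e) (bar y) * g)) = some y := by
      refine fl_gen_mul (fun hh => hR ?_)
      right; right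
      unfold tt at hh
      split_ifs at hh with h3
      · exact Or.inl ⟨fun h => e2 (bar_eq_iff.1 h), h3, hh⟩
      · exact Or.inr ⟨fun h => e1 (bar_inj.1 h), h3, by simpa using hh⟩
    right; right
    by_cases h3 : y ∈ P
    · exact Or.inl ⟨e1, h3, by simpa [tt, h3, mul_assoc] using k⟩
    · exact Or.inr ⟨e2, h3, by simpa [tt, h3, mul_assoc] using k⟩

variable [Fintype ι]

/-- Preimage of a set of letters. -/
def pre (f : ι × Bool → ι × Bool) (Q : Finset (ι × Bool)) : Finset (ι × Bool) :=
  Finset.univ.filter fun y => f y ∈ Q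

@[simp] lemma mem_pre {f : ι × Bool → ι × Bool} {Q : Finset (ι × Bool)} {y : ι × Bool} :
    y ∈ pre f Q ↔ f y ∈ Q := by simp [pre]

/-- Collapse of the side that holds the new inverse letter. -/
def pi2 (P : Finset (ι × Bool)) (e y : ι × Bool) : ι × Bool :=
  if y ∈ P ∧ y ≠ e then bar e else y

/-- Collapse of the side that holds the new letter. -/
def pi1 (P : Finset (ι × Bool)) (e y : ι × Bool) : ι × Bool :=
  if y ∈ P ∨ y = bar e then y else e

lemma ell_wh2 {P Q : Finset (ι × Bool)} {e : ι × Bool} (h1 : e ∈ P) (h2 : bar e ∉ P)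
    (hQ : (∀ z ∈ P, z ∈ Q) ∨ (∀ z ∈ P, z ∉ Q)) (w : FreeGroup ι) :
    ell (pre (pi2 P e) Q) w = ell Q (wh P e w) := by
  refine ell_transport (wh P e) 1 (b := False) (b' := False) (fun g => ?_) w
  rw [one_mul]
  cases hg : fl g with
  | none => rw [fl_eq_none.1 hg, map_one, fl_one]; rfl
  | some y =>
    have h3 := wh_pingpong h1 h2 g y hg
    have h4 := fl_dich e (wh P e g)
    unfold whR at h3
    generalize fl (gen e * wh P e g) = o2 at *
    cases h5 : fl (wh P e g) with
    | none => rw [h5] at h3 h4; grind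
    | some z =>
      rw [h5] at h3 h4
      simp only [pOf, mem_pre, pi2]
      grind

lemma ell_wh1 {P Q : Finset (ι × Bool)} {e : ι × Bool} (h1 : e ∈ P) (h2 : bar e ∉ P)
    (hQ : (∀ z, z ∉ P → z ∈ Q) ∨ (∀ z, z ∉ P → z ∉ Q)) (w : FreeGroup ι) :
    ell (pre (pi1 P e) Q) w = ell Q (wh P e w) := by
  refine ell_transport (wh P e) (gen e) (b := bar e ∈ Q) (b' := e ∈ Q) (fun g => ?_) w
  cases hg : fl g with
  | none => rw [fl_eq_none.1 hg, map_one, mul_one, fl_gen]; rfl
  | some y =>
    have h3 := wh_pingpong h1 h2 g y hg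
    have h4 := fl_dich e (wh P e g)
    unfold whR at h3
    generalize fl (wh P e g) = o1 at *
    cases h5 : fl (gen e * wh P e g) with
    | none =>
      rw [h5] at h3 h4
      simp only [pOf, mem_pre, pi1]
      grind
    | some z =>
      rw [h5] at h3 h4
      simp only [pOf, mem_pre, pi1]
      grind

lemma exists_sigma {θ : MulAut (FreeGroup ι)} (h : ∀ i, ∃ c, θ (of i) = gen c) :
    ∃ σ : ι × Bool → ι × Bool, Function.Bijective σ ∧ ∀ y, θ (gen y) = gen (σ y) := by
  choose c hc using h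
  have key : ∀ y : ι × Bool, θ (gen y) = gen (if y.2 then c y.1 else bar (c y.1)) := by
    rintro ⟨i, b⟩
    cases b
    · have : gen (i, false) = (of i)⁻¹ := gen_bar (i, true)
      simp [this, hc, gen_bar]
    · simp [gen_true, hc]
  refine ⟨_, Finite.injective_iff_bijective.1 (fun a b hab => ?_), key⟩
  apply gen_injective
  apply θ.injective
  rw [key, key]
  exact congrArg gen hab

lemma ell_sigma {θ : MulAut (FreeGroup ι)} {σ : ι × Bool → ι × Bool} (hσ : Function.Injective σ)
    (h : ∀ y, θ (gen y) = gen (σ y)) (Q : Finset (ι × Bool)) (w : FreeGroup ι) :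
    ell (pre σ Q) w = ell Q (θ w) := by
  have hb : ∀ y, σ (bar y) = bar (σ y) := fun y =>
    gen_injective (by rw [← h, gen_bar, gen_bar, map_inv, h])
  refine ell_transport θ 1 (b := False) (b' := False) (fun g => ?_) w
  rw [one_mul]
  cases hg : fl g with
  | none => rw [fl_eq_none.1 hg, map_one, fl_one]; rfl
  | some y =>
    have := pingpong θ.toMonoidHom (fun y g => fl g = some (σ y))
      (fun y z g h1 h2 => hσ (Option.some.inj (h1.symm.trans h2))) (by simp)
      (fun y g hh => by
        simp only [MulEquiv.toMonoidHom_eq_coe, MonoidHom.coe_coe, h]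
        exact fl_gen_mul (by rwa [← hb])) g y hg
    simp only [MulEquiv.toMonoidHom_eq_coe, MonoidHom.coe_coe] at this
    simp [this, pOf]

end OutFn
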