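import Pool.Agent.Lib.MP_e47d8d_al.Moves

/-! Nielsen reduction. -/

set_option linter.unusedSectionVars false
set_option linter.unusedVariables false

noncomputable section

namespace OutFn

open FreeGroup hiding map_mul map_one map_inv

variable {ι : Type*} [DecidableEq ι]

/-- Length of the longest common initial segment. -/
def cp : List (ι × Bool) → List (ι × Bool) → ℕ
  | x :: l, y :: m => if x = y then cp l m + 1 else 0
  | _, _ => 0

lemma cp_comm : ∀ l m : List (ι × Bool), cp l m = cp m l
  | [], [] => rfl
  | [], _ :: _ => rfl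
  | _ :: _, [] => rfl
  | x :: l, y :: m => by simp only [cp, cp_comm l m, eq_comm]

lemma cp_le : ∀ l m : List (ι × Bool), cp l m ≤ l.length
  | [], _ => by simp [cp]
  | _ :: _, [] => by simp [cp]
  | x :: l, y :: m => by
    have := cp_le l m
    simp only [cp, List.length_cons]; split_ifs <;> omega

lemma take_cp : ∀ (k : ℕ) (l m : List (ι × Bool)), k ≤ cp l m → l.take k = m.take k
  | 0, _, _ => by simp
  | k + 1, [], _ => by simp [cp]
  | k + 1, _ :: _, [] => by simp [cp]
  | k + 1, x :: l, y :: m => by
    simp only [cp, List.take_succ_cons]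
    split_ifs with h
    · intro hk; rw [h, take_cp k l m (by omega)]
    · omega

lemma le_cp : ∀ (k : ℕ) (l m : List (ι × Bool)), k ≤ l.length → l.take k = m.take k → k ≤ cp l m
  | 0, _, _ => by simp
  | k + 1, [], _ => by simp
  | k + 1, _ :: _, [] => by simp
  | k + 1, x :: l, y :: m => by
    simp only [cp, List.take_succ_cons, List.length_cons, List.cons.injEq]
    rintro h1 ⟨h2, h3⟩
    have := le_cp k l m (by omega) h3
    rw [if_pos h2]; omega

lemma isReduced_invRev {l : List (ι × Bool)} (h : IsReduced l) : IsReduced (invRev l) := by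
  rw [← toWord_mk_of h, ← toWord_inv]; exact isReduced_toWord

lemma toWord_inv_mul_mk : ∀ l m : List (ι × Bool), IsReduced l → IsReduced m →
    ((mk l)⁻¹ * mk m).toWord = invRev (l.drop (cp l m)) ++ m.drop (cp l m)
  | [], m, _, hm => by simp [cp, ← one_eq_mk, hm.reduce_eq]
  | x :: l, [], hl, _ => by simp [cp, ← one_eq_mk, (isReduced_invRev hl).reduce_eq]
  | x :: l, y :: m, hl, hm => by
    by_cases h : x = y
    · subst h
      have := toWord_inv_mul_mk l m (isReduced_cons.1 hl).2 (isReduced_cons.1 hm).2
      simp only [cp, if_true, List.drop_succ_cons, mk_cons, ← this]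
      congr 1; group
    · simp only [cp, if_neg h, List.drop_zero]
      rw [inv_mk, mul_mk]
      refine toWord_mk_of (List.isChain_append.2 ⟨isReduced_invRev hl, hm, ?_⟩)
      intro s hs t ht
      rw [invRev_cons, invRev_single, List.getLast?_concat] at hs
      simp only [Option.mem_def, Option.some.injEq, List.head?_cons] at hs ht
      rw [rel_iff, ← hs, ← ht, bar_bar]; exact Ne.symm h

lemma toWord_inv_mul (u v : FreeGroup ι) : (u⁻¹ * v).toWord =
    invRev (u.toWord.drop (cp u.toWord v.toWord)) ++ v.toWord.drop (cp u.toWord v.toWord) := by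
  simpa [mk_toWord] using toWord_inv_mul_mk u.toWord v.toWord isReduced_toWord isReduced_toWord

lemma invRev_drop (l : List (ι × Bool)) (k : ℕ) :
    invRev (l.drop k) = (invRev l).take (l.length - k) := by
  conv_rhs => rw [← List.take_append_drop k l, invRev_append]
  rw [List.take_left' (by simp)]

lemma norm_lt_sq {w : FreeGroup ι} (h : w ≠ 1) : norm w < norm (w * w) := by
  have h1 := congrArg List.length (reduceCyclically.conj_conjugator_reduceCyclically w.toWord)
  have h2 := congrArg List.length
    (reduceCyclically.reduce_flatten_replicate_succ (isReduced_toWord (x := w)) 1)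
  rw [← toWord_pow, pow_two] at h2
  have h3 : (reduceCyclically w.toWord).length ≠ 0 := by
    intro h0
    obtain ⟨u, hu⟩ := core_conj w
    rw [core, List.length_eq_zero_iff.1 h0, ← one_eq_mk] at hu
    exact h (by simpa using hu)
  simp only [List.length_append, List.replicate, List.flatten_cons, List.flatten_nil,
    List.length_nil] at h1 h2
  unfold FreeGroup.norm; omega

variable [Fintype ι]

/-- Reduced word of the image of a letter. -/
def uu (φ : MulAut (FreeGroup ι)) (y : ι × Bool) : List (ι × Bool) := (φ (gen y)).toWord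

lemma uu_bar (φ : MulAut (FreeGroup ι)) (y : ι × Bool) : uu φ (bar y) = invRev (uu φ y) := by
  rw [uu, gen_bar, map_inv, toWord_inv]; rfl

/-- Largest overlap with the image of another letter. -/
def mm (φ : MulAut (FreeGroup ι)) (y : ι × Bool) : ℕ :=
  (Finset.univ.erase y).sup fun a => cp (uu φ y) (uu φ a)

lemma le_mm (φ : MulAut (FreeGroup ι)) {y a : ι × Bool} (h : a ≠ y) :
    cp (uu φ y) (uu φ a) ≤ mm φ y :=
  Finset.le_sup (f := fun a => cp (uu φ y) (uu φ a)) (by simp [h])

lemma letters_of_reduced (φ : MulAut (FreeGroup ι))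
    (hN : ∀ y, mm φ y + mm φ (bar y) < (uu φ y).length) (i : ι) : ∃ c, φ (of i) = gen c := by
  let R : ι × Bool → FreeGroup ι → Prop := fun y g => mm φ y < cp (uu φ y) g.toWord
  have hd : ∀ y z g, R y g → R z g → y = z := by
    intro y z g h1 h2
    by_contra hne
    have a1 := le_mm φ hne
    have a2 := le_mm φ (Ne.symm hne)
    rw [cp_comm] at a1
    have a3 := cp_le (uu φ y) g.toWord
    have := le_cp (min (mm φ y) (mm φ z) + 1) (uu φ y) (uu φ z) (by simp only [R] at h1; omega)
      ((take_cp _ _ _ (by simp only [R] at h1; omega)).trans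
        (take_cp _ _ g.toWord (by simp only [R] at h2; omega)).symm)
    omega
  have h1 : ∀ y, ¬R y 1 := by
    intro y; simp only [R, toWord_one]; cases uu φ y <;> simp [cp]
  have hw : ∀ y g, (φ (gen y) * g).toWord = (uu φ y).take ((uu φ y).length -
      cp (uu φ (bar y)) g.toWord) ++ g.toWord.drop (cp (uu φ (bar y)) g.toWord) := by
    intro y g
    have := toWord_inv_mul (φ (gen (bar y))) g
    rw [gen_bar, map_inv, inv_inv, ← map_inv, ← gen_bar] at this
    rw [this]
    change invRev ((uu φ (bar y)).drop _) ++ _ = _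
    rw [invRev_drop, uu_bar, invRev_invRev, invRev_length, ← uu_bar]
    rfl
  have h2 : ∀ y g, ¬R (bar y) g → R y (φ.toMonoidHom (gen y) * g) := by
    intro y g hR
    simp only [R, not_lt, MulEquiv.toMonoidHom_eq_coe, MonoidHom.coe_coe] at hR ⊢
    have := hN y
    rw [hw]
    refine lt_of_lt_of_le ?_ (le_cp ((uu φ y).length - cp (uu φ (bar y)) g.toWord) _ _
      (by omega) ?_)
    · omega
    · rw [List.take_left' (by simp)]
  have pp : ∀ g y, fl g = some y → R y (φ g) := pingpong φ.toMonoidHom R hd h1 h2
  have ex : ∀ x, ∃ y, fl (φ⁻¹ (gen x)) = some y := by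
    intro x
    cases h : fl (φ⁻¹ (gen x)) with
    | none =>
      have := fl_gen x
      rw [fl_eq_none, map_eq_one_iff _ (φ⁻¹).injective] at h
      simp [h] at this
    | some y => exact ⟨y, rfl⟩
  choose Y hY using ex
  have hY1 : ∀ x, mm φ (Y x) = 0 ∧ (uu φ (Y x)).head? = some x := by
    intro x
    have := pp _ _ (hY x)
    simp only [R, MulAut.apply_inv_self, toWord_gen] at this
    cases h : uu φ (Y x) with
    | nil => simp [h, cp] at this
    | cons z l =>
      rw [h] at this
      by_cases e : z = x
      · cases l <;> simp [cp, e] at this ⊢ <;> exact this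
      · simp [cp, e] at this
  have hinj : Function.Injective Y := fun a b h =>
    Option.some.inj ((hY1 a).2.symm.trans (h ▸ (hY1 b).2))
  have hsurj := Finite.injective_iff_surjective.1 hinj
  obtain ⟨x, hx⟩ := hsurj (i, true)
  obtain ⟨x', hx'⟩ := hsurj (bar (i, true))
  obtain ⟨w, w1, w2⟩ := exists_of_fl (hY x)
  rw [hx] at w1 w2
  have hR : ¬R (bar (i, true)) (φ w) := by
    intro hh
    cases h : fl w with
    | none => rw [fl_eq_none.1 h, map_one] at hh; exact h1 _ hh
    | some z => exact w1 (by rw [h, hd _ _ _ (pp w z h) hh])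
  have e1 : φ (gen (i, true)) * φ w = gen x := by rw [← map_mul, ← w2]; simp
  have e2 := congrArg List.length (hw (i, true) (φ w))
  have e3 := (hY1 x').1
  have e4 := hN (i, true)
  rw [hx'] at e3
  simp only [R, not_lt, e3, Nat.le_zero] at hR
  rw [e1, hR, toWord_gen] at e2
  simp only [List.length_append, List.length_take, List.length_cons, List.length_nil] at e2
  exact eq_gen_of_norm (w := φ (gen (i, true))) (by change (uu φ _).length = 1; omega)

/-- Numerical code of a word. -/
def vv : List (ι × Bool) → ℕ
  | [] => 0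
  | x :: l => Fintype.equivFin _ x + Fintype.card (ι × Bool) * vv l

lemma vv_append (p c : List (ι × Bool)) :
    vv (p ++ c) = vv p + Fintype.card (ι × Bool) ^ p.length * vv c := by
  induction p with
  | nil => simp [vv]
  | cons x l ih => simp only [List.cons_append, vv, ih, List.length_cons]; ring

lemma vv_inj : ∀ p q : List (ι × Bool), p.length = q.length → vv p = vv q → p = q
  | [], [] => by simp
  | [], _ :: _ => by simp
  | _ :: _, [] => by simp
  | x :: p, y :: q => by
    intro h1 h2
    simp only [vv] at h2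
    have a1 := (Fintype.equivFin _ x).2
    have a2 := (Fintype.equivFin _ y).2
    have a3 := congrArg (· % Fintype.card (ι × Bool)) h2
    simp only [Nat.add_mul_mod_self_left, Nat.mod_eq_of_lt a1, Nat.mod_eq_of_lt a2] at a3
    rw [a3] at h2
    rw [(Fintype.equivFin _).injective (Fin.ext a3), vv_inj p q (by simpa using h1)
      (Nat.eq_of_mul_eq_mul_left (by omega) (Nat.add_left_cancel h2))]

/-- Code of the left half. -/
def hv (l : List (ι × Bool)) : ℕ := vv (l.take (l.length / 2))

lemma uu_move (φ : MulAut (FreeGroup ι)) {e a : ι × Bool} (h : a.1 ≠ e.1) :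
    uu (φ * wh {e, a} e) a = ((φ (gen e))⁻¹ * φ (gen a)).toWord ∧
      ∀ y, y ≠ a → y ≠ bar a → uu (φ * wh {e, a} e) y = uu φ y := by
  have h' := h
  rw [Ne, fst_eq_iff, not_or] at h'
  constructor
  · have : bar a ≠ e := fun g => h'.2 (bar_eq_iff.1 g)
    simp [uu, wh_gen, h, tt, this, bar_ne]
  · intro y h1 h2
    by_cases g : y.1 = e.1
    · simp [uu, wh_gen, g]
    · have g' := g
      rw [fst_eq_iff, not_or] at g'
      have : bar y ≠ e := fun g => g'.2 (bar_eq_iff.1 g)
      have : bar y ≠ a := fun g => h2 (bar_eq_iff.1 g)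
      simp [uu, wh_gen, tt, *]

lemma sum_move {f g : ι × Bool → ℕ} {a : ι × Bool} (h : ∀ y, y ≠ a → y ≠ bar a → g y = f y)
    (h1 : g a < f a) (h2 : g (bar a) ≤ f (bar a)) : ∑ y, g y < ∑ y, f y := by
  refine Finset.sum_lt_sum (fun y _ => ?_) ⟨a, Finset.mem_univ _, h1⟩
  by_cases e1 : y = a
  · rw [e1]; exact h1.le
  by_cases e2 : y = bar a
  · rw [e2]; exact h2
  · exact (h y e1 e2).le

lemma reduced_of_min (φ : MulAut (FreeGroup ι))
    (hT : ∀ e a : ι × Bool, a.1 ≠ e.1 →
      ∑ y, (uu φ y).length ≤ ∑ y, (uu (φ * wh {e, a} e) y).length)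
    (hW : ∀ e a : ι × Bool, a.1 ≠ e.1 →
      ∑ y, (uu φ y).length = ∑ y, (uu (φ * wh {e, a} e) y).length →
      ∑ y, hv (uu φ y) ≤ ∑ y, hv (uu (φ * wh {e, a} e) y)) (y : ι × Bool) :
    mm φ y + mm φ (bar y) < (uu φ y).length := by
  have lb : ∀ y, (uu φ (bar y)).length = (uu φ y).length := fun y => by simp [uu_bar]
  have lm : ∀ e a, ((φ (gen e))⁻¹ * φ (gen a)).toWord.length + 2 * cp (uu φ e) (uu φ a)
      = (uu φ e).length + (uu φ a).length := by
    intro e a
    have a1 := cp_le (uu φ e) (uu φ a)
    have a2 := cp_le (uu φ a) (uu φ e)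
    rw [cp_comm] at a2
    rw [toWord_inv_mul]
    simp only [List.length_append, invRev_length, List.length_drop, uu] at *
    omega
  have N1 : ∀ e a : ι × Bool, a.1 ≠ e.1 → 2 * cp (uu φ e) (uu φ a) ≤ (uu φ e).length := by
    intro e a h
    by_contra hcon
    obtain ⟨m1, m2⟩ := uu_move φ h
    have := lm e a
    refine absurd (hT e a h) (not_le.2 (sum_move (a := a) (fun y h1 h2 => by rw [m2 y h1 h2])
      (by rw [m1]; omega) ?_))
    rw [uu_bar, uu_bar, invRev_length, invRev_length, m1]; omega
  have N0 : ∀ y, 2 * cp (uu φ y) (uu φ (bar y)) < (uu φ y).length := by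
    intro y
    have a1 := lm (bar y) y
    have : φ (gen y) ≠ 1 := by
      rw [Ne, map_eq_one_iff _ φ.injective]
      intro h; simpa [h] using fl_gen y
    have a2 := norm_lt_sq this
    rw [gen_bar, map_inv, inv_inv, lb, cp_comm] at a1
    unfold FreeGroup.norm at a2
    unfold uu at *
    omega
  have att : ∀ y, ∃ a, a ≠ y ∧ mm φ y = cp (uu φ y) (uu φ a) := by
    intro y
    obtain ⟨a, ha, h⟩ := Finset.exists_mem_eq_sup (Finset.univ.erase y)
      ⟨bar y, by simp [bar_ne]⟩ (fun a => cp (uu φ y) (uu φ a))
    exact ⟨a, by simpa using ha, h⟩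
  have half : ∀ y, 2 * mm φ y ≤ (uu φ y).length := by
    intro y
    obtain ⟨a, h1, h2⟩ := att y
    rw [h2]
    by_cases h3 : a = bar y
    · rw [h3]; exact (N0 y).le
    · exact N1 y a (by rw [Ne, fst_eq_iff]; tauto)
  have main : ∀ y, 2 * mm φ y = (uu φ y).length →
      ¬vv ((uu φ (bar y)).take (mm φ y)) < vv ((uu φ y).take (mm φ y)) := by
    intro y hy hlt
    obtain ⟨a, h1, h2⟩ := att y
    have h3 : a ≠ bar y := by
      rintro rfl
      have := N0 y; omega
    have h4 : a.1 ≠ y.1 := by rw [Ne, fst_eq_iff]; tauto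
    have h5 := N1 a y h4.symm
    rw [cp_comm, ← h2] at h5
    obtain ⟨m1, m2⟩ := uu_move φ h4
    rw [toWord_inv_mul] at m1
    change _ = invRev ((uu φ y).drop (cp (uu φ y) (uu φ a))) ++
      (uu φ a).drop (cp (uu φ y) (uu φ a)) at m1
    rw [← h2, invRev_drop, ← uu_bar, show (uu φ y).length - mm φ y = mm φ y by omega] at m1
    have m3 : uu φ a = (uu φ y).take (mm φ y) ++ (uu φ a).drop (mm φ y) := by
      rw [take_cp _ _ _ h2.le, List.take_append_drop]
    have l1 : ((uu φ y).take (mm φ y)).length = mm φ y := by simp; omega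
    have l2 : ((uu φ (bar y)).take (mm φ y)).length = mm φ y := by simp [lb]; omega
    have l3 : ((uu φ a).drop (mm φ y)).length + mm φ y = (uu φ a).length := by simp; omega
    generalize (uu φ y).take (mm φ y) = p at *
    generalize (uu φ (bar y)).take (mm φ y) = q at *
    generalize (uu φ a).drop (mm φ y) = c at *
    have l4 : (uu (φ * wh {y, a} y) a).length = (uu φ a).length := by
      rw [m1, List.length_append]; omega
    refine absurd (hW y a h4 (Finset.sum_congr rfl (fun z _ => ?_)))
      (not_le.2 (sum_move (a := a) (fun y h1 h2 => by rw [m2 y h1 h2]) ?_ ?_))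
    · by_cases e1 : z = a
      · rw [e1, l4]
      by_cases e2 : z = bar a
      · rw [e2, uu_bar, uu_bar, invRev_length, invRev_length, l4]
      · rw [m2 z e1 e2]
    · unfold hv
      rw [l4, m1]
      generalize hn : (uu φ a).length / 2 = n
      rw [m3, List.take_append, List.take_append, List.take_of_length_le (l := p) (by omega),
        List.take_of_length_le (l := q) (by omega), vv_append, vv_append, l1, l2]
      omega
    · unfold hv
      rw [uu_bar, uu_bar, invRev_length, invRev_length, l4, m1]
      generalize hn : (uu φ a).length / 2 = n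
      rw [m3, invRev_append, invRev_append, List.take_append_of_le_length (by simp; omega),
        List.take_append_of_le_length (by simp; omega)]
  by_contra hcon
  have b1 := half y
  have b2 := half (bar y)
  rw [lb] at b2
  have b3 := main y (by omega)
  have b4 := main (bar y) (by rw [lb]; omega)
  rw [bar_bar, show mm φ (bar y) = mm φ y by omega] at b4
  have b5 := vv_inj ((uu φ y).take (mm φ y)) ((uu φ (bar y)).take (mm φ y)) (by simp [lb])
    (by omega)
  have b6 := le_cp _ _ _ (by omega) b5
  have := N0 y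
  omega

/-- Nielsen's theorem, as an induction principle. -/
theorem nielsen_ind {C : MulAut (FreeGroup ι) → Prop}
    (h1 : ∀ θ, (∀ i, ∃ c, θ (of i) = gen c) → C θ)
    (h2 : ∀ φ (e a : ι × Bool), a.1 ≠ e.1 → C (φ * wh {e, a} e) → C φ) (φ) : C φ := by
  have : ∀ T W : ℕ, ∀ φ, ∑ y, (uu φ y).length = T → ∑ y, hv (uu φ y) = W → C φ := by
    intro T
    induction T using Nat.strong_induction_on with
    | _ T ihT =>
    intro W
    induction W using Nat.strong_induction_on with
    | _ W ihW =>
    intro φ hT hW
    by_contra hC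
    refine hC (h1 φ (letters_of_reduced φ (reduced_of_min φ ?_ ?_)))
    · intro e a h
      by_contra hcon
      exact hC (h2 φ e a h (ihT _ (by omega) _ _ rfl rfl))
    · intro e a h he
      by_contra hcon
      exact hC (h2 φ e a h (ihW _ (by omega) _ (by omega) rfl))
  exact this _ _ φ rfl rfl

end OutFn
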