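import Pool.Agent.Lib.MP_e47d8d_al.Asc

/-! The ascending link when some pairs are marked. -/

set_option linter.unusedSectionVars false
set_option linter.unusedVariables false

noncomputable section

namespace OutFn

open Finset

variable {H : Type*} [Fintype H] [DecidableEq H]
variable {Λ : Type*} [AddCommGroup Λ] [LinearOrder Λ] [IsOrderedAddMonoid Λ]
variable {ι : Type*} [DecidableEq ι]
variable (c : Finset H → Λ) (x y : ι → H) (h : ι → Λ) (S : Finset ι)

/-- `P` separates no marked pair except possibly the `i`-th. -/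
def Adm (i : ι) (P : Finset H) : Prop := ∀ j ∈ S, j ≠ i → ¬Sep P (x j) (y j)

/-- Admissible and ascending for one of the pairs in `T`. -/
def gd (T : Finset ι) (P : Finset H) : Prop :=
  ∃ i ∈ T, Sep P (x i) (y i) ∧ h i ≤ c P ∧ Adm x y S i P

/-- Marked pairs that lie in two blocks. -/
def lv (r : H → Finset H) : Finset ι := S.filter fun j => y j ∉ r (x j)

/-- Frames adapted to the marked pairs. -/
structure Fr2 (T : Finset ι) (r : H → Finset H) : Prop where
  fr : Fr r
  one : ∀ z, ∀ i ∈ S, Sep (r z) (x i) (y i) → Adm x y S i (r z)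
  hyp : ∀ i ∈ T, ∀ z, Sep (r z) (x i) (y i) → Adm x y S i (r z) → h i ≤ c (r z)

/-- New edges, seen from the side that misses `o`. -/
def EX2 (T : Finset ι) (m : ι) (o a a' : H) (R : Finset H) : Prop :=
  a ∈ R ∧ a' ∉ R ∧ o ∉ R ∧ h m ≤ c R ∧ Adm x y S m R ∧ ¬gd c x y h S T R

/-- The statement for frames with `n` blocks. -/
def AscAt2 (n : ℕ) : Prop :=
  ∀ r, nb r univ = n → ∀ T, Fr2 c x y h S T r → (T ⊆ S ∨ S ⊆ T) → (∃ o ∈ T, o ∈ lv x y S r) →
    IC compat ((n : ℤ) - (lv x y S r).card - 4) (ZZ r (gd c x y h S T))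

variable {c x y h S} {r : H → Finset H}

lemma adm_compl {i : ι} {P : Finset H} : Adm x y S i Pᶜ ↔ Adm x y S i P := by
  simp only [Adm, sep_compl]

lemma gd_compl (hs : ∀ A, c Aᶜ = c A) {T : Finset ι} {P : Finset H} :
    gd c x y h S T Pᶜ ↔ gd c x y h S T P := by
  simp only [gd, sep_compl, hs, adm_compl]

lemma gd_insert {T : Finset ι} {m : ι} {P : Finset H} : gd c x y h S (insert m T) P ↔
    (Sep P (x m) (y m) ∧ h m ≤ c P ∧ Adm x y S m P) ∨ gd c x y h S T P := by
  simp [gd]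

lemma mem_lv {j : ι} : j ∈ lv x y S r ↔ j ∈ S ∧ y j ∉ r (x j) := mem_filter

lemma Sat.live (hr : Fr r) {R : Finset H} (hR : Sat r R) {a b : H} (hs : Sep R a b) :
    b ∉ r a := fun hh =>
  hs ⟨fun g => hR _ g _ hh, fun g => hR _ g _ (by rw [hr.eq _ _ hh]; exact hr.self _)⟩

lemma sep_block (hr : Fr r) {a b : H} (hab : b ∉ r a) : Sep (r a) a b ∧ Sep (r b) a b := by
  have h1 : a ∉ r b := fun hh => hab (by rw [hr.eq _ _ hh]; exact hr.self _)
  simp [Sep, hr.self, hab, h1]

lemma Fr2.mono {T T' : Finset ι} (hr : Fr2 c x y h S T r) (hT : T' ⊆ T) : Fr2 c x y h S T' r :=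
  ⟨hr.fr, hr.one, fun i hi => hr.hyp i (hT hi)⟩

lemma Fr2.col (hc : Cut c) {T : Finset ι} (hr : Fr2 c x y h S T r) {P : Finset H} (hP : Sat r P)
    (h1 : ∀ i ∈ S, Sep P (x i) (y i) → Adm x y S i P)
    (h2 : ∀ i ∈ T, Sep P (x i) (y i) → Adm x y S i P → h i ≤ c P) :
    Fr2 c x y h S T (col r P) := by
  refine ⟨fr_col hr.fr hP, fun z => ?_, fun i hi z => ?_⟩ <;> unfold OutFn.col <;> split_ifs
  · exact hr.one z
  · simpa only [sep_compl, adm_compl] using h1
  · exact hr.hyp i hi z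
  · simpa only [sep_compl, adm_compl, hc.sym] using h2 i hi

lemma lv_col (hr : Fr r) {P : Finset H} (hP : Sat r P) {j : ι} (hj : j ∈ lv x y S (col r P)) :
    j ∈ lv x y S r ∧ (x j ∈ P ∨ y j ∈ P) := by
  rw [mem_lv] at hj ⊢
  obtain ⟨h1, h2⟩ := hj
  unfold col at h2
  split_ifs at h2 with h3
  · exact ⟨⟨h1, h2⟩, Or.inl h3⟩
  · rw [mem_compl, not_not] at h2
    exact ⟨⟨h1, hP.live hr (by simp [Sep, h2, h3])⟩, Or.inr h2⟩

lemma base2 (hc : Cut c) {m : ι} (n : ℕ) : ∀ r, nb r univ = n → Fr2 c x y h S {m} r →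
    m ∈ lv x y S r → IC compat ((n : ℤ) - (lv x y S r).card - 4)
      (ZZ r (fun P => Sep P (x m) (y m) ∧ h m ≤ c P ∧ Adm x y S m P)) := by
  induction n using Nat.strong_induction_on with
  | _ n ih =>
  intro r hn hr hm
  subst hn
  obtain ⟨m1, m2⟩ := mem_lv.1 hm
  obtain ⟨s1, s2⟩ := sep_block hr.fr m2
  by_cases hex : ∃ j ∈ lv x y S r, j ≠ m
  · obtain ⟨j, hj, hjm⟩ := hex
    obtain ⟨j1, j2⟩ := mem_lv.1 hj
    obtain ⟨t1, t2⟩ := sep_block hr.fr j2
    have u1 := hr.one _ j j1 t1 m m1 hjm.symm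
    have u2 := hr.one _ j j1 t2 m m1 hjm.symm
    have v1 := hr.one _ m m1 s1 j j1 hjm
    have hx : x m ∉ r (x j) ∪ r (y j) := by
      rw [mem_union]
      rintro (a | a)
      exacts [u1 (hr.fr.eq _ _ a ▸ s1), u2 (hr.fr.eq _ _ a ▸ s1)]
    have hy : y m ∉ r (x j) ∪ r (y j) := by
      rw [mem_union]
      rintro (a | a)
      exacts [u1 (hr.fr.eq _ _ a ▸ s2), u2 (hr.fr.eq _ _ a ▸ s2)]
    have hB : Sat r (r (x j) ∪ r (y j)) := (sat_block hr.fr _).union (sat_block hr.fr _)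
    have b1 : x j ∈ r (x j) ∪ r (y j) := mem_union_left _ (hr.fr.self _)
    have b2 : y j ∈ r (x j) ∪ r (y j) := mem_union_right _ (hr.fr.self _)
    have hns : ∀ i ∈ S, ¬Sep (r (x j) ∪ r (y j)) (x i) (y i) := by
      intro i hi
      by_cases hij : i = j
      · simp [hij, Sep, b1, b2]
      · have a1 := hr.one _ j j1 t1 i hi hij
        have a2 := hr.one _ j j1 t2 i hi hij
        simp only [Sep, mem_union, not_not] at a1 a2 ⊢
        rw [a1, a2]
    have hnb : nb r (r (x j) ∪ r (y j)) = 2 := by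
      rw [nb_union hr.fr (sat_block hr.fr _), nb_block hr.fr, nb_block hr.fr]
      exact fun z a b => j2 (by rw [← hr.fr.eq _ _ b, hr.fr.eq _ _ a]; exact hr.fr.self _)
    generalize r (x j) ∪ r (y j) = B at hx hy hB b1 b2 hns hnb
    have hE : Edge r Bᶜ := by
      refine Edge.compl hr.fr ⟨hB, ⟨_, b1⟩, ⟨_, hx⟩, fun z => ⟨fun he => ?_, fun he => ?_⟩⟩
      · exact j2 (by rw [hr.fr.eq z _ (he ▸ b1), he]; exact b2)
      · exact m2 (by rw [hr.fr.eq z _ (he ▸ mem_compl.2 hx), he]; exact mem_compl.2 hy)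
    have n1 := nb_col hr.fr hE
    have n2 := nb_add hr.fr hB
    have hr' : Fr2 c x y h S {m} (col r Bᶜ) :=
      hr.col hc hE.1 (fun i hi hs => absurd (sep_compl.1 hs) (hns i hi))
        (fun i hi hs => absurd (sep_compl.1 hs) (hns i (mem_singleton.1 hi ▸ m1)))
    have n3 : (lv x y S (col r Bᶜ)).card < (lv x y S r).card := by
      refine card_lt_card ⟨fun i hi => (lv_col hr.fr hE.1 hi).1, fun hh => ?_⟩
      simpa [b1, b2] using (lv_col hr.fr hE.1 (hh hj)).2
    have := ih _ (by omega) _ rfl hr' (mem_lv.2 ⟨m1, by simpa [col, hx] using m2⟩)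
    have e : ZZ r (fun P => Sep P (x m) (y m) ∧ h m ≤ c P ∧ Adm x y S m P) =
        ZZ (col r Bᶜ) (fun P => Sep P (x m) (y m) ∧ h m ≤ c P ∧ Adm x y S m P) := by
      ext R
      refine and_congr_left fun hR => ?_
      rw [edge_col hr.fr hE, iff_self_and]
      intro hR'
      have a1 := hR.2.2 j j1 hjm
      have a2 : ∀ Q, Sat r Q → x j ∉ Q → y j ∉ Q → Sep Q (x m) (y m) → Q ⊂ Bᶜ := by
        intro Q q1 q2 q3 q4
        refine Finset.ssubset_iff_subset_ne.2 ⟨fun z hz => mem_compl.2 fun hz' => ?_, ?_⟩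
        · have n4 := nb_add hr.fr hB
          by_contra
          have a3 : ({r (x j), r (y j), r z} : Finset (Finset H)) ⊆ B.image r := by
            simp only [insert_subset_iff, singleton_subset_iff]
            exact ⟨mem_image_of_mem _ b1, mem_image_of_mem _ b2, mem_image_of_mem _ hz'⟩
          have a4 := card_le_card a3
          rw [card_eq_three.2 ⟨_, _, _, ?_, ?_, ?_, rfl⟩] at a4
          · unfold nb at hnb; omega
          · exact fun he => j2 (he ▸ hr.fr.self _)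
          · exact fun he => q2 (q1 z hz _ (he ▸ hr.fr.self _))
          · exact fun he => q3 (q1 z hz _ (he ▸ hr.fr.self _))
        · rintro rfl
          exact hns m m1 (sep_compl.1 q4)
      rw [Sep, not_not] at a1
      by_cases a5 : x j ∈ R
      · exact Or.inr (a2 _ (hR'.1.compl hr.fr) (by simpa using a5) (by simpa using a1.1 a5)
          (sep_compl.2 hR.1))
      · exact Or.inl (a2 _ hR'.1 a5 (fun hh => a5 (a1.2 hh)) hR.1)
    rw [e]
    exact this.mono _ (by omega)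
  · push Not at hex
    have n1 : 1 ≤ (lv x y S r).card := card_pos.2 ⟨m, hm⟩
    have := base_IC hc hr.fr m2 (hr.hyp m (mem_singleton_self _) _ s1 (hr.one _ m m1 s1))
      (hr.hyp m (mem_singleton_self _) _ s2 (hr.one _ m m1 s2))
    have e : ZZ r (fun P => Sep P (x m) (y m) ∧ h m ≤ c P ∧ Adm x y S m P) =
        ZZ r (fun P => Sep P (x m) (y m) ∧ h m ≤ c P) := by
      ext R
      refine and_congr_right fun hR => and_congr_right fun _ => and_iff_left ?_
      exact fun j hj hjm hs => hjm (hex j (mem_lv.2 ⟨hj, hR.1.live hr.fr hs⟩))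
    rw [e]
    exact this.mono _ (by omega)

lemma sub2 (hc : Cut c) {T : Finset ι} {m o : ι} (k1 : m ∈ S → T ⊆ S)
    (k2 : m ∉ S → S ⊆ T ∧ ∀ i ∈ T, i ∉ S → h i ≤ h m)
    (hr : Fr2 c x y h S (insert m T) r) (hlo : o ∈ lv x y S r)
    (ih : ∀ n < nb r univ, AscAt2 c x y h S n) {P : Finset H}
    (hP : Edge r P) {a a' : H} (haa : ∀ Q : Finset H, Sep Q a a' ↔ Sep Q (x m) (y m))
    (hE : EX2 c x y h S T m (x o) a a' P) :
    Fr2 c x y h S (insert m T) (col r Pᶜ) ∧ o ∈ lv x y S (col r Pᶜ) ∧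
      nb (col r Pᶜ) univ < nb r univ ∧ ∃ s : ℤ,
      (nb r univ : ℤ) - (lv x y S r).card - 4 - 1 ≤
        s + ((nb (col r Pᶜ) univ : ℤ) - (lv x y S (col r Pᶜ)).card - 4) + 2 ∧
      IC compat s (ZZ (col r P) (gd c x y h S (insert m T))) := by
  obtain ⟨e1, e2, e3, e4, e5, e6⟩ := hE
  have hP' := hP.compl hr.fr
  have hm : Sep P (x m) (y m) := (haa P).1 (by simp [Sep, e1, e2])
  have a1 : ∀ i ∈ S, Sep P (x i) (y i) → i = m := fun i hi hs => by_contra fun hne => e5 i hi hne hs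
  have a2 : ∀ i ∈ S, Sep P (x i) (y i) → Adm x y S i P := fun i hi hs => a1 i hi hs ▸ e5
  have a3 : ∀ i ∈ insert m T, Sep P (x i) (y i) → Adm x y S i P → h i ≤ c P := by
    intro i hi hs ha
    by_cases him : i = m
    · exact him ▸ e4
    by_cases hmS : m ∈ S
    · exact absurd hm (ha m hmS (Ne.symm him))
    · exact ((k2 hmS).2 i ((mem_insert.1 hi).resolve_left him)
        fun hh => him (a1 i hh hs)).trans e4
  have r1 := hr.col hc hP.1 a2 a3
  have n1 := nb_col hr.fr hP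
  have n2 := nb_col hr.fr hP'
  have n3 := nb_add hr.fr hP.1
  have n4 := hP.two_le hr.fr
  have n5 := hP'.two_le hr.fr
  have n6 := card_union_add_card_inter (lv x y S (col r P)) (lv x y S (col r Pᶜ))
  have n7 : (lv x y S (col r P) ∪ lv x y S (col r Pᶜ)).card ≤ (lv x y S r).card :=
    card_le_card (union_subset (fun i hi => (lv_col hr.fr hP.1 hi).1)
      fun i hi => (lv_col hr.fr hP'.1 hi).1)
  have n8 : ∀ i ∈ lv x y S (col r P) ∩ lv x y S (col r Pᶜ), i = m ∧ i ∈ S := by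
    intro i hi
    have b1 := (lv_col hr.fr hP.1 (mem_inter.1 hi).1).2
    have b2 := (lv_col hr.fr hP'.1 (mem_inter.1 hi).2).2
    have b3 := (mem_lv.1 (mem_inter.1 hi).1).1
    refine ⟨a1 i b3 ?_, b3⟩
    simp only [mem_compl] at b2
    unfold Sep
    tauto
  refine ⟨hr.col hc hP'.1 (by simpa only [sep_compl, adm_compl] using a2)
    (by simpa only [sep_compl, adm_compl, hc.sym] using a3),
    mem_lv.2 ⟨(mem_lv.1 hlo).1, by simpa [col, e3] using (mem_lv.1 hlo).2⟩, by omega, ?_⟩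
  by_cases hmS : m ∈ S
  · have n9 : (lv x y S (col r P) ∩ lv x y S (col r Pᶜ)).card ≤ 1 :=
      card_le_one.2 fun i hi j hj => by rw [(n8 i hi).1, (n8 j hj).1]
    exact ⟨_, by omega, ih _ (by omega) _ rfl _ r1 (Or.inl (insert_subset hmS (k1 hmS)))
      ⟨m, mem_insert_self _ _, mem_lv.2 ⟨hmS, live_col hP.1 hm⟩⟩⟩
  have n9 : (lv x y S (col r P) ∩ lv x y S (col r Pᶜ)).card = 0 :=
    card_eq_zero.2 (eq_empty_of_forall_notMem fun i hi => hmS ((n8 i hi).1 ▸ (n8 i hi).2))
  have hST : S ⊆ insert m T := (k2 hmS).1.trans (subset_insert _ _)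
  rcases (lv x y S (col r P)).eq_empty_or_nonempty with hl | ⟨j, hj⟩
  · have b1 : ∀ R, Sat (col r P) R → ∀ i, Adm x y S i R := fun R hR i j hj _ hs =>
      notMem_empty j (hl ▸ mem_lv.2 ⟨hj, hR.live r1.fr hs⟩)
    have b2 := ascAt (x := x) (y := y) (h := h) hc _ _ r1.fr rfl (insert m T) (fun i hi hi' =>
      ⟨r1.hyp i hi _ (sep_block r1.fr hi').1 (b1 _ (sat_block r1.fr _) i),
        r1.hyp i hi _ (sep_block r1.fr hi').2 (b1 _ (sat_block r1.fr _) i)⟩)
      ⟨m, mem_insert_self _ _, live_col hP.1 hm⟩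
    have e : ZZ (col r P) (gd c x y h S (insert m T)) = ZZ (col r P) (good c x y h (insert m T)) := by
      ext R
      refine and_congr_right fun hR => ?_
      simp only [gd, good, b1 R hR.1, and_true]
    have n10 := card_eq_zero.2 hl
    exact ⟨_, by omega, e ▸ b2⟩
  · exact ⟨_, by omega, ih _ (by omega) _ rfl _ r1 (Or.inr hST) ⟨j, hST (mem_lv.1 hj).1, hj⟩⟩

lemma ex_in2 {T : Finset ι} {m : ι} {o a a' : H}
    (haa : ∀ Q : Finset H, Sep Q a a' ↔ Sep Q (x m) (y m)) {P R : Finset H}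
    (hE : EX2 c x y h S T m o a a' P) (hRP : R ⊆ P) (hg : gd c x y h S (insert m T) R) :
    gd c x y h S T R ∨ EX2 c x y h S T m o a a' R := by
  by_cases h1 : gd c x y h S T R
  · exact Or.inl h1
  · obtain ⟨g1, g2, g5⟩ := (gd_insert.1 hg).resolve_right h1
    have g3 : a' ∉ R := fun hh => hE.2.1 (hRP hh)
    refine Or.inr ⟨?_, g3, fun hh => hE.2.2.1 (hRP hh), g2, g5, h1⟩
    by_contra g4
    exact (haa R).2 g1 ⟨fun hh => absurd hh g4, fun hh => absurd hh g3⟩

lemma ex_gd {T : Finset ι} {m : ι} {o a a' : H}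
    (haa : ∀ Q : Finset H, Sep Q a a' ↔ Sep Q (x m) (y m)) {R : Finset H}
    (hE : EX2 c x y h S T m o a a' R) : gd c x y h S (insert m T) R :=
  gd_insert.2 (Or.inl ⟨(haa R).1 (by simp [Sep, hE.1, hE.2.1]), hE.2.2.2.1, hE.2.2.2.2.1⟩)

lemma half2 (hc : Cut c) {T : Finset ι} {m o : ι} (k1 : m ∈ S → T ⊆ S)
    (k2 : m ∉ S → S ⊆ T ∧ ∀ i ∈ T, i ∉ S → h i ≤ h m)
    (hr : Fr2 c x y h S (insert m T) r) (ho : o ∈ T) (hlo : o ∈ lv x y S r)
    (ih : ∀ n < nb r univ, AscAt2 c x y h S n)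
    (h0 : IC compat ((nb r univ : ℤ) - (lv x y S r).card - 4) (ZZ r (gd c x y h S T))) :
    IC compat ((nb r univ : ℤ) - (lv x y S r).card - 4)
      (ZZ r (fun R => gd c x y h S T R ∨ tw (EX2 c x y h S T m (x o) (x m) (y m)) R)) := by
  refine step_IC hr.fr (g := gd c x y h S (insert m T)) (a := x m) (o := x o)
    (fun _ => gd_compl hc.sym) (fun _ => gd_compl hc.sym)
    (fun R hR => gd_insert.2 (Or.inr hR)) (fun R hR => ex_gd (fun _ => Iff.rfl) hR)
    (fun R hR => ⟨hR.1, hR.2.2.1, hR.2.2.2.2.2⟩)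
    (fun P R hP hRP hg => ex_in2 (fun _ => Iff.rfl) hP hRP hg) h0 ?_
  intro P hP hE
  obtain ⟨f1, f2, f3, s, f4, f5⟩ := sub2 hc k1 k2 hr hlo ih hP (fun _ => Iff.rfl) hE
  exact ⟨s, _, f4, f5, ih _ f3 _ rfl _ (f1.mono (subset_insert _ _))
    ((em _).imp k1 fun hh => (k2 hh).1) ⟨o, ho, f2⟩⟩

theorem ascAt2 (hc : Cut c) (n : ℕ) : AscAt2 c x y h S n := by
  induction n using Nat.strong_induction_on with
  | _ n ih =>
  intro r hn T
  subst hn
  induction T using Finset.induction_on_max_value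
    (fun i => toLex ((if i ∈ S then 0 else 1 : ℕ), h i)) with
  | empty => intro _ _ hl; simp at hl
  | insert m T hm hmax ihT =>
    intro hr hT hl
    have k1 : m ∈ S → T ⊆ S := fun hS i hi => by
      have := hmax i hi
      rw [Prod.Lex.toLex_le_toLex] at this
      by_contra hh
      simp [hS, hh] at this
    have k2 : m ∉ S → S ⊆ T ∧ ∀ i ∈ T, i ∉ S → h i ≤ h m := fun hS => by
      refine ⟨fun i hi => (mem_insert.1 (hT.resolve_left
        (fun hh => hS (hh (mem_insert_self _ _))) hi)).resolve_left (fun he => hS (he ▸ hi)),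
        fun i hi hh => ?_⟩
      have := hmax i hi
      rw [Prod.Lex.toLex_le_toLex] at this
      simpa [hS, hh] using this
    have k3 : T ⊆ S ∨ S ⊆ T := (em _).imp k1 fun hh => (k2 hh).1
    by_cases hlive : ∃ i ∈ T, i ∈ lv x y S r
    · have h0 := ihT (hr.mono (subset_insert _ _)) k3 hlive
      obtain ⟨o, ho, hlo⟩ := hlive
      have hsw : ∀ Q : Finset H, Sep Q (y m) (x m) ↔ Sep Q (x m) (y m) := fun Q => by
        unfold Sep; tauto
      have h1 := half2 hc k1 k2 hr ho hlo ih h0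
      have p1 : ∀ R, gd c x y h S T R ∨ tw (EX2 c x y h S T m (x o) (x m) (y m)) R →
          gd c x y h S (insert m T) R := by
        rintro R (hR | hR | hR)
        · exact gd_insert.2 (Or.inr hR)
        · exact ex_gd (fun _ => Iff.rfl) hR
        · exact (gd_compl hc.sym).1 (ex_gd (fun _ => Iff.rfl) hR)
      have h2 := step_IC hr.fr (g := gd c x y h S (insert m T))
        (E := EX2 c x y h S T m (x o) (y m) (x m)) (a := y m) (o := x o)
        (fun R => by
          simp only [gd_compl hc.sym, tw, compl_compl]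
          rw [or_comm (b := EX2 c x y h S T m (x o) (x m) (y m) R)])
        (fun _ => gd_compl hc.sym) p1 (fun R hR => ex_gd hsw hR) ?_
        (fun P R hP hRP hg => (ex_in2 hsw hP hRP hg).imp_left Or.inl) h1 ?_
      · have e : gd c x y h S (insert m T) = fun R => (gd c x y h S T R ∨
            tw (EX2 c x y h S T m (x o) (x m) (y m)) R) ∨
            tw (EX2 c x y h S T m (x o) (y m) (x m)) R := by
          ext R
          constructor
          · intro hg
            by_cases g0 : gd c x y h S T R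
            · exact Or.inl (Or.inl g0)
            obtain ⟨g1, g2, g3⟩ := (gd_insert.1 hg).resolve_right g0
            simp only [tw, EX2, gd_compl hc.sym, hc.sym, mem_compl, adm_compl, g0, g2, g3]
            unfold Sep at g1
            by_cases a1 : x m ∈ R <;> by_cases a2 : y m ∈ R <;> by_cases a3 : x o ∈ R <;>
              simp [a1, a2, a3] at g1 ⊢
          · rintro (hR | hR | hR)
            · exact p1 R hR
            · exact ex_gd hsw hR
            · exact (gd_compl hc.sym).1 (ex_gd hsw hR)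
        rw [e]
        exact h2
      · intro R hR
        refine ⟨hR.1, hR.2.2.1, ?_⟩
        rintro (g | g | g)
        exacts [hR.2.2.2.2.2 g, hR.2.1 g.1, g.2.2.1 (mem_compl.2 hR.2.2.1)]
      · intro P hP hE
        obtain ⟨f1, f2, f3, s, f4, f5⟩ := sub2 hc k1 k2 hr hlo ih hP hsw hE
        exact ⟨s, _, f4, f5, half2 hc k1 k2 f1 ho f2 (fun n hn => ih n (hn.trans f3))
          (ih _ f3 _ rfl _ (f1.mono (subset_insert _ _)) k3 ⟨o, ho, f2⟩)⟩
    · have hlm : m ∈ lv x y S r := by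
        obtain ⟨i, hi, hi'⟩ := hl
        rcases mem_insert.1 hi with rfl | hi
        exacts [hi', absurd ⟨i, hi, hi'⟩ hlive]
      have e : ZZ r (gd c x y h S (insert m T)) =
          ZZ r (fun P => Sep P (x m) (y m) ∧ h m ≤ c P ∧ Adm x y S m P) := by
        ext R
        refine and_congr_right (fun hR => ?_)
        rw [gd_insert, or_iff_left]
        rintro ⟨i, hi, hs, _⟩
        exact hlive ⟨i, hi, mem_lv.2 ⟨k1 (mem_lv.1 hlm).1 hi, hR.1.live hr.fr hs⟩⟩
      rw [e]
      exact base2 hc _ r rfl (hr.mono (by simp)) hlm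

/-- The ascending link theorem with marked pairs. -/
theorem asc_IC2 [Fintype ι] (hc : Cut c) (hS : S.Nonempty) (hxy : ∀ i, y i ≠ x i)
    (h1 : ∀ z i j, Sep {z} (x i) (y i) → Sep {z} (x j) (y j) → i = j)
    (h2 : ∀ z i, Sep {z} (x i) (y i) → h i ≤ c {z}) :
    IC compat ((Fintype.card H : ℤ) - S.card - 4)
      {P | Edge (fun z => {z}) P ∧ ∃ i, Sep P (x i) (y i) ∧ h i ≤ c P ∧ Adm x y S i P} := by
  have hr : Fr (fun z : H => ({z} : Finset H)) :=
    ⟨fun z => mem_singleton_self z, fun z w hw => by rw [mem_singleton.1 hw]⟩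
  have e : lv x y S (fun z : H => ({z} : Finset H)) = S :=
    filter_true_of_mem fun i _ => by simpa using hxy i
  obtain ⟨o, ho⟩ := hS
  have := ascAt2 (x := x) (y := y) (h := h) (S := S) hc (Fintype.card H) _ ?_ univ
    ⟨hr, fun z i _ hs j _ hji hs' => hji (h1 z j i hs' hs), fun i _ z hs _ => h2 z i hs⟩
    (Or.inr (subset_univ _)) ⟨o, mem_univ _, e.symm ▸ ho⟩
  · rw [e] at this
    simpa [ZZ, gd] using this
  · unfold nb
    rw [card_image_of_injective _ singleton_injective, card_univ]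

end OutFn
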