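import Pool.Agent.Lib.MP_e47d8d_al.Cohom

/-! Vanishing of cohomology with group ring coefficients from a filtration at infinity. -/

set_option linter.unusedSectionVars false
set_option linter.unusedVariables false

noncomputable section

namespace OutFn

open CategoryTheory Finsupp

lemma zero_of_res {k G : Type} [CommRing k] [Group G] (A : Rep k G)
    (P : ProjectiveResolution (Rep.trivial k G k)) (i n : ℕ) (hi : (ComplexShape.up ℕ).prev n = i)
    (h : ((P.complex.linearYonedaObj k A).sc' i n (n + 1)).Exact) :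
    Subsingleton (groupCohomology A n) :=
  ModuleCat.subsingleton_of_isZero (((ShortComplex.exact_iff_isZero_homology _).1 h).of_iso
    ((groupCohomologyIso A n P) ≪≫
      (P.complex.linearYonedaObj k A).homologyIsoSc' i n (n + 1) hi (by simp)))

variable {G V : Type} [Group G] [MulAction G V] {r : V → V → Prop}
variable (hd : V → G) (hhd : ∀ (g : G) v, hd (g • v) = g * hd v)
include hhd

theorem zero_cohomology (hi : Inv G r) (hac : ∀ n, Acyc r Set.univ n)
    (hfa : ∀ v, {w | r v w}.Finite)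
    (hfd : {v | hd v = 1}.Finite) (X : ℕ → Set V)
    (hXa : ∀ i j, i ≤ j → X j ⊆ X i) (hXc : ∀ j, (X j)ᶜ.Finite)
    (hXu : ∀ j v w, v ∈ X j → r v w → w ∈ X j) (hXo : ∀ v, ∃ j, v ∉ X j) (n : ℕ)
    (hrel : ∀ j, ∀ m ≤ n, RelA r Set.univ (X j) m) :
    Subsingleton (groupCohomology (Rep.leftRegular ℤ G) n) := by
  classical
  have bad : ∀ j n, {l | l ∈ Sx r Set.univ (n + 1) ∧ l ∉ Sx r (X j) (n + 1)}.Finite := by
    intro j n
    refine (finite_simplices hfa (hXc j) n).subset ?_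
    rintro l ⟨h1, h2⟩
    obtain ⟨x, t, rfl⟩ := Sx_succ h1
    refine ⟨h1, x, fun hx => h2 (cons_mem_Sx.2 ⟨hx, Sx_mono (fun y hy => ?_) _
      (cons_mem_Sx.1 h1).2⟩), rfl⟩
    exact ⟨hXu j x y hx hy.2, hy.2⟩
  have van : ∀ φ : XR hi n ⟶ Rep.leftRegular ℤ G, dR hi n ≫ φ = 0 → ∃ j,
      ∀ c ∈ Ch r Set.univ (n + 1), bd c ∈ Ch r (X j) n → ev hi φ c = 0 := by
    intro f hf
    choose J hJ using hXo
    obtain ⟨j, hj⟩ := ((ev_finite hi hd hhd hfa hfd f).image
      fun l => (l.head?.map J).getD 0).bddAbove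
    refine ⟨j, fun c c1 c2 => ?_⟩
    obtain ⟨b, b1, b2⟩ := hrel j n le_rfl c c1 c2
    have a : ev hi f (c - bd b) = 0 := map_mem_of_Ch (ev hi f) ⊥ (fun l hl => by
      by_contra hne
      obtain ⟨x, t, rfl⟩ := Sx_succ hl
      exact hJ x (hXa _ _ (hj ⟨_, ⟨Sx_mono (Set.subset_univ _) _ hl, hne⟩, rfl⟩)
        (cons_mem_Sx.1 hl).1)) b2
    rw [map_sub, ← ev_d hi f b1, hf, sub_eq_zero] at a
    exact a
  let K := (CR hi).linearYonedaObj ℤ (Rep.leftRegular ℤ G)
  have e1 : ∀ n, (CR hi).d (n + 1) n = dR hi n := ChainComplex.of_d (XR hi) (dR hi)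
  have hg : ∀ i, ∀ θ : XR hi n ⟶ Rep.leftRegular ℤ G,
      (K.sc' i n (n + 1)).g.hom θ = dR hi n ≫ θ := by
    intro i θ
    rw [← e1]; rfl
  rcases n with _ | n
  · refine zero_of_res _ (resR hi hd hhd hac) 0 0 (by simp)
      ((ShortComplex.moduleCat_exact_iff _).2 fun φ hφ => ⟨0, ?_⟩)
    obtain ⟨j, hj⟩ := van φ ((hg 0 φ).symm.trans hφ)
    rw [map_zero]
    refine (ev_inj hi hd hhd fun l hl => hj _ (single_mem_Ch hl 1) fun t ht => ?_).symm
    exact Sx_zero.2 (Sx_zero.1 (bd_mem_Ch (single_mem_Ch hl 1) ht))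
  refine zero_of_res _ (resR hi hd hhd hac) n (n + 1) (by simp)
    ((ShortComplex.moduleCat_exact_iff _).2 fun φ hφ => ?_)
  obtain ⟨j, hj⟩ := van φ ((hg n φ).symm.trans hφ)
  let A : Submodule ℤ (Ch r Set.univ (n + 1)) :=
    ((Ch r (X j) n).comap bd).comap (Ch r Set.univ (n + 1)).subtype
  have hA : ∀ c ∈ Ch r Set.univ (n + 1), bd c ∈ Ch r (X j) n → rs r (n + 1) c ∈ A := by
    intro c hc hc'
    refine Submodule.mem_comap.2 ?_
    rwa [Submodule.subtype_apply, coe_rs hc]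
  choose b b1 b2 using fun a : A => hrel j n (Nat.le_succ n) a.1.1 a.1.2 a.2
  have b3 : ∀ (a : A), ∀ c ∈ Ch r Set.univ (n + 2), a.1.1 - bd c ∈ Ch r (X j) (n + 1) →
      ev hi φ (b a) = ev hi φ c := by
    intro a c c1 c2
    rw [← sub_eq_zero, ← map_sub]
    refine hj _ (sub_mem (b1 a) c1) ?_
    have := sub_mem c2 (b2 a)
    rwa [sub_sub_sub_cancel_left, ← map_sub] at this
  let ψ : A →+ ℤ := AddMonoidHom.mk' (fun a => ev hi φ (b a)) fun a a' => by
    rw [← map_add]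
    refine b3 _ _ (add_mem (b1 a) (b1 a')) ?_
    have := add_mem (b2 a) (b2 a')
    rwa [sub_add_sub_comm, ← map_add] at this
  obtain ⟨t, -, t2, t3⟩ := exists_compl_of_pure A ⊤ le_top (by
    refine ⟨((bad j n).image fun l => A.mkQ (rs r (n + 1) (single l 1))).toFinset, ?_⟩
    rw [Set.Finite.coe_toFinset, Submodule.map_top, Submodule.range_mkQ, eq_top_iff]
    intro x _
    obtain ⟨x, rfl⟩ := A.mkQ_surjective x
    rw [← rs_coe x]
    refine map_mem_of_Ch (A.mkQ ∘ₗ rs r (n + 1)) _ (fun l hl => ?_) x.2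
    by_cases hh : l ∈ Sx r (X j) (n + 1)
    · rw [LinearMap.comp_apply, Submodule.mkQ_apply, (Submodule.Quotient.mk_eq_zero _).2
        (hA _ (single_mem_Ch hl 1) (bd_mem_Ch (single_mem_Ch hh 1)))]
      exact zero_mem _
    · exact Submodule.subset_span ⟨l, ⟨hl, hh⟩, rfl⟩) (fun m x hm hx l hl => by
    have h1 : m • bd x.1 ∈ Ch r (X j) n := by rw [← map_smul]; exact hx
    exact h1 (by simpa [hm] using hl))
  have hc : IsCompl A (Submodule.span ℤ t) := ⟨t2, codisjoint_iff.2 t3⟩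
  have h' : ∀ a (ha : a ∈ Ch r Set.univ (n + 1)), ∀ c ∈ Ch r Set.univ (n + 2),
      a - bd c ∈ Ch r (X j) (n + 1) →
      (LinearMap.ofIsCompl hc ψ.toIntLinearMap 0 ∘ₗ rs r (n + 1)) a = ev hi φ c := by
    intro a ha c c1 c2
    have h1 : rs r (n + 1) a ∈ A := hA a ha (by simpa [bd_bd] using bd_mem_Ch c2)
    rw [LinearMap.comp_apply, LinearMap.ofIsCompl_apply_left hc ⟨_, h1⟩]
    exact b3 ⟨_, h1⟩ c c1 (by rwa [coe_rs ha])
  obtain ⟨f, hf⟩ := exists_ev hi hd hhd (n := n) _ ((bad j n).subset fun l hl =>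
    ⟨hl.1, fun hh => hl.2 ((h' _ (single_mem_Ch hl.1 1) 0 (zero_mem _)
      (by simpa using single_mem_Ch hh 1)).trans (map_zero _))⟩)
  refine ⟨f, ?_⟩
  have e2 : (K.sc' n (n + 1) (n + 2)).f.hom f = dR hi n ≫ f := by rw [← e1]; rfl
  refine e2.trans (sub_eq_zero.1 (ev_inj hi hd hhd fun l hl => ?_))
  have hl' := single_mem_Ch hl 1
  refine (ev_sub hi _ φ _).trans ?_
  rw [ev_d hi f hl', hf _ (bd_mem_Ch hl'), h' _ (bd_mem_Ch hl') _ hl' (by simp), sub_self]

omit hhd in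
lemma free_zero (G : Type) [Group G] :
    Module.Free ℤ (groupCohomology (Rep.leftRegular ℤ G) 0) := by
  let f : (Rep.leftRegular ℤ G).ρ.invariants →ₗ[ℤ] ℤ :=
    (Finsupp.lapply 1) ∘ₗ (MonoidAlgebra.coeffLinearEquiv ℤ).toLinearMap ∘ₗ Submodule.subtype _
  have hf : Function.Injective f := (injective_iff_map_eq_zero f).2 fun a ha => by
    ext g
    have := congrArg (fun x : MonoidAlgebra ℤ G => x.coeff 1) (a.2 g⁻¹)
    simp only [Representation.coeff_ofMulAction, inv_inv, smul_eq_mul, mul_one] at this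
    exact this.trans ha
  have := Module.Finite.of_injective f hf
  have := hf.moduleIsTorsionFree f (map_smul f)
  exact Module.Free.of_equiv (groupCohomology.H0Iso (Rep.leftRegular ℤ G)).toLinearEquiv.symm

end OutFn
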