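import Pool.Agent.Lib.MP_e47d8d_al.Morse

/-! The descending argument for a height that first counts the marked generators. -/

set_option linter.unusedSectionVars false
set_option linter.unusedVariables false

noncomputable section

namespace OutFn

open FreeGroup hiding map_mul map_one map_inv

variable {ι : Type*} [DecidableEq ι] [Fintype ι]

section gen

variable {Λ : Type*} [AddCommGroup Λ] [LinearOrder Λ] [IsOrderedAddMonoid Λ]
variable (u : (FreeGroup ι → ℤ) →+ Λ) (hm : Monotone u) (hi : Function.Injective u)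

include hm in
lemma cut_u (g : Out (FreeGroup ι)) : Cut (fun P => u (kap g P)) where
  sub A B := by
    simp only [← map_add]
    refine hm (fun w => ?_)
    obtain ⟨φ, rfl⟩ := omk_surj g
    exact ell_sub _ _ _
  sym A := by simp only [kap_compl]

lemma len_wh {P : Finset (ι × Bool)} {e : ι × Bool} (h1 : e ∈ P) (h2 : bar e ∉ P)
    (g : Out (FreeGroup ι)) :
    len (g * omk (wh P e)) + kap g {(e.1, true)} = len g + kap g P :=
  val_inj (by rw [map_add, map_add]; exact mu_wh h1 h2 g)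

include hi in
lemma exchange_down_u {g : Out (FreeGroup ι)} {v : Vert ι} (h : Bs g ⊆ SS v)
    (hne : Bs g ≠ Bs v.g) (hle : u (len g) ≤ u (len v.g)) :
    ∃ Q ∈ v.F, ∃ i, Sep Q (i, true) (i, false) ∧ u (kap v.g Q) < u (kap v.g {(i, true)}) := by
  obtain ⟨π, hπ⟩ := exists_match g v h
  by_contra hcon
  push Not at hcon
  have a : ∀ i ∈ Finset.univ, u (kap v.g {(i, true)}) ≤ u (kap g {(π i, true)}) := by
    intro i _
    rcases (hπ i).2 with h1 | ⟨Q, q1, q2, q3⟩
    · rw [h1]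
    · rw [← q3]; exact hcon Q q1 i q2
  rw [len, len, map_sum, map_sum, ← Equiv.sum_comp π] at hle
  have := (Finset.sum_eq_sum_iff_of_le a).1 (le_antisymm (Finset.sum_le_sum a) hle)
  exact hne (Bs_eq_of_perm π fun i => hi (this i (Finset.mem_univ i)).symm)

include hm hi in
lemma desc_step_u [Nonempty ι] (g : Out (FreeGroup ι)) (Γ : Set (Out (FreeGroup ι)))
    (h1 : ∀ g' ∈ Γ, u (len g') ≤ u (len g)) (h2 : ∀ g', u (len g') < u (len g) → g' ∈ Γ) (n : ℕ) :
    RelA vle (XX (insert g Γ)) (XX Γ) (n + 1) := by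
  by_cases hex : ∃ g' ∈ Γ, Bs g' = Bs g
  · obtain ⟨g', a, b⟩ := hex
    rw [XX_insert_of_eq a b]; exact relA_refl _ _
  refine rel_step g Γ ?_
  let Z := {P | Red (fun P => u (kap g P)) (fun i : ι => (i, true)) (fun i => (i, false))
    (fun i => u (kap g {(i, true)})) P}
  have hZ : ∀ P ∈ Z, Intr P := by
    rintro P ⟨i, q2, q3⟩
    obtain ⟨a, b, c⟩ := intr_of_cc (g := g) q2 fun he => q3.ne (congrArg u (val_inj he))
    exact intr_of_ne a b c
  have e : XX Γ ∩ St g = {v | v ∈ St g ∧ ∃ P ∈ Z, kap g P ∈ SS v} := by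
    ext v
    constructor
    · rintro ⟨⟨g', a1, a2⟩, hv⟩
      refine ⟨hv, ?_⟩
      obtain ⟨v', rfl, e⟩ := exists_blowup g v hv
      rw [← e] at a2 ⊢
      obtain ⟨Q, q1, i, q2, q3⟩ := exchange_down_u u hi a2 (fun h => hex ⟨g', a1, h⟩) (h1 g' a1)
      exact ⟨Q, ⟨i, q2, q3⟩, Or.inl ⟨Q, q1, rfl⟩⟩
    · rintro ⟨hv, P, ⟨i, q2, q3⟩, h3⟩
      obtain ⟨e, e1, e2, rfl⟩ := sep_orient q2
      have a2 := congrArg u (len_wh e1 e2 g)
      rw [map_add, map_add] at a2
      exact ⟨⟨_, h2 _ (lt_of_exch a2.symm q3), (Bs_wh e1 e2 g).trans (Set.insert_subset h3 hv)⟩, hv⟩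
  rw [e]
  by_cases hne : ∃ P, P ∈ Z
  · exact acyc_link g hZ (desc_IC (cut_u u hm g) hne n) (by simp)
  · have : {v | v ∈ St g ∧ ∃ P ∈ Z, kap g P ∈ SS v} = ∅ :=
      Set.eq_empty_of_forall_notMem fun v ⟨_, P, hP, _⟩ => hne ⟨P, hP⟩
    rw [this]
    exact acyc_empty n

include hm hi in
lemma acyc_down [Nonempty ι] (wf : WellFounded fun g' g : Out (FreeGroup ι) =>
    u (len g') < u (len g)) (R : Set (Out (FreeGroup ι)))
    (hR : ∀ g' ∈ R, ∀ g, g ∉ R → u (len g') ≤ u (len g)) (n : ℕ) : Acyc vle (XX R) (n + 1) := by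
  classical
  have key : ∀ (p : Out (FreeGroup ι) → Prop), (∀ a, p a → ∀ y ∈ Ch vle
      (XX (R ∪ {g | u (len g) < u (len a)})) (n + 2), bd y ∈ Ch vle (XX R) (n + 1) →
      ∃ y' ∈ Ch vle (XX R) (n + 2), bd y' = bd y) → ∀ y ∈ Ch vle (XX (R ∪ {g | p g})) (n + 2),
      bd y ∈ Ch vle (XX R) (n + 1) → ∃ y' ∈ Ch vle (XX R) (n + 2), bd y' = bd y := by
    intro p ih y hy h0
    have : ∀ v, ∃ g, v ∈ XX (R ∪ {g | p g}) → g ∈ R ∪ {g | p g} ∧ Bs g ⊆ SS v := fun v => by
      by_cases hv : v ∈ XX (R ∪ {g | p g})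
      exacts [hv.imp fun g hg _ => hg, ⟨1, fun hh => absurd hh hv⟩]
    choose G hG using this
    let T := ((y.support.biUnion List.toFinset).image G).filter fun g => g ∉ R ∧ p g
    have hT : ∀ l ∈ y.support, ∀ v ∈ l, (G v ∈ R ∨ G v ∈ T) ∧ Bs (G v) ⊆ SS v := by
      intro l hl v hv
      obtain ⟨a1, a2⟩ := hG v ((hy hl).2.1 v hv)
      refine ⟨(em _).imp_right fun hh => Finset.mem_filter.2 ⟨Finset.mem_image_of_mem _
        (Finset.mem_biUnion.2 ⟨l, hl, List.mem_toFinset.2 hv⟩), hh, a1.resolve_left hh⟩, a2⟩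
    rcases T.eq_empty_or_nonempty with he | he
    · exact ⟨y, fun l hl => ⟨(hy hl).1, fun v hv => ⟨G v, (hT l hl v hv).1.resolve_right
        (he ▸ Finset.notMem_empty _), (hT l hl v hv).2⟩, (hy hl).2.2⟩, rfl⟩
    obtain ⟨a, ha, hmax⟩ := T.exists_max_image (fun g => u (len g)) he
    obtain ⟨-, a1, a2⟩ := Finset.mem_filter.1 ha
    have hy' : y ∈ Ch vle (XX (insert a (R ∪ {g | u (len g) < u (len a)}))) (n + 2) := by
      refine fun l hl => ⟨(hy hl).1, fun v hv => ?_, (hy hl).2.2⟩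
      obtain ⟨c1 | c1, c2⟩ := hT l hl v hv
      · exact ⟨_, Or.inr (Or.inl c1), c2⟩
      rcases (hmax _ c1).lt_or_eq with c3 | c3
      · exact ⟨_, Or.inr (Or.inr c3), c2⟩
      · obtain ⟨v1, d1, d2⟩ := exists_blowup _ v c2
        obtain ⟨v2, d3, d4⟩ := relabel (g := a) v1 (d1 ▸ (hi c3).symm)
        exact ⟨a, Or.inl rfl, by rw [← d2, ← d4, ← d3]; exact mem_St_self v2⟩
    obtain ⟨b, b1, b2⟩ := desc_step_u u hm hi a (R ∪ {g | u (len g) < u (len a)})
      (fun g' hg => hg.elim (fun hh => hR g' hh a a1) le_of_lt) (fun g' hg => Or.inr hg) n y hy'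
      (Ch_mono (XX_mono Set.subset_union_left) _ h0)
    have e : bd (y - bd b) = bd y := by rw [map_sub, bd_bd, sub_zero]
    rw [← e] at h0 ⊢
    exact ih a a2 _ b2 h0
  intro z hz h0
  obtain ⟨y, y1, rfl⟩ := acyc_all (n + 1) z (Ch_mono (Set.subset_univ _) _ hz) h0
  have hu : Set.univ ⊆ XX (R ∪ {g | True}) := fun v _ => ⟨v.g, Or.inr trivial, mem_St_self v⟩
  refine key (fun _ => True) (fun a _ => ?_) y (Ch_mono hu _ y1) hz
  induction a using wf.induction with
  | _ a ih => exact key _ ih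

end gen

variable (S : Finset ι)

/-- Height that first counts the marked generators. -/
def valS : (FreeGroup ι → ℤ) →+ ℤ ×ₗ Lex (ℕ → ℤ) where
  toFun f := toLex (∑ i ∈ S, f (of i), val f)
  map_zero' := by simp
  map_add' f g := by
    simp only [Pi.add_apply, Finset.sum_add_distrib, map_add]; rfl

lemma valS_mono : Monotone (valS S) := fun f g h =>
  Prod.Lex.toLex_mono ⟨Finset.sum_le_sum fun i _ => h _, val_mono h⟩

lemma valS_inj : Function.Injective (valS S) := fun f g h =>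
  val_inj (congrArg (fun p => (ofLex p).2) h)

lemma len_nonneg (g : Out (FreeGroup ι)) (w : FreeGroup ι) : 0 ≤ len g w := by
  obtain ⟨φ, rfl⟩ := omk_surj g
  simp [len_omk]

lemma valS_wf : WellFounded fun g' g : Out (FreeGroup ι) => valS S (len g') < valS S (len g) := by
  have fin : ∀ g : Out (FreeGroup ι), {a | mu a < mu g}.Finite := fun g =>
    (mu0_proper (mu0 g)).subset fun a ha => mu0_le (le_of_lt ha)
  refine Subrelation.wf (r := InvImage (· < ·) fun g : Out (FreeGroup ι) =>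
    toLex ((∑ i ∈ S, len g (of i)).toNat, {a : Out (FreeGroup ι) | mu a < mu g}.ncard)) ?_
    (InvImage.wf _ wellFounded_lt)
  intro g' g h
  have h0 : 0 ≤ ∑ i ∈ S, len g' (of i) := Finset.sum_nonneg fun i _ => len_nonneg _ _
  rcases Prod.Lex.toLex_lt_toLex.1 h with a | ⟨a, b⟩
  · exact Prod.Lex.toLex_lt_toLex.2 (Or.inl (by simp only at a ⊢; omega))
  · refine Prod.Lex.toLex_lt_toLex.2 (Or.inr ⟨by simp only at a ⊢; rw [a], ?_⟩)
    exact Set.ncard_lt_ncard ⟨fun x hx => lt_trans hx b, fun hh => lt_irrefl (mu g') (hh b)⟩ (fin g)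

/-- Classes of automorphisms that send every marked generator to a conjugate of itself. -/
def PS : Set (Out (FreeGroup ι)) := {g | ∃ φ, omk φ = g ∧ ∀ i ∈ S, IsConj (of i) (φ (of i))}

variable {S}

lemma kap_PS {g : Out (FreeGroup ι)} (hg : g ∈ PS S) {i : ι} (hi : i ∈ S)
    (P : Finset (ι × Bool)) : kap g P (of i) = dl P (i, false) (i, true) := by
  obtain ⟨φ, rfl, h⟩ := hg
  obtain ⟨w, hw⟩ := isConj_iff.1 (h i hi)
  have : of i = φ⁻¹ w * φ⁻¹ (of i) * (φ⁻¹ w)⁻¹ := by
    rw [← map_inv, ← map_mul, ← map_mul, hw, MulAut.inv_apply_self]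
  rw [kap_omk, ← ell_conj P (φ⁻¹ w), ← this, ← gen_true, ell_gen]
  rfl

lemma exists_PS {g : Out (FreeGroup ι)} (hg : ∑ i ∈ S, len g (of i) ≤ S.card) :
    ∃ g' ∈ PS S, Bs g' = Bs g := by
  obtain ⟨φ, rfl⟩ := omk_surj g
  have h1 : ∀ i ∈ S, (1 : ℤ) ≤ len (omk φ) (of i) := fun i _ => by
    obtain ⟨w, hw⟩ := core_conj (φ⁻¹ (of i))
    rw [len_omk, Nat.one_le_cast, Nat.one_le_iff_ne_zero, clen, Ne, List.length_eq_zero_iff]
    intro he
    rw [he, ← one_eq_mk, mul_one, mul_inv_cancel, EmbeddingLike.map_eq_one_iff] at hw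
    exact of_ne_one _ hw
  have h2 := (Finset.sum_eq_sum_iff_of_le h1).1
    (le_antisymm (Finset.sum_le_sum h1) (by simpa using hg))
  have h3 : ∀ i, ∃ y, i ∈ S → IsConj (of i) (φ (gen y)) := fun i => by
    by_cases hi : i ∈ S
    · obtain ⟨w, hw⟩ := core_conj (φ⁻¹ (of i))
      have := h2 i hi
      rw [len_omk, eq_comm, Nat.cast_eq_one, clen, List.length_eq_one_iff] at this
      obtain ⟨y, hy⟩ := this
      refine ⟨y, fun _ => IsConj.symm (isConj_iff.2 ⟨φ w, ?_⟩)⟩
      rw [← map_inv, ← map_mul, ← map_mul, gen, ← hy, ← hw, MulAut.apply_inv_self]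
    · exact ⟨(i, true), fun hh => absurd hh hi⟩
  choose y hy using h3
  have h4 : Function.Injective fun i : S => (y i).1 := by
    intro i j hij
    by_contra hne
    have a : ∀ k ∈ S, parH {(i.1, true)} (φ (gen (y k))) = parH {(i.1, true)} (of k) :=
      fun k hk => (isConj_iff_eq.1 ((parH _).map_isConj (hy k hk))).symm
    have b : parH {(i.1, true)} (φ (gen (y i))) = parH {(i.1, true)} (φ (gen (y j))) := by
      rcases fst_eq_iff.1 hij with he | he <;> rw [he]
      rw [gen_bar, map_inv, map_inv, inv_eq_iff_mul_eq_one]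
      generalize parH {(i.1, true)} (φ (gen (y j))) = t
      revert t
      decide
    rw [a i i.2, a j j.2, ← gen_true, ← gen_true, parH_gen, parH_gen] at b
    have c : j.1 ≠ i.1 := fun hh => hne (Subtype.ext hh.symm)
    simp [chi, bar, c] at b
  obtain ⟨σ, hσ⟩ := Equiv.Perm.exists_extending_pair _ _ Subtype.val_injective h4
  let s : ι → Bool := fun i => if i ∈ S then (y i).2 else true
  have h5 : ∀ i b, (lift fun i => gen (σ.symm i, s (σ.symm i))) (gen (σ i, b)) =
      if b then gen (i, s i) else (gen (i, s i))⁻¹ := fun i b => by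
    cases b
    · rw [show gen (σ i, false) = (of (σ i))⁻¹ from gen_bar (σ i, true)]; simp
    · simp [gen_true]
  have h6 : ∀ i b, (lift fun i => gen (σ i, s i)) (gen (i, b)) =
      if b then gen (σ i, s i) else (gen (σ i, s i))⁻¹ := fun i b => by
    cases b
    · rw [show gen (i, false) = (of i)⁻¹ from gen_bar (i, true)]; simp
    · simp [gen_true]
  let θ : MulAut (FreeGroup ι) := MonoidHom.toMulEquiv (lift fun i => gen (σ i, s i))
    (lift fun i => gen (σ.symm i, s (σ.symm i))) (by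
      ext i
      simp only [MonoidHom.comp_apply, lift_apply_of, h5, MonoidHom.id_apply]
      cases s i
      · simp [← gen_bar, bar, gen_true]
      · simp [gen_true]) (by
      ext i
      simp only [MonoidHom.comp_apply, lift_apply_of, h6, MonoidHom.id_apply,
        Equiv.apply_symm_apply]
      cases s (σ.symm i)
      · simp [← gen_bar, bar, gen_true]
      · simp [gen_true])
  have h7 : ∀ i, θ (of i) = gen (σ i, s i) := fun i => lift_apply_of (f := fun i => gen (σ i, s i))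
  obtain ⟨v', a1, -, a3⟩ := relabel_of_letters (θ := θ) (fun i => ⟨_, h7 i⟩) (rose (omk φ))
  refine ⟨v'.g, ⟨φ * θ, a1.symm, fun i hi => ?_⟩, a3⟩
  rw [MulAut.mul_apply, h7, show σ i = (y i).1 from hσ ⟨i, hi⟩]
  simpa [s, hi] using hy i hi

theorem acyc_PS [Nonempty ι] : ∀ n, Acyc vle (XX (PS S)) n
  | 0 => acyc_zero ⟨rose 1, 1, ⟨1, rfl, fun _ _ => IsConj.refl _⟩, mem_St_self (rose 1)⟩
  | n + 1 => by
    have e : XX (PS S) = XX {g | ∑ i ∈ S, len g (of i) ≤ S.card} := by
      refine Set.Subset.antisymm (XX_mono fun g hg => ?_) fun v ⟨g, h1, h2⟩ => ?_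
      · refine (Finset.sum_le_card_nsmul S (fun i => len g (of i)) 1 fun i hi => ?_).trans_eq
          (by simp)
        rw [len, Finset.sum_apply, Finset.sum_eq_single i]
        · rw [kap_PS hg hi]; simp [dl]
        · intro j _ hj
          rw [kap_PS hg hi]; simp [dl, hj.symm]
        · simp
      · obtain ⟨g', a1, a2⟩ := exists_PS h1
        exact ⟨g', a1, a2 ▸ h2⟩
    rw [e]
    refine acyc_down (valS S) (valS_mono S) (valS_inj S) (valS_wf S) _ (fun g' h1 g h2 => ?_) n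
    exact (Prod.Lex.toLex_lt_toLex.2 (Or.inl (lt_of_le_of_lt h1 (not_le.1 h2)))).le

end OutFn
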