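import Pool.Agent.Lib.MP_e47d8d_al.PMorse
import Pool.Agent.Lib.MP_e47d8d_al.PCohom

open OutFn in
/-- Let `Γ` be the group of outer automorphisms of `F_N` that fix the conjugacy classes of the
first `k` generators and `d = 2N - 2 - max 1 k`. Then `H^d(Γ; ℤΓ)` is free abelian and
`H^j(Γ; ℤΓ) = 0` for `j < d`. -/
theorem OutFn.partially_symmetric (N k : ℕ) (hN : 2 ≤ N)
    (hk : k ≤ N) (Γ : Type) [Group Γ] (f : Γ →* OutFn.Out (FreeGroup (Fin N)))
    (hf : Function.Injective f)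
    (hr : ∀ φ : MulAut (FreeGroup (Fin N)), QuotientGroup.mk φ ∈ f.range ↔
      ∀ i : Fin N, i.val < k → IsConj (FreeGroup.of i) (φ (FreeGroup.of i))) :
    Module.Free ℤ (groupCohomology (Rep.leftRegular ℤ Γ) (2 * N - 2 - max 1 k)) ∧
      ∀ j < 2 * N - 2 - max 1 k, Subsingleton (groupCohomology (Rep.leftRegular ℤ Γ) j) := by
  have : Nonempty (Fin N) := ⟨⟨0, by omega⟩⟩
  obtain ⟨S, hS, hc⟩ : ∃ S : Finset (Fin N), (∀ i, i ∈ S ↔ i.val < k) ∧ S.card = k :=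
    ⟨Finset.univ.filter fun i => i.val < k, by simp, by
      rw [Fin.card_filter_val_lt]; exact min_eq_right hk⟩
  have hP : ∀ g, g ∈ PS S ↔ ∃ γ, f γ = g := fun g =>
    ⟨fun ⟨φ, h1, h2⟩ => h1 ▸ (hr φ).2 fun i hi => h2 i ((hS i).2 hi), fun h => by
      obtain ⟨φ, rfl⟩ := omk_surj g
      exact ⟨φ, rfl, fun i hi => (hr φ).1 h i ((hS i).1 hi)⟩⟩
  let _ : MulAction Γ (VS S) :=
    { smul := fun γ v => ⟨f γ • v.1, PS_mul ((hP _).2 ⟨γ, rfl⟩) v.2⟩
      one_smul := fun v => Subtype.ext (show f 1 • v.1 = v.1 by rw [map_one, one_smul])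
      mul_smul := fun a b v => Subtype.ext
        (show f (a * b) • v.1 = f a • f b • v.1 by rw [map_mul, mul_smul]) }
  choose hd h1 using fun v : VS S => (hP _).1 v.2
  have hhd : ∀ (γ : Γ) v, hd (γ • v) = γ * hd v := fun γ v => hf (by rw [map_mul, h1, h1]; rfl)
  have hi : Inv Γ fun a b : VS S => vle a.1 b.1 := fun γ v w h => vle_smul (f γ) _ _ h
  have hfa : ∀ v : VS S, {w : VS S | vle v.1 w.1}.Finite := fun v =>
    (finite_above v.1).preimage Subtype.val_injective.injOn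
  have hfd : {v | hd v = 1}.Finite := ((finite_vert (Set.finite_singleton 1)).preimage
    Subtype.val_injective.injOn).subset fun v hv =>
      show v.1.g = 1 by rw [← h1, show hd v = 1 from hv, map_one]
  have hX0 : Subtype.val ⁻¹' Xs S 0 = (Set.univ : Set (VS S)) :=
    Set.eq_univ_of_forall fun v => ⟨v.1.g, ⟨v.2, mu0_nonneg _⟩, mem_St_self _⟩
  have hXa : ∀ i j, i ≤ j → (Subtype.val ⁻¹' Xs S j : Set (VS S)) ⊆ Subtype.val ⁻¹' Xs S i :=
    fun _ _ h => Set.preimage_mono (Xs_anti h)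
  have hXc : ∀ j, (Subtype.val ⁻¹' Xs S j : Set (VS S))ᶜ.Finite := fun j =>
    ((finite_vert (mu0_proper j)).preimage Subtype.val_injective.injOn).subset fun v hv =>
      show mu0 v.1.g ≤ j from le_of_not_ge fun h => hv ⟨v.1.g, ⟨v.2, h⟩, mem_St_self _⟩
  have hXu : ∀ j (v w : VS S), v ∈ Subtype.val ⁻¹' Xs S j → vle v.1 w.1 →
      w ∈ Subtype.val ⁻¹' Xs S j := fun _ _ _ ⟨g, a, b⟩ h => ⟨g, a, Set.Subset.trans b h⟩
  have hXo : ∀ v : VS S, ∃ j, v ∉ Subtype.val ⁻¹' Xs S j := fun v =>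
    (star_away v.1.g).imp fun _ h ⟨g, a, b⟩ => h (mem_St_self v.1) ⟨g, a.2, b⟩
  refine ⟨?_, fun j hj => zero_cohomology hd hhd hi acyc_VS hfa hfd _ hXa hXc hXu hXo j
    fun i m hm => hX0 ▸ rel_VS (Nat.zero_le i) (by rw [hc, Fintype.card_fin]; omega)⟩
  rcases h : 2 * N - 2 - max 1 k with _ | n
  · exact free_zero Γ
  · exact free_cohomology hd hhd hi acyc_VS hfa hfd _ hX0 hXa hXc hXu hXo n
      fun _ _ hij => rel_VS hij (by rw [hc, Fintype.card_fin]; omega)
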