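import Pool.Agent.Lib.MP_e47d8d_al.PDesc
import Pool.Agent.Lib.MP_e47d8d_al.PAsc

/-! Morse theory on the part of the spine where the marked generators are petals. -/

set_option linter.unusedSectionVars false
set_option linter.unusedVariables false

noncomputable section

namespace OutFn

open FreeGroup hiding map_mul map_one map_inv

lemma RelA.retract {α β : Type*} {r : α → α → Prop} {s : β → β → Prop} (a : α → β) (b : β → α)
    (hba : ∀ x, b (a x) = x) (ma : ∀ x y, r x y → s (a x) (a y)) {X' X : Set β} (hX : X ⊆ X')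
    (mb : ∀ x ∈ X', ∀ y ∈ X', s x y → r (b x) (b y)) (h1 : ∀ x ∈ X', a (b x) ∈ X')
    (h2 : ∀ x ∈ X, a (b x) ∈ X) {n : ℕ} (h : RelA s X' X n) : RelA r (a ⁻¹' X') (a ⁻¹' X) n := by
  intro c c1 c2
  have t : ∀ (W : Set β) k, ∀ z ∈ Ch r (a ⁻¹' W) k, mp a z ∈ Ch s W k := fun W k z hz =>
    mp_mem_Ch (f := a) (W := a ⁻¹' W) (fun _ h => h) (fun x _ y _ => ma x y) hz
  obtain ⟨d, d1, d2⟩ := h (mp a c) (t _ _ _ c1) (by rw [← mp_bd]; exact t _ _ _ c2)
  refine ⟨mp b d, mp_mem_Ch (f := b) (W' := a ⁻¹' X') h1 mb d1, ?_⟩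
  have := mp_mem_Ch (s := r) (f := b) (W' := a ⁻¹' X) h2 (fun x hx y hy => mb x (hX hx) y (hX hy)) d2
  rwa [map_sub, mp_mp, mp_bd, show b ∘ a = id from funext hba, mp_id] at this

variable {ι : Type*} [DecidableEq ι] [Fintype ι] {S : Finset ι}

lemma PS_mul {g g' : Out (FreeGroup ι)} (h : g ∈ PS S) (h' : g' ∈ PS S) : g * g' ∈ PS S := by
  obtain ⟨φ, rfl, a⟩ := h
  obtain ⟨ψ, rfl, b⟩ := h'
  exact ⟨φ * ψ, rfl, fun i hi => (a i hi).trans (φ.toMonoidHom.map_isConj (b i hi))⟩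

lemma wh_PS {P : Finset (ι × Bool)} {e : ι × Bool}
    (h : Adm (fun i => (i, true)) (fun i => (i, false)) S e.1 P) : omk (wh P e) ∈ PS S := by
  refine ⟨_, rfl, fun i hi => ?_⟩
  rw [← gen_true, wh_gen]
  split_ifs with h1
  · exact IsConj.refl _
  · have := not_not.1 (h i hi h1)
    exact isConj_iff.2 ⟨(tt P (gen e) (i, true))⁻¹, by simp [tt, bar, this]⟩

lemma exchange_up2 {g : Out (FreeGroup ι)} {v : Vert ι} (h : Bs g ⊆ SS v) (hne : Bs g ≠ Bs v.g)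
    (hle : mu v.g ≤ mu g) (h1 : g ∈ PS S) (h2 : v.g ∈ PS S) :
    ∃ Q ∈ v.F, ∃ i, Sep Q (i, true) (i, false) ∧ cc v.g {(i, true)} < cc v.g Q ∧
      Adm (fun i => (i, true)) (fun i => (i, false)) S i Q := by
  obtain ⟨π, hπ⟩ := exists_match g v h
  have b : ∀ j ∈ S, ∀ i Q, Sep Q (j, true) (j, false) → kap v.g Q = kap g {(π i, true)} →
      π i = j := by
    intro j hj i Q q1 q2
    have := congrFun q2 (of j)
    rw [kap_PS h1 hj, kap_PS h2 hj, dl, if_neg (fun hh => q1 hh.symm)] at this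
    by_contra hh
    simp [dl, Ne.symm hh] at this
  have b' : ∀ j ∈ S, π j = j := fun j hj => by
    rcases (hπ j).2 with a | ⟨Q, _, q2, q3⟩
    exacts [b j hj j _ (by simp [Sep]) a.symm, b j hj j Q q2 q3]
  by_contra hcon
  push Not at hcon
  have a : ∀ i ∈ Finset.univ, cc g {(π i, true)} ≤ cc v.g {(i, true)} := by
    intro i _
    rcases (hπ i).2 with h1 | ⟨Q, q1, q2, q3⟩
    · rw [cc, h1, cc]
    · rw [cc, ← q3]
      exact not_lt.1 fun hh => hcon Q q1 i q2 hh fun j hj hji hs =>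
        hji (π.injective ((b' j hj).trans (b j hj i Q hs q3).symm))
  rw [mu_eq, mu_eq g, ← Equiv.sum_comp π (fun i => cc g {(i, true)})] at hle
  have := (Finset.sum_eq_sum_iff_of_le a).1 (le_antisymm (Finset.sum_le_sum a) hle)
  exact hne (Bs_eq_of_perm π fun i => val_inj (this i (Finset.mem_univ i)))

lemma asc_step2 [Nonempty ι] {g : Out (FreeGroup ι)} (hg : g ∈ PS S) (Γ : Set (Out (FreeGroup ι)))
    (h1 : ∀ g' ∈ Γ, g' ∈ PS S ∧ mu g ≤ mu g') (h2 : ∀ g' ∈ PS S, mu g < mu g' → g' ∈ Γ) {n : ℕ}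
    (hn : n + 3 + max 1 S.card ≤ 2 * Fintype.card ι) : RelA vle (XX (insert g Γ)) (XX Γ) n := by
  by_cases hex : ∃ g' ∈ Γ, Bs g' = Bs g
  · obtain ⟨g', a, b⟩ := hex
    rw [XX_insert_of_eq a b]; exact relA_refl _ _
  refine rel_step g Γ ?_
  let Z := {P | Edge (fun z => {z}) P ∧ ∃ i, Sep P (i, true) (i, false) ∧
    cc g {(i, true)} ≤ cc g P ∧ Adm (fun i => (i, true)) (fun i => (i, false)) S i P}
  have hI : IC compat ((n : ℤ) - 1) Z := by
    rcases S.eq_empty_or_nonempty with rfl | hS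
    · have := asc_IC (x := fun i : ι => (i, true)) (y := fun i => (i, false))
        (h := fun i => cc g {(i, true)}) (cut_cc g) (by simp) (fun _ => rfl)
        (fun i => by rw [cc, kap_fst, cc])
      simp only [Z, Adm, Finset.notMem_empty, false_imp_iff, implies_true, and_true]
      exact this.mono _ (by simp only [Fintype.card_prod, Fintype.card_bool]; omega)
    · exact (asc_IC2 (cut_cc g) hS (by simp)
        (fun z i j a b => (sep_single a).symm.trans (sep_single b))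
        (fun z i a => by rw [← sep_single a, cc, ← kap_fst, cc])).mono _
        (by simp only [Fintype.card_prod, Fintype.card_bool]; omega)
  have hZ : ∀ P ∈ Z, Intr P := fun P hP => intr_of_ne hP.1.2.1 hP.1.2.2.1 hP.1.2.2.2
  have e : XX Γ ∩ St g = {v | v ∈ St g ∧ ∃ P ∈ Z, kap g P ∈ SS v} := by
    ext v
    constructor
    · rintro ⟨⟨g', a1, a2⟩, hv⟩
      refine ⟨hv, ?_⟩
      obtain ⟨v', rfl, e⟩ := exists_blowup g v hv
      rw [← e] at a2 ⊢
      obtain ⟨Q, q1, i, q2, q3, q4⟩ := exchange_up2 a2 (fun h => hex ⟨g', a1, h⟩) (h1 g' a1).2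
        (h1 g' a1).1 hg
      exact ⟨Q, ⟨⟨by simp [Sat], intr_of_cc q2 q3.ne'⟩, i, q2, q3.le, q4⟩, Or.inl ⟨Q, q1, rfl⟩⟩
    · rintro ⟨hv, P, hP, h3⟩
      obtain ⟨_, i, q2, q3, q4⟩ := id hP
      obtain ⟨e, e1, e2, rfl⟩ := sep_orient q2
      have : cc g {(e.1, true)} < cc g P :=
        lt_of_le_of_ne q3 (fun h => (hZ P hP).kap_ne g _ (val_inj h).symm)
      exact ⟨⟨_, h2 _ (PS_mul hg (wh_PS q4)) (lt_of_exch (mu_wh e1 e2 g) this),
        (Bs_wh e1 e2 g).trans (Set.insert_subset h3 hv)⟩, hv⟩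
  rw [e]
  exact acyc_link g hZ hI (by omega)

/-- The filtration by neighbourhoods of infinity. -/
def Xs (S : Finset ι) (j : ℕ) : Set (Vert ι) := XX {g | g ∈ PS S ∧ (j : ℤ) ≤ mu0 g}

lemma Xs_anti {i j : ℕ} (h : i ≤ j) : Xs S j ⊆ Xs S i :=
  XX_mono fun g hg => ⟨hg.1, le_trans (by exact_mod_cast h : (i : ℤ) ≤ j) hg.2⟩

theorem rel_Xs [Nonempty ι] {i j n : ℕ} (hij : i ≤ j)
    (hn : n + 3 + max 1 S.card ≤ 2 * Fintype.card ι) : RelA vle (Xs S i) (Xs S j) n := by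
  have key : ∀ T : Set (Out (FreeGroup ι)), T.Finite → (∀ g ∈ T, g ∈ PS S ∧ mu0 g < j) →
      (∀ g ∈ T, ∀ g' ∈ PS S, mu g < mu g' → mu0 g' < j → g' ∈ T) →
      RelA vle (XX ({g | g ∈ PS S ∧ (j : ℤ) ≤ mu0 g} ∪ T)) (Xs S j) n := by
    intro T hT
    refine set_ind_min mu (p := fun T => (∀ g ∈ T, g ∈ PS S ∧ mu0 g < j) →
      (∀ g ∈ T, ∀ g' ∈ PS S, mu g < mu g' → mu0 g' < j → g' ∈ T) →
      RelA vle (XX ({g | g ∈ PS S ∧ (j : ℤ) ≤ mu0 g} ∪ T)) (Xs S j) n) ?_ ?_ hT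
    · intro _ _; rw [Set.union_empty]; exact relA_refl _ _
    · intro a T ha hmin ih s1 s2
      have t2 : ∀ g ∈ insert a T, ∀ g' ∈ PS S, mu g < mu g' → mu a < mu g' → mu0 g' < j →
          g' ∈ T := by
        intro g hg g' b0 b1 b2 b3
        rcases s2 g hg g' b0 b1 b3 with rfl | h
        exacts [absurd b2 (lt_irrefl _), h]
      rw [Set.union_insert]
      refine (asc_step2 (s1 a (Or.inl rfl)).1 _ ?_ ?_ hn).trans (ih (fun g hg => s1 g (Or.inr hg))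
        (fun g hg g' b0 b1 => t2 g (Or.inr hg) g' b0 b1 ((hmin g hg).trans_lt b1)))
        (XX_mono (Set.subset_insert _ _)) (XX_mono Set.subset_union_left)
      · rintro g' (h | h)
        exacts [⟨h.1, (mu_lt ((s1 a (Or.inl rfl)).2.trans_le h.2)).le⟩,
          ⟨(s1 g' (Or.inr h)).1, hmin g' h⟩]
      · intro g' b0 h
        by_cases b : mu0 g' < j
        exacts [Or.inr (t2 a (Or.inl rfl) g' b0 h h b), Or.inl ⟨b0, not_lt.1 b⟩]
  have hf : {g : Out (FreeGroup ι) | g ∈ PS S ∧ (i : ℤ) ≤ mu0 g ∧ mu0 g < j}.Finite :=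
    (mu0_proper j).subset fun g hg => hg.2.2.le
  have := key _ hf (fun g hg => ⟨hg.1, hg.2.2⟩)
    (fun g hg g' b0 b1 b2 => ⟨b0, hg.2.1.trans (mu0_le b1.le), b2⟩)
  have e : {g : Out (FreeGroup ι) | g ∈ PS S ∧ (j : ℤ) ≤ mu0 g} ∪
      {g | g ∈ PS S ∧ (i : ℤ) ≤ mu0 g ∧ mu0 g < j} = {g | g ∈ PS S ∧ (i : ℤ) ≤ mu0 g} := by
    ext g
    simp only [Set.mem_ofPred_eq, Set.mem_union, ← and_or_left]
    exact and_congr_right fun _ => by omega
  rwa [e] at this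

/-- Vertices whose marking fixes the classes of the marked generators. -/
abbrev VS (S : Finset ι) := {v : Vert ι // v.g ∈ PS S}

lemma exists_retr (S : Finset ι) : ∃ b : Vert ι → VS S, (∀ x : VS S, b x.1 = x) ∧
    ∀ v ∈ XX (PS S), SS (b v).1 = SS v := by
  have : ∀ v : Vert ι, ∃ w : VS S, (v.g ∈ PS S → w.1 = v) ∧ (v ∈ XX (PS S) → SS w.1 = SS v) := by
    intro v
    by_cases h1 : v.g ∈ PS S
    · exact ⟨⟨v, h1⟩, fun _ => rfl, fun _ => rfl⟩
    by_cases h2 : v ∈ XX (PS S)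
    · obtain ⟨g, a1, a2⟩ := h2
      obtain ⟨v', rfl, a3⟩ := exists_blowup g v a2
      exact ⟨⟨v', a1⟩, fun h => absurd h h1, fun _ => a3⟩
    · exact ⟨⟨rose 1, 1, rfl, fun _ _ => IsConj.refl _⟩, fun h => absurd h h1, fun h => absurd h h2⟩
  choose b h1 h2 using this
  exact ⟨b, fun x => Subtype.ext (h1 _ x.2), h2⟩

theorem acyc_VS [Nonempty ι] (n : ℕ) : Acyc (fun a b : VS S => vle a.1 b.1) Set.univ n := by
  obtain ⟨b, h1, h2⟩ := exists_retr S
  exact acyc_transfer (r := fun a b : VS S => vle a.1 b.1) (s := vle) (W := Set.univ)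
    (W' := XX (PS S)) (fun _ _ _ => vle_trans _ _ _) Subtype.val b
    (fun x _ => ⟨_, x.2, mem_St_self _⟩) (fun _ _ => trivial) (fun _ _ _ _ h => h)
    (fun x hx y hy h => by rwa [vle, h2 x hx, h2 y hy])
    (Or.inl fun x _ => by rw [h1]; exact Set.Subset.rfl) (acyc_PS n)

theorem rel_VS [Nonempty ι] {i j n : ℕ} (hij : i ≤ j)
    (hn : n + 3 + max 1 S.card ≤ 2 * Fintype.card ι) :
    RelA (fun a b : VS S => vle a.1 b.1) (Subtype.val ⁻¹' Xs S i) (Subtype.val ⁻¹' Xs S j) n := by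
  obtain ⟨b, h1, h2⟩ := exists_retr S
  have h3 : ∀ i, Xs S i ⊆ XX (PS S) := fun i => XX_mono fun _ h => h.1
  have h4 : ∀ i, ∀ x ∈ Xs S i, (b x).1 ∈ Xs S i := fun i x hx =>
    hx.imp fun g hg => ⟨hg.1, (h2 x (h3 i hx)).symm ▸ hg.2⟩
  exact (rel_Xs hij hn).retract Subtype.val b h1 (fun _ _ h => h) (Xs_anti hij)
    (fun x hx y hy h => by rwa [vle, h2 x (h3 i hx), h2 y (h3 i hy)]) (h4 i) (h4 j)

end OutFn
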