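import Pool.Agent.Lib.MP_e47d8d_al.Chains
import Pool.Agent.Lib.MP_e47d8d_al.FreeLim

/-! The free resolution given by a free acyclic action, and cohomology with group ring
coefficients. -/

set_option linter.unusedSectionVars false
set_option linter.unusedVariables false

noncomputable section

namespace OutFn

open CategoryTheory Finsupp

attribute [local instance 2000] Rep.hV2

theorem free_homology {R : Type} [CommRing R] [IsDomain R] [IsPrincipalIdealRing R]
    (S : ShortComplex (ModuleCat.{0} R)) (F : ℕ → Submodule R S.X₂) (hm : Monotone F)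
    (h0 : F 0 = ⊥) (hall : ∀ x, ∃ j, x ∈ F j) (hfg : ∀ j, (F j).FG)
    (hp : ∀ i (m : R) φ θ, m ≠ 0 → m • φ - S.f.hom θ ∈ F i → ∃ θ', φ - S.f.hom θ' ∈ F i) :
    Module.Free R S.homology := by
  let q := (LinearMap.range S.moduleCatToCycles).mkQ
  have : Module.Free R S.moduleCatLeftHomologyData.H := by
    change Module.Free R (LinearMap.ker S.g.hom ⧸ LinearMap.range S.moduleCatToCycles)
    refine free_of_filtration (fun j => ((F j).comap (LinearMap.ker S.g.hom).subtype).map q)
      (fun i j h => Submodule.map_mono (Submodule.comap_mono (hm h))) ?_ ?_ ?_ ?_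
    · simp [h0]
    · intro x
      obtain ⟨x, rfl⟩ := Submodule.mkQ_surjective _ x
      obtain ⟨j, hj⟩ := hall x.1
      exact ⟨j, Submodule.mem_map_of_mem hj⟩
    · intro j
      refine Submodule.FG.map _ (Submodule.fg_of_fg_map_injective _
        (LinearMap.ker S.g.hom).injective_subtype ?_)
      exact (hfg j).of_le (Submodule.map_comap_le _ _)
    · intro j m x hm hx
      obtain ⟨x, rfl⟩ := Submodule.mkQ_surjective _ x
      obtain ⟨y, hy1, hy2⟩ := hx
      rw [← map_smul, eq_comm, ← sub_eq_zero, ← map_sub, Submodule.mkQ_apply,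
        Submodule.Quotient.mk_eq_zero] at hy2
      obtain ⟨θ, hθ⟩ := hy2
      have e : m • x.1 - S.f.hom θ = y.1 := by
        have := congrArg Subtype.val hθ
        change S.f.hom θ = m • x.1 - y.1 at this
        rw [this]; abel
      obtain ⟨θ', h'⟩ := hp j m x.1 θ hm (e ▸ hy1)
      refine ⟨x - S.moduleCatToCycles θ', h', ?_⟩
      rw [map_sub, sub_eq_self]
      exact (Submodule.Quotient.mk_eq_zero _).2 ⟨θ', rfl⟩
  exact Module.Free.of_equiv S.moduleCatHomologyIso.toLinearEquiv.symm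

lemma finite_lists {V : Type*} {T : Set V} (hT : T.Finite) (n : ℕ) :
    {l : List V | l.length = n ∧ ∀ x ∈ l, x ∈ T}.Finite := by
  induction n with
  | zero => exact (Set.finite_singleton []).subset fun l hl => List.length_eq_zero_iff.1 hl.1
  | succ n ih =>
    refine (hT.image2 List.cons ih).subset ?_
    rintro (_ | ⟨x, l⟩) ⟨h1, h2⟩
    · simp at h1
    · exact ⟨x, h2 x (by simp), l, ⟨by simpa using h1, fun y hy => h2 y (by simp [hy])⟩, rfl⟩

variable {G V : Type} [Group G] [MulAction G V] {r : V → V → Prop}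

lemma finite_simplices (hfa : ∀ v, {w | r v w}.Finite) {S : Set V} (hS : S.Finite) (n : ℕ) :
    {l | l ∈ Sx r Set.univ (n + 1) ∧ ∃ x ∈ S, l.head? = some x}.Finite := by
  refine (finite_lists (hS.union (hS.biUnion fun v _ => hfa v)) (n + 1)).subset ?_
  rintro l ⟨h1, x, hx, h2⟩
  obtain ⟨y, t, rfl⟩ := Sx_succ h1
  obtain rfl : y = x := by simpa using h2
  refine ⟨h1.1, fun z hz => ?_⟩
  rcases List.mem_cons.1 hz with rfl | hz
  · exact Or.inl hx
  · exact Or.inr (Set.mem_biUnion hx ((cons_mem_Sx.1 h1).2.2.1 z hz).2)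

open Classical in
/-- Retraction onto chains. -/
def rs (r : V → V → Prop) (n : ℕ) : LL V →ₗ[ℤ] Ch r Set.univ n :=
  Finsupp.restrictDom ℤ ℤ (Sx r Set.univ n)

lemma rs_coe {n : ℕ} (c : Ch r Set.univ n) : rs r n c.1 = c := by
  classical
  exact LinearMap.congr_fun (Finsupp.restrictDom_comp_subtype (M := ℤ) (R := ℤ)
    (Sx r Set.univ n)) c

lemma coe_rs {n : ℕ} {c : LL V} (h : c ∈ Ch r Set.univ n) : (rs r n c).1 = c :=
  congrArg Subtype.val (rs_coe ⟨c, h⟩)

/-- The relation is invariant. -/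
def Inv (G : Type) {V : Type} [Group G] [MulAction G V] (r : V → V → Prop) : Prop :=
  ∀ (g : G) v w, r v w → r (g • v) (g • w)

variable (hi : Inv G r)
include hi

lemma smul_mem_Sx (g : G) {n : ℕ} {l : List V} (h : l ∈ Sx r Set.univ n) :
    l.map (g • ·) ∈ Sx r Set.univ n :=
  map_mem_Sx (fun _ _ => Set.mem_univ _) (fun x _ y _ => hi g x y) h

lemma smul_mem_Ch (g : G) {n : ℕ} {c : LL V} (h : c ∈ Ch r Set.univ n) :
    mp (g • ·) c ∈ Ch r Set.univ n :=
  mp_mem_Ch (fun _ _ => Set.mem_univ _) (fun x _ y _ => hi g x y) h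

/-- The action on chains. -/
def rho (n : ℕ) : Representation ℤ G (Ch r Set.univ n) where
  toFun g := (mp (g • ·)).restrict fun c hc => smul_mem_Ch hi g hc
  map_one' := by
    ext c : 2
    have : (fun v : V => (1 : G) • v) = id := funext fun v => one_smul G v
    change mp _ c.1 = c.1
    rw [this, mp_id]
  map_mul' a b := by
    ext c : 2
    have : (fun v : V => (a * b) • v) = (a • ·) ∘ (b • ·) := funext fun v => mul_smul a b v
    change mp _ c.1 = mp _ (mp _ c.1)
    rw [this, mp_mp]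

lemma rho_coe (n : ℕ) (g : G) (c : Ch r Set.univ n) : (rho hi n g c).1 = mp (g • ·) c.1 := rfl

lemma rho_rs {n : ℕ} (g : G) {c : LL V} (h : c ∈ Ch r Set.univ n) :
    rho hi n g (rs r n c) = rs r n (mp (g • ·) c) :=
  Subtype.ext (by rw [rho_coe, coe_rs h, coe_rs (smul_mem_Ch hi g h)])

/-- Chains on `n + 1` vertices as a representation. -/
abbrev XR (n : ℕ) : Rep ℤ G := Rep.of (rho hi (n + 1))

/-- The boundary as a morphism of representations. -/
def dR (n : ℕ) : XR hi (n + 1) ⟶ XR hi n :=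
  Rep.ofHom ⟨bd.restrict fun c hc => bd_mem_Ch hc, fun g => by
    ext c : 2
    exact (mp_bd _ _).symm⟩

lemma dR_rs {n : ℕ} {c : LL V} (h : c ∈ Ch r Set.univ (n + 2)) :
    (dR hi n).hom (rs r (n + 2) c) = rs r (n + 1) (bd c) := by
  apply Subtype.ext
  change bd (rs r (n + 2) c).1 = _
  rw [coe_rs h, coe_rs (bd_mem_Ch h)]

/-- The chain complex. -/
def CR : ChainComplex (Rep ℤ G) ℕ :=
  ChainComplex.of (XR hi) (dR hi) fun n => by
    ext c : 3
    exact Subtype.ext (bd_bd _)

lemma hom_ext' {n : ℕ} {A : Rep ℤ G} {f g : XR hi n ⟶ A}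
    (h : ∀ l ∈ Sx r Set.univ (n + 1), f.hom (rs r (n + 1) (single l 1)) =
      g.hom (rs r (n + 1) (single l 1))) : f = g := by
  refine Rep.hom_ext (Representation.IntertwiningMap.ext (LinearMap.ext fun c => ?_))
  have := map_mem_of_Ch ((f.hom.toLinearMap - g.hom.toLinearMap) ∘ₗ rs r (n + 1)) ⊥
    (fun l hl => by simpa [sub_eq_zero] using h l hl) c.2
  simpa [rs_coe, sub_eq_zero] using this

/-- The augmentation. -/
def epsR : XR hi 0 ⟶ Rep.trivial ℤ G ℤ :=
  Rep.ofHom ⟨(Finsupp.lapply []) ∘ₗ bd ∘ₗ (Ch r Set.univ 1).subtype, fun g => by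
    ext c
    have := map_mem_of_Ch ((Finsupp.lapply (R := ℤ) []) ∘ₗ (mp (g • ·) - LinearMap.id)) ⊥
      (fun l hl => by simp [Sx_zero.1 hl]) (bd_mem_Ch c.2)
    simpa [sub_eq_zero, rho_coe, mp_bd] using this⟩

variable (hd : V → G) (hhd : ∀ (g : G) v, hd (g • v) = g * hd v)

/-- Group coordinate of a list. -/
def hdL : List V → G
  | [] => 1
  | x :: _ => hd x

include hhd

omit hi in
lemma hdL_smul {n : ℕ} (g : G) {l : List V} (h : l ∈ Sx r Set.univ (n + 1)) :
    hdL hd (l.map (g • ·)) = g * hdL hd l := by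
  obtain ⟨x, t, rfl⟩ := Sx_succ h
  exact hhd g x

lemma exists_hom (n : ℕ) (A : Rep ℤ G) (s : List V → A) : ∃ f : XR hi n ⟶ A,
    ∀ l ∈ Sx r Set.univ (n + 1), f.hom (rs r (n + 1) (single l 1)) =
      A.ρ (hdL hd l) (s (l.map ((hdL hd l)⁻¹ • ·))) := by
  let T : LL V →ₗ[ℤ] A := Finsupp.linearCombination ℤ
    fun l => A.ρ (hdL hd l) (s (l.map ((hdL hd l)⁻¹ • ·)))
  refine ⟨Rep.ofHom ⟨T ∘ₗ (Ch r Set.univ (n + 1)).subtype, fun g => ?_⟩, fun l hl => ?_⟩
  · ext c
    have := map_mem_of_Ch (T ∘ₗ mp (g • ·) - A.ρ g ∘ₗ T) ⊥ (fun l hl => by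
      simp [T, hdL_smul hd hhd g hl, Function.comp_def, smul_smul]) c.2
    simpa [sub_eq_zero, rho_coe] using this
  · change T (rs r (n + 1) (single l 1)).1 = _
    rw [coe_rs (single_mem_Ch hl 1)]
    exact (Finsupp.linearCombination_single _ _ _).trans (A.hV2.one_smul _)

lemma rs_single_eq {n : ℕ} {l : List V} (hl : l ∈ Sx r Set.univ (n + 1)) (g : G) :
    rs r (n + 1) (single l 1) =
      rho hi (n + 1) g (rs r (n + 1) (single (l.map (g⁻¹ • ·)) 1)) := by
  rw [rho_rs hi _ (single_mem_Ch (smul_mem_Sx hi _ hl) 1)]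
  simp [Function.comp_def]

lemma projective_XR (n : ℕ) : Projective (XR hi n) where
  factors {E Y} f e he := by
    have hs := (Rep.epi_iff_surjective e).1 he
    choose s hs using fun l : List V => hs (f.hom (rs r (n + 1) (single l 1)))
    obtain ⟨f', hf'⟩ := exists_hom hi hd hhd n E s
    refine ⟨f', hom_ext' hi fun l hl => ?_⟩
    change e.hom (f'.hom _) = _
    rw [hf' l hl, Rep.hom_comm_apply, hs, ← Rep.hom_comm_apply,
      rs_single_eq hi hd hhd hl (hdL hd l)]

omit hhd in
/-- The chain map to the trivial module. -/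
def piR : CR hi ⟶ (ChainComplex.single₀ (Rep ℤ G)).obj (Rep.trivial ℤ G ℤ) :=
  ((CR hi).toSingle₀Equiv _).symm ⟨epsR hi, by
    have : (CR hi).d 1 0 = dR hi 0 := ChainComplex.of_d (XR hi) (dR hi) 0
    rw [this]
    refine Rep.hom_ext (Representation.IntertwiningMap.ext (LinearMap.ext fun c => ?_))
    change bd (bd c.1) [] = 0
    rw [bd_bd]; rfl⟩

omit hhd in
lemma quasiIso_piR (hac : ∀ n, Acyc r Set.univ n) : QuasiIso (piR hi) where
  quasiIsoAt m := by
    cases m with
    | zero =>
      simp only [piR]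
      rw [ChainComplex.quasiIsoAt₀_iff, ShortComplex.quasiIso_iff_of_zeros' _ rfl rfl rfl]
      constructor
      · apply (forget₂ _ (ModuleCat ℤ)).reflects_exact_of_faithful
        rw [ShortComplex.moduleCat_exact_iff]
        intro c hc
        have h1 : bd c.1 [] = 0 := by
          simpa [ChainComplex.toSingle₀Equiv] using! hc
        have h2 : bd c.1 = 0 := by
          ext l
          by_contra hne
          obtain rfl := Sx_zero.1 (bd_mem_Ch c.2 (Finsupp.mem_support_iff.2 hne))
          exact hne h1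
        obtain ⟨y, y1, y2⟩ := hac 1 c.1 c.2 h2
        refine ⟨⟨y, y1⟩, ?_⟩
        have : (CR hi).d 1 0 = dR hi 0 := ChainComplex.of_d (XR hi) (dR hi) 0
        change ((CR hi).d 1 0).hom _ = _
        rw [this]
        exact Subtype.ext y2
      · rw [Rep.epi_iff_surjective]
        intro x
        obtain ⟨y, y1, y2⟩ := hac 0 (single [] x) (single_mem_Ch (Sx_zero.2 rfl) x) (by simp [bdL])
        refine ⟨⟨y, y1⟩, ?_⟩
        have : bd y [] = x := by simp [y2]
        simpa [ChainComplex.toSingle₀Equiv] using! this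
    | succ m =>
      rw [quasiIsoAt_iff_exactAt' (hL := ChainComplex.exactAt_succ_single_obj ..),
          HomologicalComplex.exactAt_iff' _ (m + 2) (m + 1) m (by simp) (by simp)]
      apply (forget₂ _ (ModuleCat ℤ)).reflects_exact_of_faithful
      rw [ShortComplex.moduleCat_exact_iff]
      intro c hc
      have e1 : (CR hi).d (m + 1) m = dR hi m := ChainComplex.of_d (XR hi) (dR hi) m
      have e2 : (CR hi).d (m + 2) (m + 1) = dR hi (m + 1) := ChainComplex.of_d (XR hi) (dR hi) (m + 1)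
      change ((CR hi).d (m + 1) m).hom _ = _ at hc
      rw [e1] at hc
      obtain ⟨y, y1, y2⟩ := hac (m + 2) c.1 c.2 (congrArg Subtype.val hc)
      refine ⟨⟨y, y1⟩, ?_⟩
      change ((CR hi).d (m + 2) (m + 1)).hom _ = _
      rw [e2]
      exact Subtype.ext y2

/-- The projective resolution. -/
def resR (hac : ∀ n, Acyc r Set.univ n) : ProjectiveResolution (Rep.trivial ℤ G ℤ) where
  complex := CR hi
  projective n := projective_XR hi hd hhd n
  π := piR hi
  quasiIso := quasiIso_piR hi hac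

end OutFn
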