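import Pool.Agent.Lib.MP_e47d8d_al.Defs
import Pool.Agent.Lib.MP_e47d8d_al.Nielsen
import Pool.Agent.Lib.MP_e47d8d_al.Asc

/-! A model of the spine of outer space: marked roses with families of compatible partitions. -/

set_option linter.unusedSectionVars false
set_option linter.unusedVariables false

noncomputable section

namespace OutFn

open FreeGroup hiding map_mul map_one map_inv

variable {ι : Type*} [DecidableEq ι] [Fintype ι]

/-- Class of an automorphism. -/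
def omk (φ : MulAut (FreeGroup ι)) : Out (FreeGroup ι) := QuotientGroup.mk φ

lemma omk_mul (φ ψ : MulAut (FreeGroup ι)) : omk (φ * ψ) = omk φ * omk ψ := rfl

lemma omk_inv (φ : MulAut (FreeGroup ι)) : omk φ⁻¹ = (omk φ)⁻¹ := rfl

lemma omk_surj (g : Out (FreeGroup ι)) : ∃ φ, omk φ = g := QuotientGroup.mk_surjective g

lemma omk_conj (u : FreeGroup ι) (φ : MulAut (FreeGroup ι)) : omk (MulAut.conj u * φ) = omk φ := by
  rw [omk_mul, show omk (MulAut.conj u) = 1 from (QuotientGroup.eq_one_iff _).2 ⟨u, rfl⟩, one_mul]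

/-- Crossing function of a partition in a marked rose. -/
def kap (g : Out (FreeGroup ι)) (P : Finset (ι × Bool)) : FreeGroup ι → ℤ :=
  Quotient.liftOn' g (fun φ w => ell P (φ⁻¹ w)) (by
    intro φ ψ h
    obtain ⟨u, hu⟩ := QuotientGroup.leftRel_apply.1 h
    have : φ⁻¹ = MulAut.conj u * ψ⁻¹ := by rw [hu]; group
    funext w
    rw [this, MulAut.mul_apply, MulAut.conj_apply, ell_conj])

lemma kap_omk (φ : MulAut (FreeGroup ι)) (P : Finset (ι × Bool)) (w : FreeGroup ι) :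
    kap (omk φ) P w = ell P (φ⁻¹ w) := rfl

lemma kap_left (ψ : MulAut (FreeGroup ι)) (g : Out (FreeGroup ι)) (P : Finset (ι × Bool)) :
    kap (omk ψ * g) P = kap g P ∘ ⇑(ψ⁻¹) := by
  obtain ⟨φ, rfl⟩ := omk_surj g
  funext w
  simp [← omk_mul, kap_omk]

lemma kap_right {θ : MulAut (FreeGroup ι)} {Q Q' : Finset (ι × Bool)}
    (h : ∀ w, ell Q' w = ell Q (θ w)) (g : Out (FreeGroup ι)) : kap (g * omk θ) Q' = kap g Q := by
  obtain ⟨φ, rfl⟩ := omk_surj g
  funext w
  simp [← omk_mul, kap_omk, h]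

lemma ell_eq_of_kap {g : Out (FreeGroup ι)} {P Q : Finset (ι × Bool)} (h : kap g P = kap g Q)
    (w : FreeGroup ι) : ell P w = ell Q w := by
  obtain ⟨φ, rfl⟩ := omk_surj g
  simpa [kap_omk] using congrFun h (φ w)

lemma kap_compl (g : Out (FreeGroup ι)) (P : Finset (ι × Bool)) : kap g Pᶜ = kap g P := by
  obtain ⟨φ, rfl⟩ := omk_surj g
  funext w; simp [kap_omk, ell_compl]

lemma kap_bar (g : Out (FreeGroup ι)) (y : ι × Bool) : kap g {bar y} = kap g {y} := by
  obtain ⟨φ, rfl⟩ := omk_surj g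
  funext w; simp [kap_omk, ell_single_bar]

lemma kap_fst (g : Out (FreeGroup ι)) (y : ι × Bool) : kap g {y} = kap g {(y.1, true)} := by
  obtain ⟨i, b⟩ := y
  cases b
  · exact kap_bar g (i, true)
  · rfl

lemma kap_nonneg (g : Out (FreeGroup ι)) (P : Finset (ι × Bool)) (w : FreeGroup ι) :
    0 ≤ kap g P w := by
  obtain ⟨φ, rfl⟩ := omk_surj g
  exact ell_nonneg _ _

/-- Sum of the values on standard words of length one and two. -/
def val0 : (FreeGroup ι → ℤ) →+ ℤ where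
  toFun f := ∑ i, f (of i) + ∑ i, ∑ j, f (of i * of j)
  map_zero' := by simp
  map_add' f g := by simp only [Pi.add_apply, Finset.sum_add_distrib]; ring

/-- An enumeration of the free group. -/
def enum (ι : Type*) [Fintype ι] : ℕ → FreeGroup ι := (exists_surjective_nat (FreeGroup ι)).choose

/-- Lexicographic value of a function. -/
def val : (FreeGroup ι → ℤ) →+ Lex (ℕ → ℤ) where
  toFun f := toLex fun n => Nat.casesOn n (val0 f) fun n => f (enum ι n)
  map_zero' := by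
    refine congrArg toLex (funext fun n => ?_)
    cases n <;> simp
  map_add' f g := by
    refine congrArg toLex (funext fun n => ?_)
    cases n
    · exact map_add val0 f g
    · rfl

lemma val_inj {f g : FreeGroup ι → ℤ} (h : val f = val g) : f = g := by
  funext w
  obtain ⟨n, rfl⟩ := (exists_surjective_nat (FreeGroup ι)).choose_spec w
  exact congrFun (toLex.injective h) (n + 1)

lemma val0_mono {f g : FreeGroup ι → ℤ} (h : f ≤ g) : val0 f ≤ val0 g :=
  add_le_add (Finset.sum_le_sum fun i _ => h _)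
    (Finset.sum_le_sum fun i _ => Finset.sum_le_sum fun j _ => h _)

lemma val_mono {f g : FreeGroup ι → ℤ} (h : f ≤ g) : val f ≤ val g := by
  refine Pi.toLex_monotone (fun n => ?_)
  cases n
  exacts [val0_mono h, h _]

lemma val_lt {f g : FreeGroup ι → ℤ} (h : val0 f < val0 g) : val f < val g :=
  ⟨0, fun j hj => absurd hj (Nat.not_lt_zero j), h⟩

/-- Height of a partition. -/
def cc (g : Out (FreeGroup ι)) (P : Finset (ι × Bool)) : Lex (ℕ → ℤ) := val (kap g P)

lemma cut_cc (g : Out (FreeGroup ι)) : Cut (cc g) where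
  sub A B := by
    simp only [cc, ← map_add]
    refine val_mono (fun w => ?_)
    obtain ⟨φ, rfl⟩ := omk_surj g
    exact ell_sub _ _ _
  sym A := by simp only [cc, kap_compl]

/-- Cyclic length function of a marked rose. -/
def len (g : Out (FreeGroup ι)) : FreeGroup ι → ℤ := ∑ i, kap g {(i, true)}

lemma len_omk (φ : MulAut (FreeGroup ι)) (w : FreeGroup ι) : len (omk φ) w = clen (φ⁻¹ w) := by
  simp [len, kap_omk, sum_ell_single]

/-- Height of a marked rose. -/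
def mu (g : Out (FreeGroup ι)) : Lex (ℕ → ℤ) := val (len g)

/-- Coarse height of a marked rose. -/
def mu0 (g : Out (FreeGroup ι)) : ℤ := val0 (len g)

lemma mu_eq (g : Out (FreeGroup ι)) : mu g = ∑ i, cc g {(i, true)} := by
  simp [mu, len, cc]

lemma mu0_le {g g' : Out (FreeGroup ι)} (h : mu g ≤ mu g') : mu0 g ≤ mu0 g' :=
  not_lt.1 fun h' => absurd (val_lt h') (not_lt.2 h)

lemma mu_lt {g g' : Out (FreeGroup ι)} (h : mu0 g < mu0 g') : mu g < mu g' := val_lt h

lemma mu0_nonneg (g : Out (FreeGroup ι)) : 0 ≤ mu0 g := by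
  have := val0_mono (f := 0) (g := len g) (fun w => by
    obtain ⟨φ, rfl⟩ := omk_surj g
    simp [len_omk])
  simpa [mu0] using this

lemma mu0_proper (B : ℤ) : {g : Out (FreeGroup ι) | mu0 g ≤ B}.Finite := by
  refine ((finite_aut (2 * B.toNat + 2)).image (fun θ => (omk θ)⁻¹)).subset ?_
  intro g hg
  obtain ⟨φ, rfl⟩ := omk_surj g
  have h0 : ∑ i, (clen (φ⁻¹ (of i)) : ℤ) + ∑ i, ∑ j, (clen (φ⁻¹ (of i * of j)) : ℤ) ≤ B := by
    simpa only [Set.mem_ofPred_eq, mu0, val0, AddMonoidHom.coe_mk, ZeroHom.coe_mk, len_omk]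
      using hg
  have h1 : 0 ≤ ∑ i, (clen (φ⁻¹ (of i)) : ℤ) := by positivity
  have h2 : 0 ≤ ∑ i, ∑ j, (clen (φ⁻¹ (of i * of j)) : ℤ) := by positivity
  obtain ⟨u, hu⟩ := conj_short (fun i => φ⁻¹ (of i)) (B := B.toNat) (fun i => by
    have := Finset.single_le_sum (f := fun i => (clen (φ⁻¹ (of i)) : ℤ))
      (fun _ _ => by positivity) (Finset.mem_univ i)
    omega) (fun i j => by
    have a1 := Finset.single_le_sum (f := fun i => ∑ j, (clen (φ⁻¹ (of i * of j)) : ℤ))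
      (fun _ _ => by positivity) (Finset.mem_univ i)
    have a2 := Finset.single_le_sum (f := fun j => (clen (φ⁻¹ (of i * of j)) : ℤ))
      (fun _ _ => by positivity) (Finset.mem_univ j)
    rw [← map_mul]
    omega)
  exact ⟨MulAut.conj u * φ⁻¹, hu, by simp only [omk_conj, omk_inv, inv_inv]⟩

/-- Vertices: a marking and a family of pairwise compatible partitions. -/
@[ext] structure Vert (ι : Type*) [DecidableEq ι] where
  /-- the marking -/
  g : Out (FreeGroup ι)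
  /-- the family -/
  F : Set (Finset (ι × Bool))
  cpt : ∀ P ∈ F, ∀ Q ∈ F, compat P Q

/-- Crossing functions of the petals. -/
def Bs (g : Out (FreeGroup ι)) : Set (FreeGroup ι → ℤ) := Set.range fun y => kap g {y}

/-- Crossing functions of all edges of the blown-up graph. -/
def SS (v : Vert ι) : Set (FreeGroup ι → ℤ) := kap v.g '' v.F ∪ Bs v.g

/-- The preorder on vertices. -/
def vle (v w : Vert ι) : Prop := SS v ⊆ SS w

/-- The rose with a given marking. -/
def rose (g : Out (FreeGroup ι)) : Vert ι := ⟨g, ∅, by simp⟩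

lemma SS_rose (g : Out (FreeGroup ι)) : SS (rose g) = Bs g := by simp [SS, rose]

lemma compat_pre (f : ι × Bool → ι × Bool) {P Q : Finset (ι × Bool)} (h : compat P Q) :
    compat (pre f P) (pre f Q) := by
  simp only [compat, mem_pre] at *
  rcases h with h | h | h | h
  exacts [Or.inl fun z => h _, Or.inr (Or.inl fun z => h _),
    Or.inr (Or.inr (Or.inl fun z => h _)), Or.inr (Or.inr (Or.inr fun z => h _))]

lemma compat_single (y : ι × Bool) (P : Finset (ι × Bool)) : compat {y} P := by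
  unfold compat; by_cases h : y ∈ P <;> simp [h]

section swap

variable {P : Finset (ι × Bool)} {e : ι × Bool} (h1 : e ∈ P) (h2 : bar e ∉ P)
include h1 h2

lemma kap_wh_self (g : Out (FreeGroup ι)) : kap (g * omk (wh P e)) {e} = kap g P := by
  rw [← kap_right (ell_wh2 h1 h2 (Or.inl fun z hz => hz)) g]
  congr 1
  ext y
  simp only [mem_pre, pi2, Finset.mem_singleton]
  grind

lemma kap_wh_other (g : Out (FreeGroup ι)) {y : ι × Bool} (hy : y.1 ≠ e.1) :
    kap (g * omk (wh P e)) {y} = kap g {y} := by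
  rw [Ne, fst_eq_iff, not_or] at hy
  by_cases h : y ∈ P
  · rw [← kap_right (ell_wh1 h1 h2 (Q := {y}) (Or.inr (by grind))) g]
    congr 1
    ext z
    simp only [mem_pre, pi1, Finset.mem_singleton]
    grind
  · rw [← kap_right (ell_wh2 h1 h2 (Q := {y}) (Or.inr (by grind))) g]
    congr 1
    ext z
    simp only [mem_pre, pi2, Finset.mem_singleton]
    grind

lemma Bs_wh (g : Out (FreeGroup ι)) : Bs (g * omk (wh P e)) ⊆ insert (kap g P) (Bs g) := by
  rintro _ ⟨y, rfl⟩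
  by_cases hy : y.1 = e.1
  · left
    rw [← kap_wh_self h1 h2]
    simp only
    rw [kap_fst, hy, ← kap_fst]
  · exact Or.inr ⟨y, (kap_wh_other h1 h2 g hy).symm⟩

lemma mu_wh (g : Out (FreeGroup ι)) :
    mu (g * omk (wh P e)) + cc g {(e.1, true)} = mu g + cc g P := by
  rw [mu_eq, mu_eq, ← Finset.add_sum_erase _ _ (Finset.mem_univ e.1),
    ← Finset.add_sum_erase _ _ (Finset.mem_univ e.1)]
  have a1 : cc (g * omk (wh P e)) {(e.1, true)} = cc g P := by
    rw [cc, ← kap_fst, kap_wh_self h1 h2, cc]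
  have a2 : ∑ i ∈ Finset.univ.erase e.1, cc (g * omk (wh P e)) {(i, true)}
      = ∑ i ∈ Finset.univ.erase e.1, cc g {(i, true)} :=
    Finset.sum_congr rfl fun i hi => by
      rw [cc, kap_wh_other h1 h2 g (by simpa using hi), cc]
  rw [a1, a2]; abel

lemma exists_swap (v : Vert ι) (hP : P ∈ v.F) :
    ∃ v' : Vert ι, v'.g = v.g * omk (wh P e) ∧ SS v' = SS v := by
  let F1 : Set (Finset (ι × Bool)) := v.F ∪ Set.range fun y => {y}
  have hF1 : ∀ A ∈ F1, ∀ B ∈ F1, compat A B := by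
    rintro A (hA | ⟨y, rfl⟩) B hB
    · rcases hB with hB | ⟨y, rfl⟩
      exacts [v.cpt A hA B hB, compat_symm _ _ (compat_single _ _)]
    · exact compat_single _ _
  have hS : SS v = kap v.g '' F1 := by
    rw [Set.image_union, ← Set.range_comp]; rfl
  let F2 := pre (pi2 P e) '' {Q | Q ∈ F1 ∧ ((∀ z ∈ P, z ∈ Q) ∨ (∀ z ∈ P, z ∉ Q))}
  let F3 := pre (pi1 P e) '' {Q | Q ∈ F1 ∧ ((∀ z, z ∉ P → z ∈ Q) ∨ (∀ z, z ∉ P → z ∉ Q))}
  have h23 : ∀ A ∈ F2, ∀ B ∈ F3, compat A B := by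
    rintro _ ⟨A, ⟨_, hA⟩, rfl⟩ _ ⟨B, ⟨_, hB⟩, rfl⟩
    simp only [compat, mem_pre, pi1, pi2]
    have a1 : ∀ z, (z ∈ P ∧ z ≠ e) ∨ z = bar e →
        ((if z ∈ P ∧ z ≠ e then bar e else z) ∈ A ↔ bar e ∈ A) := by grind
    have a2 : ∀ z, ¬((z ∈ P ∧ z ≠ e) ∨ z = bar e) →
        ((if z ∈ P ∨ z = bar e then z else e) ∈ B ↔ e ∈ B) := by grind
    by_cases b1 : bar e ∈ A <;> by_cases b2 : e ∈ B
    · right; right; right; grind
    · right; left; grind
    · left; grind
    · right; right; left; grind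
  refine ⟨⟨v.g * omk (wh P e), F2 ∪ F3, ?_⟩, rfl, ?_⟩
  · rintro A (hA | hA) B (hB | hB)
    · obtain ⟨A, hA, rfl⟩ := hA
      obtain ⟨B, hB, rfl⟩ := hB
      exact compat_pre _ (hF1 A hA.1 B hB.1)
    · exact h23 A hA B hB
    · exact compat_symm _ _ (h23 B hB A hA)
    · obtain ⟨A, hA, rfl⟩ := hA
      obtain ⟨B, hB, rfl⟩ := hB
      exact compat_pre _ (hF1 A hA.1 B hB.1)
  · refine Set.Subset.antisymm (Set.union_subset ?_ ((Bs_wh h1 h2 v.g).trans ?_)) ?_
    · rw [hS]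
      rintro _ ⟨_, ⟨A, hA, rfl⟩ | ⟨A, hA, rfl⟩, rfl⟩
      exacts [⟨A, hA.1, (kap_right (ell_wh2 h1 h2 hA.2) _).symm⟩,
        ⟨A, hA.1, (kap_right (ell_wh1 h1 h2 hA.2) _).symm⟩]
    · exact Set.insert_subset (Or.inl ⟨P, hP, rfl⟩) Set.subset_union_right
    · rw [hS]
      rintro _ ⟨A, hA, rfl⟩
      left
      rcases hF1 A hA P (Or.inl hP) with h | h | h | h
      · have : ∀ z, z ∉ P → z ∉ A := fun z a b => a (h z b)
        exact ⟨_, Or.inr ⟨A, ⟨hA, Or.inr this⟩, rfl⟩, kap_right (ell_wh1 h1 h2 (Or.inr this)) _⟩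
      · exact ⟨_, Or.inl ⟨A, ⟨hA, Or.inl h⟩, rfl⟩, kap_right (ell_wh2 h1 h2 (Or.inl h)) _⟩
      · have : ∀ z ∈ P, z ∉ A := fun z a b => h z b a
        exact ⟨_, Or.inl ⟨A, ⟨hA, Or.inr this⟩, rfl⟩, kap_right (ell_wh2 h1 h2 (Or.inr this)) _⟩
      · have : ∀ z, z ∉ P → z ∈ A := fun z a => by_contra fun b => a (h z b)
        exact ⟨_, Or.inr ⟨A, ⟨hA, Or.inl this⟩, rfl⟩, kap_right (ell_wh1 h1 h2 (Or.inl this)) _⟩

end swap

lemma relabel_of_letters {θ : MulAut (FreeGroup ι)} (h : ∀ i, ∃ c, θ (of i) = gen c)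
    (v : Vert ι) : ∃ v' : Vert ι, v'.g = v.g * omk θ ∧ SS v' = SS v ∧ Bs v'.g = Bs v.g := by
  obtain ⟨σ, h1, h2⟩ := exists_sigma h
  have k := fun Q => kap_right (ell_sigma h1.1 h2 Q) v.g
  have hB : Bs (v.g * omk θ) = Bs v.g := by
    have : ∀ y, kap (v.g * omk θ) {y} = kap v.g {σ y} := fun y => by
      rw [← k]; congr 1; ext z; simp [h1.1.eq_iff]
    simp only [Bs, this]
    exact h1.2.range_comp (fun y => kap v.g {y})
  refine ⟨⟨v.g * omk θ, pre σ '' v.F, ?_⟩, rfl, ?_, hB⟩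
  · rintro _ ⟨A, hA, rfl⟩ _ ⟨B, hB, rfl⟩
    exact compat_pre _ (v.cpt A hA B hB)
  · simp only [SS, hB, Set.image_image, k]

lemma relabel {g : Out (FreeGroup ι)} (v : Vert ι) (h : len g = len v.g) :
    ∃ v' : Vert ι, v'.g = g ∧ SS v' = SS v := by
  obtain ⟨φ, rfl⟩ := omk_surj g
  obtain ⟨ψ, hψ⟩ := omk_surj v.g
  have k : ∀ w, clen ((ψ⁻¹ * φ) w) = clen w := fun w => by
    have := congrFun h (φ w)
    rw [← hψ, len_omk, len_omk] at this
    simpa using this.symm
  obtain ⟨u, hu⟩ := conj_letters (fun i => (ψ⁻¹ * φ) (of i)) (fun i => by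
    rw [k]; exact clen_gen (i, true)) (fun i j => by
    rw [← map_mul, k]
    exact (clen_le _).trans ((FreeGroup.norm_mul_le _ _).trans (by simp)))
  obtain ⟨v', a1, a2, _⟩ := relabel_of_letters (θ := MulAut.conj u * (ψ⁻¹ * φ)) hu v
  refine ⟨v', ?_, a2⟩
  rw [a1, omk_conj, ← hψ, ← omk_mul, mul_inv_cancel_left]

lemma exists_perm_kap (g g' : Out (FreeGroup ι)) : ∃ π : Equiv.Perm ι, ∀ i Q,
    kap g Q = kap g' {(π i, true)} → Sep Q (i, true) (i, false) := by
  obtain ⟨φ, rfl⟩ := omk_surj g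
  obtain ⟨ψ, rfl⟩ := omk_surj g'
  obtain ⟨π, hπ⟩ := exists_perm (ψ⁻¹ * φ)
  refine ⟨π, fun i Q h hs => hπ i ?_⟩
  have := congrFun h (φ (of i))
  rw [kap_omk, kap_omk, MulAut.inv_apply_self, ← gen_true, ell_gen] at this
  rw [MulAut.mul_apply, ← gen_true, ← this, dl, if_pos (by simpa [bar] using hs.symm)]
  simp

lemma sep_single {y : ι × Bool} {i : ι} (h : Sep {y} (i, true) (i, false)) : y.1 = i := by
  by_contra hne
  apply h
  simp only [Finset.mem_singleton]
  constructor <;> rintro rfl <;> exact absurd rfl hne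

lemma sep_orient {Q : Finset (ι × Bool)} {i : ι} (h : Sep Q (i, true) (i, false)) :
    ∃ e ∈ Q, bar e ∉ Q ∧ e.1 = i := by
  unfold Sep at h
  by_cases h1 : (i, true) ∈ Q
  · exact ⟨_, h1, by simpa [bar, h1] using h, rfl⟩
  · exact ⟨(i, false), by tauto, h1, rfl⟩

lemma exists_match (g : Out (FreeGroup ι)) (v : Vert ι) (h : Bs g ⊆ SS v) :
    ∃ π : Equiv.Perm ι, ∀ i, (kap g {(π i, true)} ∈ Bs v.g → kap g {(π i, true)} =
      kap v.g {(i, true)}) ∧ (kap g {(π i, true)} = kap v.g {(i, true)} ∨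
      ∃ Q ∈ v.F, Sep Q (i, true) (i, false) ∧ kap v.g Q = kap g {(π i, true)}) := by
  obtain ⟨π, hπ⟩ := exists_perm_kap v.g g
  refine ⟨π, fun i => ?_⟩
  have a : kap g {(π i, true)} ∈ Bs v.g → kap g {(π i, true)} = kap v.g {(i, true)} := by
    rintro ⟨y, hy⟩
    rw [← hy, ← sep_single (hπ i _ hy)]
    exact kap_fst _ _
  refine ⟨a, ?_⟩
  rcases h ⟨(π i, true), rfl⟩ with ⟨Q, h1, h2⟩ | h1
  exacts [Or.inr ⟨Q, h1, hπ i Q h2, h2⟩, Or.inl (a h1)]

/-- Every vertex of the star of a rose is a blow-up of that rose. -/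
lemma exists_blowup (g : Out (FreeGroup ι)) (v : Vert ι) (h : Bs g ⊆ SS v) :
    ∃ v' : Vert ι, v'.g = g ∧ SS v' = SS v := by
  generalize hn : {j | kap g {(j, true)} ∉ Bs v.g}.ncard = n
  induction n using Nat.strong_induction_on generalizing v with
  | _ n ih =>
  obtain ⟨π, hπ⟩ := exists_match g v h
  by_cases hall : ∀ i, kap g {(π i, true)} = kap v.g {(i, true)}
  · refine relabel v ?_
    rw [len, len, ← Equiv.sum_comp π]
    exact Finset.sum_congr rfl fun i _ => hall i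
  push Not at hall
  obtain ⟨i, hi⟩ := hall
  obtain ⟨Q, q1, q2, q3⟩ := (hπ i).2.resolve_left hi
  obtain ⟨e, e1, e2, e3⟩ := sep_orient q2
  obtain ⟨v', a1, a2⟩ := exists_swap e1 e2 v q1
  rw [← a2] at h ⊢
  refine ih _ ?_ v' h rfl
  rw [← hn]
  have b1 : kap g {(π i, true)} ∈ Bs v'.g := ⟨e, by rw [a1, ← q3]; exact kap_wh_self e1 e2 _⟩
  refine Set.ncard_lt_ncard ⟨fun j hj hj' => hj ?_, fun hh => ?_⟩ (Set.toFinite _)
  · obtain ⟨k, rfl⟩ := π.surjective j
    by_cases hk : k = i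
    · rwa [hk]
    · rw [(hπ k).1 hj', a1]
      exact ⟨(k, true), kap_wh_other e1 e2 _ (by rwa [e3])⟩
  · exact hh (a := π i) (fun h' => hi ((hπ i).1 h')) b1

lemma Bs_eq_of_perm {g g' : Out (FreeGroup ι)} (π : Equiv.Perm ι)
    (h : ∀ i, kap g {(π i, true)} = kap g' {(i, true)}) : Bs g = Bs g' := by
  ext f
  constructor
  · rintro ⟨y, rfl⟩
    exact ⟨(π.symm y.1, true), by simp only; rw [← h, π.apply_symm_apply, ← kap_fst]⟩
  · rintro ⟨y, rfl⟩
    exact ⟨(π y.1, true), by simp only; rw [h, ← kap_fst]⟩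

lemma exchange_up {g : Out (FreeGroup ι)} {v : Vert ι} (h : Bs g ⊆ SS v) (hne : Bs g ≠ Bs v.g)
    (hle : mu v.g ≤ mu g) :
    ∃ Q ∈ v.F, ∃ i, Sep Q (i, true) (i, false) ∧ cc v.g {(i, true)} < cc v.g Q := by
  obtain ⟨π, hπ⟩ := exists_match g v h
  by_contra hcon
  push Not at hcon
  have a : ∀ i ∈ Finset.univ, cc g {(π i, true)} ≤ cc v.g {(i, true)} := by
    intro i _
    rcases (hπ i).2 with h1 | ⟨Q, q1, q2, q3⟩
    · rw [cc, h1, cc]
    · rw [cc, ← q3]; exact not_lt.1 (hcon Q q1 i q2)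
  rw [mu_eq, mu_eq g, ← Equiv.sum_comp π (fun i => cc g {(i, true)})] at hle
  have := (Finset.sum_eq_sum_iff_of_le a).1 (le_antisymm (Finset.sum_le_sum a) hle)
  exact hne (Bs_eq_of_perm π fun i => val_inj (this i (Finset.mem_univ i)))

lemma exchange_down {g : Out (FreeGroup ι)} {v : Vert ι} (h : Bs g ⊆ SS v) (hne : Bs g ≠ Bs v.g)
    (hle : mu g ≤ mu v.g) :
    ∃ Q ∈ v.F, ∃ i, Sep Q (i, true) (i, false) ∧ cc v.g Q < cc v.g {(i, true)} := by
  obtain ⟨π, hπ⟩ := exists_match g v h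
  by_contra hcon
  push Not at hcon
  have a : ∀ i ∈ Finset.univ, cc v.g {(i, true)} ≤ cc g {(π i, true)} := by
    intro i _
    rcases (hπ i).2 with h1 | ⟨Q, q1, q2, q3⟩
    · rw [cc, cc, h1]
    · rw [cc, cc, ← q3]; exact not_lt.1 (hcon Q q1 i q2)
  rw [mu_eq, mu_eq v.g, ← Equiv.sum_comp π] at hle
  have := (Finset.sum_eq_sum_iff_of_le a).1 (le_antisymm (Finset.sum_le_sum a) hle)
  exact hne (Bs_eq_of_perm π fun i => val_inj (this i (Finset.mem_univ i)).symm)

end OutFn
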