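import Mathlib

/-! First letters of reduced words and turn counting. -/

set_option linter.unusedSectionVars false
set_option linter.unusedVariables false

noncomputable section

namespace OutFn

open FreeGroup hiding map_mul map_one map_inv

variable {ι : Type*} [DecidableEq ι]

/-- The inverse letter. -/
def bar (y : ι × Bool) : ι × Bool := (y.1, !y.2)

@[simp] lemma bar_bar (y : ι × Bool) : bar (bar y) = y := by simp [bar]

lemma bar_ne (y : ι × Bool) : bar y ≠ y := by
  obtain ⟨a, b⟩ := y; cases b <;> simp [bar]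

lemma bar_inj {y z : ι × Bool} : bar y = bar z ↔ y = z :=
  ⟨fun h => by rw [← bar_bar y, h, bar_bar], fun h => h ▸ rfl⟩

lemma bar_eq_iff {y z : ι × Bool} : bar y = z ↔ y = bar z :=
  ⟨fun h => by rw [← h, bar_bar], fun h => by rw [h, bar_bar]⟩

/-- The group element of a letter. -/
def gen (y : ι × Bool) : FreeGroup ι := FreeGroup.mk [y]

lemma gen_bar (y : ι × Bool) : gen (bar y) = (gen y)⁻¹ := by
  simp [gen, inv_mk, invRev, bar]

lemma gen_true (i : ι) : gen (i, true) = of i := rfl

lemma toWord_gen (y : ι × Bool) : (gen y).toWord = [y] := rfl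

lemma gen_injective : Function.Injective (gen : ι × Bool → FreeGroup ι) := by
  intro a b h
  simpa [toWord_gen] using congrArg toWord h

lemma mk_cons (y : ι × Bool) (l : List (ι × Bool)) : FreeGroup.mk (y :: l) = gen y * mk l := by
  simp [gen, mul_mk]

lemma invRev_single (y : ι × Bool) : invRev [y] = [bar y] := by simp [invRev, bar]

lemma rel_iff (a b : ι × Bool) : (a.1 = b.1 → a.2 = b.2) ↔ b ≠ bar a := by
  obtain ⟨a, s⟩ := a
  obtain ⟨b, t⟩ := b
  cases s <;> cases t <;> simp [bar, eq_comm]

lemma isReduced_cons {y : ι × Bool} {l : List (ι × Bool)} :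
    IsReduced (y :: l) ↔ l.head? ≠ some (bar y) ∧ IsReduced l := by
  cases l with
  | nil => simp
  | cons z l => simp [rel_iff]

lemma toWord_mk_of {l : List (ι × Bool)} (h : IsReduced l) : (FreeGroup.mk l).toWord = l := by
  rw [toWord_mk, h.reduce_eq]

/-- First letter. -/
def fl (g : FreeGroup ι) : Option (ι × Bool) := g.toWord.head?

@[simp] lemma fl_one : fl (1 : FreeGroup ι) = none := by simp [fl]

lemma fl_gen (y : ι × Bool) : fl (gen y) = some y := rfl

lemma fl_eq_none {g : FreeGroup ι} : fl g = none ↔ g = 1 := by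
  simp [fl]

lemma toWord_gen_mul {y : ι × Bool} {g : FreeGroup ι} (h : fl g ≠ some (bar y)) :
    (gen y * g).toWord = y :: g.toWord := by
  conv_lhs => rw [← mk_toWord (x := g), ← mk_cons]
  exact toWord_mk_of (isReduced_cons.2 ⟨h, isReduced_toWord⟩)

lemma fl_gen_mul {y : ι × Bool} {g : FreeGroup ι} (h : fl g ≠ some (bar y)) :
    fl (gen y * g) = some y := by
  rw [fl, toWord_gen_mul h]; rfl

lemma exists_of_fl {y : ι × Bool} {g : FreeGroup ι} (h : fl g = some y) :
    ∃ g', fl g' ≠ some (bar y) ∧ g = gen y * g' := by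
  obtain ⟨t, ht⟩ : ∃ t, g.toWord = y :: t := by
    unfold fl at h
    cases hg : g.toWord with
    | nil => simp [hg] at h
    | cons z t => rw [hg] at h; exact ⟨t, by simp at h; rw [h]⟩
  have hr : IsReduced (y :: t) := ht ▸ isReduced_toWord
  refine ⟨mk t, ?_, by rw [← mk_cons, ← ht, mk_toWord]⟩
  rw [fl, toWord_mk_of (isReduced_cons.1 hr).2]
  exact (isReduced_cons.1 hr).1

lemma fl_gen_mul' {y : ι × Bool} {g : FreeGroup ι} (h : fl g = some (bar y)) :
    fl (gen y * g) ≠ some y := by
  obtain ⟨g', h1, rfl⟩ := exists_of_fl h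
  rwa [gen_bar, mul_inv_cancel_left, ← bar_bar y]

lemma word_ind {P : FreeGroup ι → Prop} (h1 : P 1)
    (h2 : ∀ y g, fl g ≠ some (bar y) → P g → P (gen y * g)) (g : FreeGroup ι) : P g := by
  have : ∀ l : List (ι × Bool), IsReduced l → P (mk l) := by
    intro l
    induction l with
    | nil => exact fun _ => h1
    | cons y l ih =>
      intro h
      rw [isReduced_cons] at h
      rw [mk_cons]
      exact h2 y _ (by rw [fl, toWord_mk_of h.2]; exact h.1) (ih h.2)
  simpa [mk_toWord] using this _ (isReduced_toWord (x := g))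

/-- Ping-pong. -/
lemma pingpong {G : Type*} [Group G] (ψ : FreeGroup ι →* G) (R : ι × Bool → G → Prop)
    (hd : ∀ y z g, R y g → R z g → y = z) (h1 : ∀ y, ¬R y 1)
    (h2 : ∀ y g, ¬R (bar y) g → R y (ψ (gen y) * g)) (g : FreeGroup ι) :
    ∀ y, fl g = some y → R y (ψ g) := by
  induction g using word_ind with
  | h1 => simp
  | h2 z g hg ih =>
    intro y hy
    rw [fl_gen_mul hg] at hy
    obtain rfl := Option.some.inj hy
    rw [map_mul]
    refine h2 _ _ (fun hR => ?_)
    cases h : fl g with
    | none => rw [fl_eq_none.1 h, map_one] at hR; exact h1 _ hR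
    | some u => exact hg (by rw [h, hd _ _ _ (ih u h) hR])

lemma fl_mul_gen {y : ι × Bool} (g : FreeGroup ι) :
    g ≠ 1 → g ≠ gen y → fl (g * gen (bar y)) = fl g := by
  induction g using word_ind with
  | h1 => simp
  | h2 z g hg ih =>
    intro _ h2
    rw [fl_gen_mul hg, mul_assoc, fl_gen_mul]
    by_cases h3 : g = 1
    · subst h3
      rw [one_mul, fl_gen]
      intro h
      exact h2 (by rw [mul_one, bar_inj.1 (Option.some.inj h)])
    · by_cases h4 : g = gen y
      · rw [h4, gen_bar, mul_inv_cancel]; simp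
      · rwa [ih h3 h4]

section count

open Classical in
/-- Number of colour changes along a word, with end effects. -/
def cnt (p : Option (ι × Bool) → Prop) : Option (ι × Bool) → List (ι × Bool) → ℕ
  | o, [] => if (p o ↔ p none) then 0 else 1
  | o, y :: l => (if (p o ↔ p (some y)) then 0 else 1) + cnt p (some (bar y)) l

/-- Elements whose colour changes under right multiplication by `w`. -/
def DD (p : Option (ι × Bool) → Prop) (o : Option (ι × Bool)) (w : FreeGroup ι) :
    Set (FreeGroup ι) :=
  {g | ¬(p (if g = 1 then o else fl g) ↔ p (fl (g * w)))}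

lemma DD_card (p : Option (ι × Bool) → Prop) (w : FreeGroup ι) :
    ∀ o, (DD p o w).Finite ∧ (DD p o w).ncard = cnt p o w.toWord := by
  induction w using word_ind with
  | h1 =>
    intro o
    by_cases h : p o ↔ p none
    · have : DD p o 1 = ∅ := by
        ext g; by_cases hg : g = 1 <;> simp [DD, hg, h]
      simp [this, cnt, h]
    · have : DD p o 1 = {1} := by
        ext g; by_cases hg : g = 1 <;> simp [DD, hg, h]
      simp [this, cnt, h]
  | h2 y w hw ih =>
    intro o
    obtain ⟨i1, i2⟩ := ih (some (bar y))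
    have hinj : Function.Injective (fun g : FreeGroup ι => g * gen (bar y)) :=
      mul_left_injective _
    have hfw := fl_gen_mul hw
    have hy : gen y ∉ DD p (some (bar y)) w := by
      have : gen y ≠ 1 := fun h => by simpa [h] using fl_gen y
      simp [DD, this, fl_gen, hfw]
    have e : DD p o (gen y * w) \ {1} = (fun g => g * gen (bar y)) '' DD p (some (bar y)) w := by
      have key : ∀ g, g ≠ gen y → (g * gen (bar y) ∈ DD p o (gen y * w) ↔
          g ∈ DD p (some (bar y)) w) := by
        intro g hg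
        have h1 : g * gen (bar y) ≠ 1 := fun h => hg (by rwa [gen_bar, mul_inv_eq_one] at h)
        have h2 : g * gen (bar y) * (gen y * w) = g * w := by rw [gen_bar]; group
        have h3 : fl (g * gen (bar y)) = if g = 1 then some (bar y) else fl g := by
          split_ifs with h
          · rw [h, one_mul, fl_gen]
          · exact fl_mul_gen g h hg
        simp only [DD, Set.mem_ofPred_eq, if_neg h1, h2, h3]
      ext g
      constructor
      · rintro ⟨h1, h2⟩
        have h3 : g * gen y * gen (bar y) = g := by rw [gen_bar]; group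
        exact ⟨g * gen y, (key _ (by simpa using h2)).1 (by rwa [h3]), h3⟩
      · rintro ⟨g, hg, rfl⟩
        have h1 : g ≠ gen y := fun h => hy (h ▸ hg)
        exact ⟨(key g h1).2 hg, fun h => h1 (by simpa [gen_bar, mul_inv_eq_one] using h)⟩
    have f1 : (DD p o (gen y * w) \ {1}).Finite := e ▸ i1.image _
    have c1 : (DD p o (gen y * w) \ {1}).ncard = cnt p (some (bar y)) w.toWord := by
      rw [e, Set.ncard_image_of_injective _ hinj, i2]
    have f2 : (DD p o (gen y * w)).Finite := Set.Finite.of_sdiff f1 (Set.finite_singleton 1)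
    refine ⟨f2, ?_⟩
    rw [toWord_gen_mul hw, cnt, ← c1]
    by_cases h : p o ↔ p (some y)
    · have : (1 : FreeGroup ι) ∉ DD p o (gen y * w) := by simp [DD, hfw, h]
      rw [if_pos h, Set.sdiff_singleton_eq_self this, zero_add]
    · have : (1 : FreeGroup ι) ∈ DD p o (gen y * w) := by simp [DD, hfw, h]
      rw [if_neg h, ← Set.ncard_sdiff_singleton_add_one this f2, add_comm]

/-- Number of elements whose colour changes under right multiplication by `w`. -/
def dd (p : Option (ι × Bool) → Prop) (w : FreeGroup ι) : ℕ :=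
  {g | ¬(p (fl g) ↔ p (fl (g * w)))}.ncard

lemma DD_none (p : Option (ι × Bool) → Prop) (w : FreeGroup ι) :
    DD p none w = {g | ¬(p (fl g) ↔ p (fl (g * w)))} := by
  ext g; by_cases hg : g = 1 <;> simp [DD, hg]

lemma dd_eq (p : Option (ι × Bool) → Prop) (w : FreeGroup ι) : dd p w = cnt p none w.toWord := by
  rw [dd, ← DD_none]; exact (DD_card p w none).2

lemma dd_fin (p : Option (ι × Bool) → Prop) (w : FreeGroup ι) :
    {g | ¬(p (fl g) ↔ p (fl (g * w)))}.Finite := by
  rw [← DD_none]; exact (DD_card p w none).1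

lemma dd_mul (p : Option (ι × Bool) → Prop) (v w : FreeGroup ι) :
    dd p (v * w) ≤ dd p v + dd p w := by
  have hinj : Function.Injective (fun g : FreeGroup ι => g * v⁻¹) := mul_left_injective _
  unfold dd
  rw [← Set.ncard_image_of_injective {g | ¬(p (fl g) ↔ p (fl (g * w)))} hinj]
  refine le_trans (Set.ncard_le_ncard ?_ ((dd_fin p v).union ((dd_fin p w).image _)))
    (Set.ncard_union_le _ _)
  intro g hg
  by_cases h : p (fl g) ↔ p (fl (g * v))
  · refine Or.inr ⟨g * v, fun h' => hg (h.trans (by rwa [mul_assoc] at h')), by simp⟩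
  · exact Or.inl h

lemma dd_transport (ψ : MulAut (FreeGroup ι)) (u : FreeGroup ι)
    {p p' : Option (ι × Bool) → Prop} (h : ∀ g, p' (fl g) ↔ p (fl (u * ψ g)))
    (w : FreeGroup ι) : dd p' w = dd p (ψ w) := by
  have hinj : Function.Injective (fun g : FreeGroup ι => u * ψ g) :=
    fun a b hab => ψ.injective (mul_left_cancel hab)
  unfold dd
  rw [← Set.ncard_image_of_injective _ hinj]
  congr 1
  ext g
  constructor
  · rintro ⟨g, hg, rfl⟩
    simpa only [Set.mem_ofPred_eq, h, map_mul, mul_assoc] using hg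
  · intro hg
    refine ⟨ψ⁻¹ (u⁻¹ * g), ?_, by simp⟩
    simpa [h, mul_assoc] using hg

/-- Indicator that `P` separates two letters. -/
def dl (P : Finset (ι × Bool)) (a b : ι × Bool) : ℤ := if (a ∈ P ↔ b ∈ P) then 0 else 1

/-- Number of separated turns along a word entered through `a`. -/
def lin (P : Finset (ι × Bool)) : ι × Bool → List (ι × Bool) → ℤ
  | _, [] => 0
  | a, y :: l => dl P a y + lin P (bar y) l

/-- Inverse of the last letter. -/
def lb : ι × Bool → List (ι × Bool) → ι × Bool
  | a, [] => a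
  | _, y :: l => lb (bar y) l

/-- Number of separated turns along a cyclic word. -/
def cyc (P : Finset (ι × Bool)) : List (ι × Bool) → ℤ
  | [] => 0
  | y :: l => lin P (lb (bar y) l) (y :: l)

lemma lin_append (P : Finset (ι × Bool)) (l1 l2 : List (ι × Bool)) :
    ∀ a, lin P a (l1 ++ l2) = lin P a l1 + lin P (lb a l1) l2 := by
  induction l1 with
  | nil => simp [lin, lb]
  | cons y l ih => intro a; simp [lin, lb, ih, add_assoc]

lemma lin_pow (P : Finset (ι × Bool)) (y : ι × Bool) (l : List (ι × Bool)) (k : ℕ) :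
    lin P (lb (bar y) l) (List.replicate k (y :: l)).flatten = k * cyc P (y :: l) := by
  induction k with
  | zero => simp [lin]
  | succ k ih =>
    rw [List.replicate_succ, List.flatten_cons, lin_append, lb, ih, cyc]
    push_cast; ring

lemma cnt_lin {p : Option (ι × Bool) → Prop} {P : Finset (ι × Bool)}
    (h : ∀ y, p (some y) ↔ y ∈ P) (l : List (ι × Bool)) :
    ∀ a, lin P a l ≤ cnt p (some a) l ∧ (cnt p (some a) l : ℤ) ≤ lin P a l + 1 := by
  induction l with
  | nil => intro a; simp only [lin, cnt]; split_ifs <;> simp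
  | cons y l ih =>
    intro a
    have := ih (bar y)
    simp only [lin, cnt, dl, h]
    split_ifs <;> push_cast <;> omega

lemma cnt_lin' {p : Option (ι × Bool) → Prop} {P : Finset (ι × Bool)}
    (h : ∀ y, p (some y) ↔ y ∈ P) (l : List (ι × Bool)) (o) (a) :
    |(cnt p o l : ℤ) - lin P a l| ≤ 2 := by
  rw [abs_le]
  cases l with
  | nil => simp only [lin, cnt]; split_ifs <;> simp
  | cons y l =>
    have := cnt_lin h l (bar y)
    simp only [lin, cnt, dl]
    split_ifs <;> push_cast <;> omega

/-- Linear growth with a given slope. -/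
def Asym (f : ℕ → ℕ) (a : ℤ) : Prop := ∃ C : ℤ, ∀ k : ℕ, |(f k : ℤ) - k * a| ≤ C

lemma Asym.unique {f : ℕ → ℕ} {a b : ℤ} (ha : Asym f a) (hb : Asym f b) : a = b := by
  obtain ⟨C, hC⟩ := ha
  obtain ⟨D, hD⟩ := hb
  by_contra hne
  have h1 := hC (C + D + 1).toNat
  have h2 := hD (C + D + 1).toNat
  have h3 : 0 ≤ C := (abs_nonneg _).trans (hC 0)
  have h4 : 0 ≤ D := (abs_nonneg _).trans (hD 0)
  rw [Int.toNat_of_nonneg (by omega), abs_le] at h1 h2
  rcases lt_or_gt_of_ne hne with h | h <;> nlinarith

lemma asym_cyc {p : Option (ι × Bool) → Prop} {P : Finset (ι × Bool)}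
    (h : ∀ y, p (some y) ↔ y ∈ P) {c : List (ι × Bool)} (hc : IsCyclicallyReduced c) :
    Asym (fun k => dd p (mk c ^ k)) (cyc P c) := by
  refine ⟨2, fun k => ?_⟩
  simp only [dd_eq, pow_mk, toWord_mk_of (hc.flatten_replicate k).isReduced]
  cases c with
  | nil => simp [cyc, cnt]
  | cons y l => rw [← lin_pow]; exact cnt_lin' h _ _ _

lemma asym_conj {p : Option (ι × Bool) → Prop} {w : FreeGroup ι} {a : ℤ}
    (h : Asym (fun k => dd p (w ^ k)) a) (u : FreeGroup ι) :
    Asym (fun k => dd p ((u * w * u⁻¹) ^ k)) a := by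
  obtain ⟨C, hC⟩ := h
  refine ⟨C + dd p u + dd p u⁻¹, fun k => ?_⟩
  have h1 := hC k
  have h2 := dd_mul p (u * w ^ k) u⁻¹
  have h3 := dd_mul p u (w ^ k)
  have h4 := dd_mul p (u⁻¹ * (u * w ^ k * u⁻¹)) u
  have h5 := dd_mul p u⁻¹ (u * w ^ k * u⁻¹)
  have h6 : u⁻¹ * (u * w ^ k * u⁻¹) * u = w ^ k := by group
  rw [h6] at h4
  simp only [conj_pow] at *
  rw [abs_le] at *
  omega

/-- Cyclic reduction. -/
def core (w : FreeGroup ι) : List (ι × Bool) := reduceCyclically w.toWord

lemma core_red (w : FreeGroup ι) : IsCyclicallyReduced (core w) :=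
  reduceCyclically.isCyclicallyReduced isReduced_toWord

lemma core_conj (w : FreeGroup ι) : ∃ u, w = u * mk (core w) * u⁻¹ := by
  refine ⟨mk (reduceCyclically.conjugator w.toWord), ?_⟩
  rw [inv_mk, mul_mk, mul_mk, core, reduceCyclically.conj_conjugator_reduceCyclically, mk_toWord]

/-- Number of times the cyclic word of `w` crosses the partition `P`. -/
def ell (P : Finset (ι × Bool)) (w : FreeGroup ι) : ℤ := cyc P (core w)

lemma asym_ell {p : Option (ι × Bool) → Prop} {P : Finset (ι × Bool)}
    (h : ∀ y, p (some y) ↔ y ∈ P) (w : FreeGroup ι) : Asym (fun k => dd p (w ^ k)) (ell P w) := by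
  obtain ⟨u, hu⟩ := core_conj w
  have := asym_conj (asym_cyc h (core_red w)) u
  rwa [← hu] at this

/-- Colouring attached to `P`. -/
def pOf (P : Finset (ι × Bool)) (b : Prop) : Option (ι × Bool) → Prop
  | none => b
  | some y => y ∈ P

lemma ell_conj (P : Finset (ι × Bool)) (u w : FreeGroup ι) : ell P (u * w * u⁻¹) = ell P w :=
  (asym_ell (p := pOf P False) (fun _ => Iff.rfl) _).unique
    (asym_conj (asym_ell (fun _ => Iff.rfl) w) u)

lemma ell_mk (P : Finset (ι × Bool)) {c : List (ι × Bool)} (hc : IsCyclicallyReduced c) :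
    ell P (mk c) = cyc P c :=
  (asym_ell (p := pOf P False) (fun _ => Iff.rfl) _).unique (asym_cyc (fun _ => Iff.rfl) hc)

lemma ell_transport (ψ : MulAut (FreeGroup ι)) (u : FreeGroup ι) {P P' : Finset (ι × Bool)}
    {b b' : Prop} (h : ∀ g, pOf P' b' (fl g) ↔ pOf P b (fl (u * ψ g))) (w : FreeGroup ι) :
    ell P' w = ell P (ψ w) := by
  refine (asym_ell (p := pOf P' b') (fun _ => Iff.rfl) w).unique ?_
  simpa only [dd_transport ψ u h, map_pow] using asym_ell (p := pOf P b) (fun _ => Iff.rfl) (ψ w)

end count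

end OutFn
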